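import Pool.Agent.Lib.MP_11349d_lc.I.Inv

/-!
# AsG: the limit condition is generic

PROOF. Let `E ⊆ S b`, `cS E ∈ M`; suppose `e = q ⊓ sSup E ⊓ (sSup {e ∈ E | cb e ∈ M})ᶜ ≠ ⊥`. The task `.g E` is in `M` (`TIn`); take `m` with
`τ m = .g E`. By `FusR.le` for `m` and `m + 1` (`ne_of_iSup'`) there are `p, y, p', y'` with `e₁ = e ⊓ σ m p y ⊓ σ (m+1) p' y' ≠ ⊥`.
`FusR.tr` : `e₂ ≤ e₁` nonzero with `Done`. By `fus_le` `e₂ ≤ p'`. Either `p' ≤ e₀` with `e₀ ∈ E`, `cb e₀ ∈ M`: then `e₂ ≤ sSup {..}`,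
contradiction; or `p' ≤ (sSup E)ᶜ` and `e₂ ≤ sSup E`, contradiction. (To conclude `x ≤ z` from `x ⊓ zᶜ = ⊥` use
`disjoint_compl_right_iff`, `disjoint_iff`.)
-/

set_option autoImplicit false

namespace Pool.Agent.BPF

open Cardinal Pool.Agent.CSI

namespace Flt

variable {O Ω B : Type} [LinearOrder O] [WellFoundedLT O] [LinearOrder Ω] [WellFoundedLT Ω]
    [OrderBot O] [OrderBot Ω] [CompleteBooleanAlgebra B] {T : LTree Ω}
    (F : Flt (O := O) (B := B) T)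

theorem fus_gen {a b : O} {M : Set O} {d : Ω} {c : ℕ → O} {τ : ℕ → Tsk O Ω B} {q : B}
    {σ : ℕ → B → Finset ℕ → B} (hc : F.Ctx a b M d c) (hτ : F.TEn b M τ)
    (h : F.FusR b M d c τ q σ) : F.Gen b M q := by
  intro E hE hEM
  by_contra hcon
  set z : B := sSup {e | e ∈ E ∧ F.cb e ∈ M} with hz
  have he : q ⊓ sSup E ⊓ zᶜ ≠ ⊥ := fun h0 =>
    hcon (disjoint_compl_right_iff.1 (disjoint_iff.2 h0))
  set e : B := q ⊓ sSup E ⊓ zᶜ with hedef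
  have heq : e ≤ q := inf_le_left.trans inf_le_left
  have heE : e ≤ sSup E := inf_le_left.trans inf_le_right
  have hez : e ≤ zᶜ := inf_le_right
  obtain ⟨m, -, hm⟩ := hτ.2 (.g E) ⟨hE, hEM⟩ 0
  obtain ⟨p, hp⟩ := ne_of_iSup' he (heq.trans (h.le m))
  obtain ⟨y, hy⟩ := ne_of_iSup' hp inf_le_right
  have hy0 : e ⊓ σ m p y ≠ ⊥ := by
    intro h0
    apply hy
    rw [← le_bot_iff, ← h0]
    exact inf_le_inf_right _ inf_le_left
  obtain ⟨p', hp'⟩ := ne_of_iSup' hy0 ((inf_le_left.trans heq).trans (h.le (m + 1)))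
  obtain ⟨y', hy'⟩ := ne_of_iSup' hp' inf_le_right
  have hy0' : (e ⊓ σ m p y) ⊓ σ (m + 1) p' y' ≠ ⊥ := by
    intro h0
    apply hy'
    rw [← le_bot_iff, ← h0]
    exact inf_le_inf_right _ inf_le_left
  obtain ⟨e₂, he₂, hne, -, -, hD⟩ := h.tr m p y p' y' _ hy0'
    (inf_le_left.trans inf_le_right) inf_le_right
  have h2e : e₂ ≤ e := he₂.trans (inf_le_left.trans inf_le_left)
  have h2p : e₂ ≤ p' := (le_inf (h2e.trans heq) (he₂.trans inf_le_right)).trans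
    (fus_le F hc h (m + 1) p' y')
  rw [hm] at hD
  rcases hD with ⟨e₀, h0E, h0M, h0⟩ | hD
  · apply hne
    rw [← le_bot_iff]
    calc e₂ ≤ z ⊓ zᶜ := le_inf ((h2p.trans h0).trans (le_sSup ⟨h0E, h0M⟩)) (h2e.trans hez)
      _ = ⊥ := inf_compl_eq_bot
  · apply hne
    rw [← le_bot_iff]
    calc e₂ ≤ sSup E ⊓ (sSup E)ᶜ := le_inf (h2e.trans heE) (h2p.trans hD)
      _ = ⊥ := inf_compl_eq_bot

end Flt

end Pool.Agent.BPF
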