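import Pool.Agent.Lib.MP_11349d_lc.I.Inv

/-!
# AsY: the limit condition forces that the side condition is nice

Here `Y j = q ⊓ ⨆ m, ⨆ p, ⨆ y, ⨆ _ : j ∈ y, σ m p y` and `x = ⟨d, N, Y⟩` with `range N = {z ∈ M | z < h b}`.
PROOF of `y0` (for club many `M`, those of `F.cap_U`): let `c₀ ∈ M`, `Lm c₀`, `c₀ < b`, `e = q ⊓ Y n ⊓ U c₀ d n ≠ ⊥`. `fus_y` with `k = 1`,
`t = fun _ => n`: `N`, `e'`. `Ctx.cof`: `c₀ < c m₀`; let `m = max N m₀`, so `c₀ < c m`. There are `p, y` with `e'' = e' ⊓ σ m p y ≠ ⊥`, `n ∈ y`.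
`FusR.ok`: `σ m p y` is generic at `c m` and `≤ Cap (c m) M d y`, so `F.cap_U` gives `σ m p y ⊓ U c₀ d n = ⊥`, contradiction to
`e'' ≤ U c₀ d n`.
`y1`: let `W`, `t` be as in `Nice.y1`, suppose `e = LHS ⊓ RHSᶜ ≠ ⊥`. `fus_y` with `t`: `N`, `e'`. The task `.w k W t` belongs to `M` (`range x.N ⊆ M`);
`TEn` gives `m ≥ N` with `τ m = .w k W t`. `p, y` with `e₁ = e' ⊓ σ m p y ≠ ⊥`, all `t i ∈ y`; then `p', y'` with `e₂ = e₁ ⊓ σ (m+1) p' y' ≠ ⊥`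
(`FusR.le`); `FusR.tr`: `e₃ ≤ e₂`, `Done`. `e₃ ≤ p'` by `fus_le`. First alternative of `Done`: `e₃ ≤ (W ξ ..)ᶜ`, but
`e₃ ≤ W ξ (T.res ξ d t)`, contradiction. Second: `V` with `InS (c m) V`, `n k V ∈ M`, `e₃ ≤ Lg (c m) V`, `e₃ ⊓ V ξ s ⊓ p' ≤ W ξ s`; as `e₃ ≤ p'`,
`e₃ ≤ Sb V W` (`le_iInf`, `le_himp_iff`). `c m ∈ range x.N`: `c m ∈ M`, `c m < b < h b` (`F.bd b hb`.lt); `Mem D x V`: `n k V ∈ M` and
`n k V < h b` by `(F.bd b hb).n` (`inS_mono`). So `e₃ ≤ RHS`, contradiction.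
`y2`: let `c₀, V` as in `Nice.y2`, `e = q ⊓ Lg c₀ V ⊓ RHSᶜ ≠ ⊥`. `Ctx.cof`: `c₀ < c m₀`; `TEn`: `m ≥ m₀` with `τ m = .l c₀ k V e₀`, `c₀ ≤ c m`. As
before `e₂ = e ⊓ σ m p y ⊓ σ (m+1) p' y' ≠ ⊥`, `FusR.tr`: `e₃`, `Done`: `e₃ ⊓ Lg c₀ V = ⊥` contradicts `e₃ ≤ Lg c₀ V`; otherwise `y₀` with
`e₃ ≤ V d y₀`, `y₀ i ∉ e₀`, `y₀ i ∈ y'`, and `e₃ ≤ q ⊓ σ (m+1) p' y' ≤ Y (y₀ i)`. So `e₃ ≤ RHS`, contradiction.
-/

set_option autoImplicit false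

namespace Pool.Agent.BPF

open Cardinal Pool.Agent.CSI

namespace Flt

variable {O Ω B : Type} [LinearOrder O] [WellFoundedLT O] [LinearOrder Ω] [WellFoundedLT Ω]
    [OrderBot O] [OrderBot Ω] [CompleteBooleanAlgebra B] {T : LTree Ω}
    (F : Flt (O := O) (B := B) T)

private theorem asY_ne {x y : B} (h : ¬ x ≤ y) : x ⊓ yᶜ ≠ ⊥ := by
  rw [← sdiff_eq]
  exact fun h' => h (sdiff_eq_bot_iff.1 h')

private theorem asY_bot {e x : B} (h1 : e ≤ x) (h2 : e ≤ xᶜ) : e = ⊥ :=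
  le_bot_iff.1 ((le_inf h1 h2).trans inf_compl_eq_bot.le)

private theorem asY_pick {b : O} {M : Set O} {d : Ω} {c : ℕ → O} {τ : ℕ → Tsk O Ω B} {q : B}
    {σ : ℕ → B → Finset ℕ → B} (h : F.FusR b M d c τ q σ) (m : ℕ) {e : B} (he : e ≠ ⊥)
    (heq : e ≤ q) : ∃ p y, e ⊓ σ m p y ≠ ⊥ := by
  obtain ⟨p, hp⟩ := ne_of_iSup' he (heq.trans (h.le m))
  obtain ⟨y, hy⟩ := ne_of_iSup' hp (inf_le_right : e ⊓ (⨆ y, σ m p y) ≤ ⨆ y, σ m p y)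
  exact ⟨p, y, fun h0 => hy (le_bot_iff.1 ((inf_le_inf_right _ inf_le_left).trans h0.le))⟩

theorem fus_nice (hΩ : IsOm1 Ω) (hO : IsKap O) {a b : O} (hb : Lm b) : ∀ᶠ M in clubF O, ∀ d c,
    F.Ctx a b M d c → ∀ (τ : ℕ → Tsk O Ω B), F.TEn b M τ → ∀ q σ, F.FusR b M d c τ q σ →
      ∀ N : ℕ → O, Set.range N = {z | z ∈ M ∧ z < F.h b} →
        Nice T F.toDat b ⟨d, N, fun j => q ⊓ ⨆ m, ⨆ p, ⨆ y, ⨆ _ : j ∈ y, σ m p y⟩ q := by
  filter_upwards [F.cap_U hΩ hO] with M hM d c hC τ hT q σ hF N hN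
  have hr : ∀ z, z ∈ Set.range N ↔ z ∈ M ∧ z < F.h b := fun z => by rw [hN]; rfl
  refine ⟨?_, ?_, ?_⟩
  · intro c₀ hc₀ hL hcb n
    by_contra he
    have hc₀M : c₀ ∈ M := ((hr c₀).1 hc₀).1
    obtain ⟨N0, e', he'le, he'ne, hst⟩ := F.fus_y hF (k := 1) (fun _ => n) he
      (inf_le_left.trans inf_le_left)
      (fun _ => inf_le_left.trans (inf_le_right.trans inf_le_right))
    obtain ⟨m₀, hm₀⟩ := hC.cof c₀ hc₀M hcb
    have hlt : c₀ < c (max N0 m₀) := hm₀.trans_le (hC.mono.monotone (le_max_right _ _))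
    obtain ⟨p, y, h1, h2⟩ := hst (max N0 m₀) (le_max_left _ _) e' le_rfl he'ne
    have hok := hF.ok (max N0 m₀) p y
    have h3 := hM d hC.hd c₀ hc₀M hL _ hlt y n (h2 0) _ hok.gen hok.cap
    refine h1 (le_bot_iff.1 ((le_inf inf_le_right ?_).trans h3.le))
    exact inf_le_left.trans (he'le.trans inf_le_right)
  · intro k W hW hWS hTr t
    by_contra hle
    have he := asY_ne hle
    set RHS : B := ⨆ c₁, ⨆ _ : c₁ ∈ Set.range N ∧ ¬ Lm c₁ ∧ c₁ < b, ⨆ V : Nm Ω B k,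
      ⨆ _ : Mem F.toDat (⟨d, N, fun j => q ⊓ ⨆ m, ⨆ p, ⨆ y, ⨆ _ : j ∈ y, σ m p y⟩ : Side O Ω B) V ∧
        InS F.toDat c₁ V, Lg T F.toDat c₁ V ⊓ Sb V W with hRHS
    have hWM : F.n k W ∈ M := ((hr _).1 hW).1
    obtain ⟨N0, e', he'le, he'ne, hst⟩ := F.fus_y hF t he
      (inf_le_left.trans (inf_le_left.trans inf_le_left))
      (fun i => inf_le_left.trans (inf_le_left.trans (inf_le_right.trans
        ((iInf_le _ i).trans inf_le_right))))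
    obtain ⟨m, hm, hτ⟩ := hT.2 (.w k W t) ⟨hWM, hWS, hTr⟩ N0
    obtain ⟨p, y, h1, h2⟩ := hst m hm e' le_rfl he'ne
    have hq1 : e' ⊓ σ m p y ≤ q :=
      inf_le_left.trans (he'le.trans (inf_le_left.trans (inf_le_left.trans inf_le_left)))
    obtain ⟨p', y', h3⟩ := F.asY_pick hF (m + 1) h1 hq1
    obtain ⟨e₃, he₃, hne₃, hp, hy, hD⟩ := hF.tr m p y p' y' _ h3 (inf_le_left.trans inf_le_right)
      inf_le_right
    rw [hτ] at hD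
    have hee' : e₃ ≤ e' := he₃.trans (inf_le_left.trans inf_le_left)
    have hep' : e₃ ≤ p' := (le_inf (he₃.trans (inf_le_left.trans hq1))
      (he₃.trans inf_le_right)).trans (F.fus_le hC hF (m + 1) p' y')
    rcases hD h2 with ⟨ξ, hξ, h4⟩ | ⟨V, hV1, hV2, hV3, hV4⟩
    · refine hne₃ (asY_bot (x := W ξ (T.res ξ d t)) ?_ (hep'.trans h4))
      exact hee'.trans (he'le.trans (inf_le_left.trans (inf_le_right.trans
        ((iInf_le _ ξ).trans (iInf_le _ hξ)))))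
    · refine hne₃ (asY_bot (x := RHS) ?_ (hee'.trans (he'le.trans inf_le_right)))
      have hc1 : c m ∈ Set.range N ∧ ¬ Lm (c m) ∧ c m < b :=
        ⟨(hr _).2 ⟨hC.cM m, (hC.clt m).trans (F.bd b hb).lt⟩, hC.cn m, hC.clt m⟩
      have hV5 : F.n k V ∈ Set.range N :=
        (hr _).2 ⟨hV2, (F.bd b hb).n k V (F.inS_mono (hC.clt m).le hV1)⟩
      rw [hRHS]
      refine le_iSup₂_of_le (c m) hc1 (le_iSup₂_of_le V ⟨hV5, hV1⟩ (le_inf hV3 ?_))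
      refine le_iInf fun ξ => le_iInf fun s => le_himp_iff.2 ?_
      exact (le_inf le_rfl (inf_le_left.trans hep')).trans (hV4 ξ s)
  · intro c₀ hc₀ hL hcb k V hV hVS e₀
    by_contra hle
    have he := asY_ne hle
    have hc₀M : c₀ ∈ M := ((hr c₀).1 hc₀).1
    obtain ⟨m₀, hm₀⟩ := hC.cof c₀ hc₀M hcb
    obtain ⟨m, hm, hτ⟩ := hT.2 (.l c₀ k V e₀) ⟨hc₀M, hL, hcb, ((hr _).1 hV).1, hVS⟩ m₀
    have hcm : c₀ ≤ c m := (hm₀.trans_le (hC.mono.monotone hm)).le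
    obtain ⟨p, y, h1⟩ := F.asY_pick hF m he (inf_le_left.trans inf_le_left)
    obtain ⟨p', y', h3⟩ := F.asY_pick hF (m + 1) h1
      (inf_le_left.trans (inf_le_left.trans inf_le_left))
    obtain ⟨e₃, he₃, hne₃, hp, hy, hD⟩ := hF.tr m p y p' y' _ h3 (inf_le_left.trans inf_le_right)
      inf_le_right
    rw [hτ] at hD
    have hee := he₃.trans (inf_le_left.trans inf_le_left)
    rcases hD hcm with h4 | ⟨y0, h5, h6, h7⟩
    · exact hne₃ (le_bot_iff.1 ((le_inf le_rfl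
        (hee.trans (inf_le_left.trans inf_le_right))).trans h4.le))
    · refine hne₃ (asY_bot ?_ (hee.trans inf_le_right))
      refine le_iSup₂_of_le y0 h5 (le_inf h7 (le_iInf fun i => le_inf
        (hee.trans (inf_le_left.trans inf_le_left)) ?_))
      exact (he₃.trans inf_le_right).trans (le_iSup_of_le (m + 1) (le_iSup_of_le p'
        (le_iSup_of_le y' (le_iSup_of_le (h6 i) le_rfl))))

end Flt

end Pool.Agent.BPF
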