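import Pool.Agent.Lib.MP_11349d_lc.I.Reg

/-!
# Big: there are many subtrees

PROOF. Let `X ξ = {x | h ξ x ≠ ⊥}`. CLAIM `#(X ξ) < #O`: `E = h ξ '' X ξ`; `F.cc'` gives `E' ⊆ E`, `#E' < #O`, `sSup E' = sSup E`. For `x ∈ X ξ`:
`h ξ x ≤ sSup E'`, so `h ξ x ⊓ e ≠ ⊥` for some `e = h ξ x' ∈ E'`, so `x = x'` (disjointness) and `h ξ x ∈ E'`. The map `x ↦ h ξ x` is injective on
`X ξ` (equal nonzero values are not disjoint), so `#(X ξ) ≤ #E' < #O`. The union over `ξ : Ω` has cardinality `< #O` (`#Ω ≤ ℵ₁ < #O`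
and `#O` is regular: from `hO.bdd`, `hO.iio`; or directly: each `(Subtype.val '' X ξ : Set O)` is bounded by some `b ξ` (`hO.bdd`), and
`{b ξ}` is bounded by `g` (`hO.bdd`, `Cardinal.mk_range_le`)). There is a limit element `x > g`: e.g. iterate the successor `ω` times: the set
`{g₀ < g₁ < ...}` of successive successors is bounded (`hO.bdd`, countable), its least strict upper bound is a limit.
Then `x ∉ X ξ` for all `ξ`.
-/

set_option autoImplicit false

namespace Pool.Agent.BPF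

open Cardinal Pool.Agent.CSI

namespace Flt

variable {O Ω B : Type} [LinearOrder O] [WellFoundedLT O] [LinearOrder Ω] [WellFoundedLT Ω]
    [OrderBot O] [OrderBot Ω] [CompleteBooleanAlgebra B] {T : LTree Ω}
    (F : Flt (O := O) (B := B) T)

omit [OrderBot O] in
theorem exists_lim {O : Type} [LinearOrder O] [WellFoundedLT O] (hO : IsKap O) (g : O) :
    ∃ x, g < x ∧ Lm x := by
  have h0 : ℵ₀ < #O := lt_of_le_of_lt (Cardinal.aleph0_le_aleph 1) hO.om1
  have hsucc : ∀ b : O, ∃ b', b < b' := by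
    intro b
    have h1 : #({b} : Set O) < #O := by
      rw [Cardinal.mk_singleton]
      exact lt_of_lt_of_le Cardinal.one_lt_aleph0 h0.le
    obtain ⟨b', hb'⟩ := hO.bdd {b} h1
    exact ⟨b', hb' b rfl⟩
  choose f hf using hsucc
  let c : ℕ → O := fun n => f^[n] g
  have hc : ∀ n, c n < c (n + 1) := by
    intro n
    show f^[n] g < f^[n + 1] g
    rw [Function.iterate_succ_apply']
    exact hf _
  have hne : {b | ∀ n, c n < b}.Nonempty := by
    have h1 : #(Set.range c) < #O := lt_of_le_of_lt Cardinal.mk_range_le (by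
      rw [Cardinal.mk_nat]
      exact h0)
    obtain ⟨b, hb⟩ := hO.bdd (Set.range c) h1
    exact ⟨b, fun n => hb _ ⟨n, rfl⟩⟩
  obtain ⟨x, hx, hmin⟩ := WellFounded.has_min (wellFounded_lt (α := O)) _ hne
  refine ⟨x, hx 0, ⟨g, hx 0⟩, fun d hd => ?_⟩
  by_contra hn
  push Not at hn
  apply hmin d _ hd
  intro n
  by_contra hcn
  push Not at hcn
  exact absurd (hx (n + 1)) (not_lt.2 (hn _ (lt_of_le_of_lt hcn (hc n))))

include F in
theorem big_K (hΩ : IsOm1 Ω) (hO : IsKap O) (h : Ω → {x : O // Lm x} → B)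
    (hd : ∀ ξ x y, x ≠ y → h ξ x ⊓ h ξ y = ⊥) : ∃ x, ∀ ξ, h ξ x = ⊥ := by
  have key : ∀ ξ, ∃ b : O, ∀ x : {x : O // Lm x}, h ξ x ≠ ⊥ → x.1 < b := by
    intro ξ
    obtain ⟨E', hE', hE1, hE2⟩ := F.cc' (h ξ '' {x | h ξ x ≠ ⊥})
    have hmem : ∀ x : {x : {x : O // Lm x} // h ξ x ≠ ⊥}, h ξ x.1 ∈ E' := by
      rintro ⟨x, hx⟩
      have h1 : h ξ x ≤ sSup E' := by
        rw [hE2]
        exact le_sSup ⟨x, hx, rfl⟩
      have h2 : ∃ e ∈ E', h ξ x ⊓ e ≠ ⊥ := by
        by_contra hn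
        push Not at hn
        apply hx
        rw [← le_bot_iff]
        calc h ξ x ≤ h ξ x ⊓ sSup E' := le_inf le_rfl h1
          _ ≤ ⊥ := by
            rw [inf_sSup_eq]
            exact iSup₂_le fun e he => (hn e he).le
      obtain ⟨e, he, hne⟩ := h2
      obtain ⟨x', -, rfl⟩ := hE' he
      have h3 : x = x' := by
        by_contra h4
        exact hne (hd ξ x x' h4)
      show h ξ x ∈ E'
      rw [h3]
      exact he
    have hinj : Function.Injective
        (fun x : {x : {x : O // Lm x} // h ξ x ≠ ⊥} => (⟨h ξ x.1, hmem x⟩ : E')) := by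
      rintro ⟨x, hx⟩ ⟨y, hy⟩ hxy
      have h1 : h ξ x = h ξ y := congrArg Subtype.val hxy
      refine Subtype.ext ?_
      by_contra h2
      have h3 := hd ξ x y h2
      rw [← h1, inf_idem] at h3
      exact hx h3
    have h1 : #{x : {x : O // Lm x} // h ξ x ≠ ⊥} < #O :=
      lt_of_le_of_lt (Cardinal.mk_le_of_injective hinj) hE1
    have h2 : #(Set.range fun x : {x : {x : O // Lm x} // h ξ x ≠ ⊥} => (x.1.1 : O)) < #O :=
      lt_of_le_of_lt Cardinal.mk_range_le h1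
    obtain ⟨b, hb⟩ := hO.bdd _ h2
    exact ⟨b, fun x hx => hb _ ⟨⟨x, hx⟩, rfl⟩⟩
  choose b hb using key
  have h1 : #(Set.range b) < #O :=
    lt_of_le_of_lt Cardinal.mk_range_le (lt_of_le_of_lt (card_om1 hΩ) hO.om1)
  obtain ⟨g, hg⟩ := hO.bdd _ h1
  obtain ⟨x, hgx, hx⟩ := exists_lim hO g
  refine ⟨⟨x, hx⟩, fun ξ => ?_⟩
  by_contra hne
  exact lt_irrefl x (((hb ξ ⟨x, hx⟩ hne).trans (hg _ ⟨ξ, rfl⟩)).trans hgx)

end Flt

end Pool.Agent.BPF
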