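import Pool.Agent.Lib.MP_11349d_lc.I.XS

/-!
# Bp: the bounded proper forcing axiom

PROOF. `gen_bd` for `c : Finset (Ω × Ω) → B` (`#(Finset (Ω × Ω)) ≤ ℵ₁ < #O`: `card_om1`, `Cardinal.mk_finset_of_infinite` or
`Cardinal.mk_finset_le..`; if `Ω` is infinite `#(Finset (Ω × Ω)) = #Ω`) and for `b` (`F.total`) and `F.mono` give `g` with all `c s ∈ S g`,
`b ∈ S g`. `F.bk c b g` gives `a ≥ g`, `¬ Lm a`; `c s ∈ S a`, `b ∈ S a`. It remains to show `HasExt {x // x ∈ S a ∧ x ≠ ⊥} ..` from the given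
`HasExt {x // x ≠ ⊥} ..`: let `A`, the preorder, `Y : PExt _ A`, `g` be given. Take `(F.XS a).comp Y`: `RelProper.comp (F.relProper_XS ..)`,
and `PExt.realizes_comp` with `𝒟 s = {p | p.1 ≤ c s}`; `hD`: `x ≤ c s` implies `pr a x ≤ c s` (`pr_le`); `(F.XS a).e ⟨b, _⟩ = ⟨b, _⟩` is `rfl`.
-/

set_option autoImplicit false

namespace Pool.Agent.BPF

open Cardinal Pool.Agent.CSI

namespace Flt

variable {O Ω B : Type} [LinearOrder O] [WellFoundedLT O] [LinearOrder Ω] [WellFoundedLT Ω]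
    [OrderBot O] [OrderBot Ω] [CompleteBooleanAlgebra B] {T : LTree Ω}
    (F : Flt (O := O) (B := B) T)

private theorem card_fin (hΩ : IsOm1 Ω) (hO : IsKap O) : #(Finset (Ω × Ω)) < #O := by
  have hinf : Infinite Ω := by
    by_contra h
    rw [not_infinite_iff_finite] at h
    exact hΩ.unc inferInstance
  rw [Cardinal.mk_finset_of_infinite, Cardinal.mk_prod, Cardinal.lift_id,
    Cardinal.mul_eq_self (Cardinal.aleph0_le_mk Ω)]
  exact (card_om1 hΩ).trans_lt hO.om1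

include F in
theorem bp (hΩ : IsOm1 Ω) (hO : IsKap O) (c : Finset (Ω × Ω) → B) (b : {b : B // b ≠ ⊥})
    (h : ∃ A, HasExt {b : B // b ≠ ⊥} (fun s => {p | p.1 ≤ c s}) b A) :
    ∃ G : Ω → Ω → B, (∀ ξ, b.1 ≤ ⨆ η, G ξ η) ∧ (∀ ξ η η', η ≠ η' → G ξ η ⊓ G ξ η' = ⊥) ∧
      ∀ s : Finset (Ω × Ω), b.1 ⊓ ⨅ x ∈ s, G x.1 x.2 ≤ c s := by
  obtain ⟨A, iA, Y, g, hY, hR⟩ := h
  obtain ⟨g1, hg1⟩ := F.gen_bd hO (card_fin hΩ hO) c
  obtain ⟨g2, hg2⟩ := F.total b.1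
  obtain ⟨a, hga, ha, hbk⟩ := F.bk c b.1 (max g1 g2) b.2
  have hc : ∀ s, c s ∈ F.S a := fun s => F.mono g1 a ((le_max_left _ _).trans hga) (hg1 s)
  have hb : b.1 ∈ F.S a := F.mono g2 a ((le_max_right _ _).trans hga) hg2
  refine hbk hc hb b.2 ⟨A, iA, (F.XS a).comp Y, g,
    PExt.RelProper.comp (F.relProper_XS hΩ hO ha) hY, ?_⟩
  exact PExt.realizes_comp (X := F.XS a) (Y := Y) (𝒟 := fun s => {p | p.1 ≤ c s})
    (b := ⟨b.1, hb, b.2⟩) hR (fun s x hx => F.pr_le (hc s) hx)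

end Flt

end Pool.Agent.BPF
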