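import Pool.Agent.Lib.MP_11349d_lc.Gen

/-!
# Cl: closure of models under functions of several variables, relations, countable parameters
-/

set_option autoImplicit false

namespace Pool.Agent.BPF

open Cardinal Pool.Agent.CSI Filter

variable {O X Y Z W V : Type}

/-- typed normality -/
theorem ev_nrm {c : X → O} (hc : Function.Injective c) {Φ : X → Set O → Prop}
    (h : ∀ x, ∀ᶠ M in clubF O, Φ x M) : ∀ᶠ M in clubF O, ∀ x, c x ∈ M → Φ x M := by
  filter_upwards [ev_normalOn (A := Set.univ) hc.injOn (fun x _ => h x)] with M hM x hx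
  exact hM x trivial hx

theorem ev_nrm2 {c : X → O} (hc : Function.Injective c) {c' : Y → O} (hc' : Function.Injective c')
    {Φ : X → Y → Set O → Prop} (h : ∀ x y, ∀ᶠ M in clubF O, Φ x y M) :
    ∀ᶠ M in clubF O, ∀ x, c x ∈ M → ∀ y, c' y ∈ M → Φ x y M :=
  ev_nrm hc fun x => ev_nrm hc' (h x)

theorem ev_nrm3 {c : X → O} (hc : Function.Injective c) {c' : Y → O} (hc' : Function.Injective c')
    {c'' : Z → O} (hc'' : Function.Injective c'')
    {Φ : X → Y → Z → Set O → Prop} (h : ∀ x y z, ∀ᶠ M in clubF O, Φ x y z M) :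
    ∀ᶠ M in clubF O, ∀ x, c x ∈ M → ∀ y, c' y ∈ M → ∀ z, c'' z ∈ M → Φ x y z M :=
  ev_nrm hc fun x => ev_nrm2 hc' hc'' (h x)

/-- countable parameters -/
theorem ev_all [Countable X] {Φ : X → Set O → Prop} (h : ∀ x, ∀ᶠ M in clubF O, Φ x M) :
    ∀ᶠ M in clubF O, ∀ x, Φ x M := eventually_countable_forall.2 h

theorem ev_f1 {c : X → O} (hc : Function.Injective c) (e : Y → O) (f : X → Y) :
    ∀ᶠ M in clubF O, ∀ x, c x ∈ M → e (f x) ∈ M :=
  ev_nrm hc fun x => ev_mem (e (f x))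

theorem ev_f2 {c : X → O} (hc : Function.Injective c) {c' : Y → O} (hc' : Function.Injective c')
    (e : Z → O) (f : X → Y → Z) :
    ∀ᶠ M in clubF O, ∀ x, c x ∈ M → ∀ y, c' y ∈ M → e (f x y) ∈ M :=
  ev_nrm2 hc hc' fun x y => ev_mem (e (f x y))

theorem ev_f3 {c : X → O} (hc : Function.Injective c) {c' : Y → O} (hc' : Function.Injective c')
    {c'' : Z → O} (hc'' : Function.Injective c'') (e : W → O) (f : X → Y → Z → W) :
    ∀ᶠ M in clubF O, ∀ x, c x ∈ M → ∀ y, c' y ∈ M → ∀ z, c'' z ∈ M → e (f x y z) ∈ M :=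
  ev_nrm3 hc hc' hc'' fun x y z => ev_mem (e (f x y z))

/-- witnesses -/
theorem ev_r0 (e : Y → O) (R : Y → Prop) :
    ∀ᶠ M in clubF O, (∃ y, R y) → ∃ y, R y ∧ e y ∈ M := by
  by_cases h : ∃ y, R y
  · obtain ⟨y, hy⟩ := h
    filter_upwards [ev_mem (e y)] with M hM _
    exact ⟨y, hy, hM⟩
  · filter_upwards with M hM
    exact absurd hM h

theorem ev_r1 {c : X → O} (hc : Function.Injective c) (e : Y → O) (R : X → Y → Prop) :
    ∀ᶠ M in clubF O, ∀ x, c x ∈ M → (∃ y, R x y) → ∃ y, R x y ∧ e y ∈ M :=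
  ev_nrm hc fun x => ev_r0 e (R x)

theorem ev_r2 {c : X → O} (hc : Function.Injective c) {c' : Y → O} (hc' : Function.Injective c')
    (e : Z → O) (R : X → Y → Z → Prop) :
    ∀ᶠ M in clubF O, ∀ x, c x ∈ M → ∀ y, c' y ∈ M → (∃ z, R x y z) → ∃ z, R x y z ∧ e z ∈ M :=
  ev_nrm2 hc hc' fun x y => ev_r0 e (R x y)

theorem ev_r3 {c : X → O} (hc : Function.Injective c) {c' : Y → O} (hc' : Function.Injective c')
    {c'' : Z → O} (hc'' : Function.Injective c'') (e : W → O) (R : X → Y → Z → W → Prop) :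
    ∀ᶠ M in clubF O, ∀ x, c x ∈ M → ∀ y, c' y ∈ M → ∀ z, c'' z ∈ M → (∃ w, R x y z w) →
      ∃ w, R x y z w ∧ e w ∈ M :=
  ev_nrm3 hc hc' hc'' fun x y z => ev_r0 e (R x y z)

theorem inj_id : Function.Injective (fun x : O => x) := fun _ _ h => h

end Pool.Agent.BPF
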