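import Pool.Agent.Lib.MP_11349d_lc.I.Prj
import Pool.Agent.Lib.MP_11349d_lc.I.Cl

/-!
# Cmp: composition of relatively proper extensions

PROOF of `RelProper.comp`. Let `W = A ⊕ Set A`, `V = B ⊕ Set B`, `i : V → W`, `i (inl x) = inl (Y.e x)`, `i (inr D) = inr (Y.e '' D)`; `i` is
injective: `Y.e` is injective (`Y.π_e`). From the club of `X` (`ev_of_isClub`, `ev_preimage` along `i`) and the club of `Y`
(`ev_of_isClub`): for club many `N ⊆ W`: `i ⁻¹' N` is in the club of `X`, `N` is in the club of `Y`, and `inl p ∈ N → inl (Y.e (Y.π p)) ∈ N`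
(`ev_fun` or `ev_f1` with the code `Sum.inl`). `isClub_of_ev` makes a club. Let `p`, `q ≤ X.π (Y.π p)`, `(X.comp Y).GenB N q`. `X.GenB (i ⁻¹' N) q`: for `D`
with `inr (X.e '' D) ∈ i ⁻¹' N`, i.e. `inr (Y.e '' (X.e '' D)) ∈ N`, this is the hypothesis (`Set.image_image`). So there is `r₁ ≤ Y.π p`, `X.π r₁ ≤ q`,
`GenA (i ⁻¹' N) r₁`, which is exactly `Y.GenB N r₁`. So there is `r ≤ p`, `Y.π r ≤ r₁`, `GenA N r`; `X.π (Y.π r) ≤ X.π r₁ ≤ q` (`π_mono`).
`realizes_comp`: unfold; `a ≤ Y.e (X.e b)`; `fin`: `𝒞 s = {x | x ∈ 𝒟 s}` along `X.π`.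
-/

set_option autoImplicit false

namespace Pool.Agent.BPF

open Cardinal Pool.Agent.CSI

namespace PExt

variable {P B A : Type} [Preorder P] [Preorder B] [Preorder A]

/-- composition -/
def comp (X : PExt P B) (Y : PExt B A) : PExt P A where
  e := fun p => Y.e (X.e p)
  π := fun a => X.π (Y.π a)
  e_mono := fun h => Y.e_mono (X.e_mono h)
  π_mono := fun h => X.π_mono (Y.π_mono h)
  π_e := fun p => by rw [Y.π_e, X.π_e]
  le_e := fun a => (Y.le_e a).trans (Y.e_mono (X.le_e _))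
  proj := fun a p h => by
    obtain ⟨b, hb, hbp⟩ := X.proj (Y.π a) p h
    obtain ⟨c, hc, hcb⟩ := Y.proj a b hb
    exact ⟨c, hc, (X.π_mono hcb).trans hbp⟩

/-- elements and subsets of `B` as elements and subsets of `A` -/
private def emb (Y : PExt B A) : B ⊕ Set B → A ⊕ Set A :=
  Sum.map Y.e (fun D => Y.e '' D)

private theorem e_inj (Y : PExt B A) : Function.Injective Y.e := by
  intro x y h
  rw [← Y.π_e x, ← Y.π_e y, h]

private theorem emb_inj (Y : PExt B A) : Function.Injective (emb Y) :=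
  Function.Injective.sumMap (e_inj Y) (Set.image_injective.2 (e_inj Y))

theorem RelProper.comp {X : PExt P B} {Y : PExt B A} (hX : X.RelProper) (hY : Y.RelProper) :
    (X.comp Y).RelProper := by
  obtain ⟨C, hC, h1⟩ := hX
  obtain ⟨C', hC', h2⟩ := hY
  have h3 : ∀ᶠ N in clubF (A ⊕ Set A), (emb Y) ⁻¹' N ∈ C :=
    ev_preimage (emb_inj Y) (Φ := fun N => N ∈ C) (ev_of_isClub hC)
  have h4 : ∀ᶠ N in clubF (A ⊕ Set A), N ∈ C' := ev_of_isClub hC'
  have h5 : ∀ᶠ N in clubF (A ⊕ Set A), ∀ p : A, (Sum.inl p : A ⊕ Set A) ∈ N →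
      (Sum.inl (Y.e (Y.π p)) : A ⊕ Set A) ∈ N :=
    ev_f1 (O := A ⊕ Set A) (Sum.inl_injective (α := A) (β := Set A)) Sum.inl
      (fun p => Y.e (Y.π p))
  obtain ⟨D, hD, h6⟩ := isClub_of_ev (h3.and (h4.and h5))
  refine ⟨D, hD, fun N hN p hp q hq hg => ?_⟩
  obtain ⟨h7, h8, h9⟩ := h6 N hN
  have hg1 : X.GenB ((emb Y) ⁻¹' N) q := by
    intro E hE hd q' hq'
    have hE' : (Sum.inr ((X.comp Y).e '' E) : A ⊕ Set A) ∈ N := by
      have e1 : (X.comp Y).e '' E = Y.e '' (X.e '' E) := (Set.image_image Y.e X.e E).symm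
      rw [e1]
      exact hE
    exact hg E hE' hd q' hq'
  obtain ⟨r₁, hr1, hr2, hr3⟩ := h1 _ h7 (Y.π p) (h9 p hp) q hq hg1
  have hg2 : Y.GenB N r₁ := by
    intro E hE hd q' hq'
    exact hr3 E hE hd q' hq'
  obtain ⟨r, hr4, hr5, hr6⟩ := h2 N h8 p hp r₁ hr1 hg2
  exact ⟨r, hr4, (X.π_mono hr5).trans hr2, hr6⟩

theorem realizes_comp {Ω : Type} {X : PExt P B} {Y : PExt B A} {𝒟 : Finset (Ω × Ω) → Set B}
    {𝒞 : Finset (Ω × Ω) → Set P} {b : P} {g : Ω → Ω → Set A} (h : Y.Realizes 𝒟 (X.e b) g)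
    (hD : ∀ s x, x ∈ 𝒟 s → X.π x ∈ 𝒞 s) : (X.comp Y).Realizes 𝒞 b g where
  down := h.down
  total := h.total
  func := h.func
  fin := fun a ha s hs => by
    obtain ⟨a', ha', hm⟩ := h.fin a ha s hs
    exact ⟨a', ha', hD s _ hm⟩

end PExt

end Pool.Agent.BPF
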