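import Pool.Agent.Lib.MP_11349d_lc.TreeApi

/-!
# Tsk: the limit step, definitions
-/

set_option autoImplicit false

namespace Pool.Agent.BPF

open Cardinal Pool.Agent.CSI

/-- the tasks of the limit step: `g E`: decide the set `E`; `w k W t`: the tree `W` and the tuple `t`;
`l c k V e`: the large tree `V` (of stage `c`) and the finite set `e` -/
inductive Tsk (O Ω B : Type) : Type
  | g (E : Set B)
  | w (k : ℕ) (W : Nm Ω B k) (t : Fin k → ℕ)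
  | l (c : O) (k : ℕ) (V : Nm Ω B k) (e : Finset ℕ)

namespace Flt

variable {O Ω B : Type} [LinearOrder O] [WellFoundedLT O] [LinearOrder Ω] [WellFoundedLT Ω]
    [OrderBot O] [OrderBot Ω] [CompleteBooleanAlgebra B] {T : LTree Ω}
    (F : Flt (O := O) (B := B) T)

/-- the sequence `c` is cofinal in `M ∩ b`, `b` limit; `d = M ∩ ω₁` -/
structure Ctx (a b : O) (M : Set O) (d : Ω) (c : ℕ → O) : Prop where
  lb : Lm b
  bM : b ∈ M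
  hd : ∀ ξ, F.o ξ ∈ M ↔ ξ < d
  c0 : c 0 = a
  mono : StrictMono c
  cM : ∀ n, c n ∈ M
  cn : ∀ n, ¬ Lm (c n)
  clt : ∀ n, c n < b
  cof : ∀ x ∈ M, x < b → ∃ n, x < c n

/-- `p ∈ M` is an element of `S b` determined by its projections -/
def Dt (b : O) (M : Set O) (c : ℕ → O) (p : B) : Prop :=
  p ∈ F.S b ∧ F.cb p ∈ M ∧ ⨅ n, F.pr (c n) p ≤ p

/-- `(p, y)` is allowed on the part `q` at stage `c n` -/
structure OkS (M : Set O) (d : Ω) (c : ℕ → O) (n : ℕ) (p : B) (y : Finset ℕ) (q : B) : Prop where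
  mem : q ∈ F.S (c n)
  pr : q ≤ F.pr (c n) p
  gen : F.Gen (c n) M q
  cap : q ≤ F.Cap (c n) M d y

/-- the tasks which belong to `M` -/
def TIn (b : O) (M : Set O) : Tsk O Ω B → Prop
  | .g E => E ⊆ F.S b ∧ F.cS E ∈ M
  | .w k W _ => F.n k W ∈ M ∧ InS F.toDat b W ∧ Tr T W
  | .l c k V _ => c ∈ M ∧ ¬ Lm c ∧ c < b ∧ F.n k V ∈ M ∧ InS F.toDat c V

/-- the step from `(p, y)` to `(p', y')` on the part `q` fulfills the task, at stage `c n` -/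
def Done (M : Set O) (d : Ω) (c : ℕ → O) (n : ℕ) (p' : B) (y y' : Finset ℕ) (q : B) :
    Tsk O Ω B → Prop
  | .g E => (∃ e ∈ E, F.cb e ∈ M ∧ p' ≤ e) ∨ p' ≤ (sSup E)ᶜ
  | .w k W t => (∀ i, t i ∈ y) → (∃ ξ < d, p' ≤ (W ξ (T.res ξ d t))ᶜ) ∨
      ∃ V : Nm Ω B k, InS F.toDat (c n) V ∧ F.n k V ∈ M ∧ q ≤ Lg T F.toDat (c n) V ∧
        ∀ ξ s, q ⊓ V ξ s ⊓ p' ≤ W ξ s
  | .l g k V e => g ≤ c n → q ⊓ Lg T F.toDat g V = ⊥ ∨
      ∃ y0 : Fin k → ℕ, (∀ i, y0 i ∉ e) ∧ (∀ i, y0 i ∈ y') ∧ q ≤ V d y0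

/-- one step -/
def Stp (b : O) (M : Set O) (d : Ω) (c : ℕ → O) (n : ℕ) (p : B) (y : Finset ℕ) (q : B)
    (τ : Tsk O Ω B) : Prop :=
  ∃ (p' : B) (y' : Finset ℕ) (q' : B), F.Dt b M c p' ∧ q' ≠ ⊥ ∧ q' ≤ q ∧ p' ≤ p ∧ y ⊆ y' ∧
    F.OkS M d c n p' y' q' ∧ F.Done M d c n p' y y' q' τ

/-- the result of the fusion: `q`, the partitions `σ n` of `q` indexed by the states `(p, y)`, and the
tasks `τ n` -/
structure FusR (b : O) (M : Set O) (d : Ω) (c : ℕ → O) (τ : ℕ → Tsk O Ω B) (q : B)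
    (σ : ℕ → B → Finset ℕ → B) : Prop where
  ok : ∀ n p y, F.OkS M d c n p y (σ n p y)
  dt : ∀ n p y, σ n p y ≠ ⊥ → F.Dt b M c p
  dj : ∀ n p y p' y', (p ≠ p' ∨ y ≠ y') → σ n p y ⊓ σ n p' y' = ⊥
  le : ∀ n, q ≤ ⨆ p, ⨆ y, σ n p y
  mem : q ∈ F.S b
  tr : ∀ n p y p' y' e, e ≠ ⊥ → e ≤ σ n p y → e ≤ σ (n + 1) p' y' → ∃ e' ≤ e, e' ≠ ⊥ ∧ p' ≤ p ∧
    y ⊆ y' ∧ F.Done M d c n p' y y' e' (τ n)

/-- the tasks are repeated infinitely often -/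
def TEn (b : O) (M : Set O) (τ : ℕ → Tsk O Ω B) : Prop :=
  (∀ n, F.TIn b M (τ n)) ∧ ∀ t, F.TIn b M t → ∀ n, ∃ m, n ≤ m ∧ τ m = t

end Flt

end Pool.Agent.BPF
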