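import Pool.Agent.Lib.MP_11349d_lc.I.Cl
import Pool.Agent.Lib.MP_11349d_lc.I.Tsk

/-!
# Cof: cofinal sequences, enumeration of the tasks

PROOF. `exists_sc`: `Set.Ioi x` is nonempty, take its minimum. `sc_nl`: `Sc x z` : there is no element strictly between, so
`z` is not a limit. `ev_cof`: for club many `M`: countable (`ev_countable`), `a, b ∈ M`, and for `x ∈ M` (`ev_r1 inj_id`) the
successor of `x` is in `M`. Let `f : ℕ → O` have range `M ∩ Iio b` (countable, contains `a`). `c 0 = a`,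
`c (n+1)` = the successor of `max (c n) (f n)`: in `M`, not a limit, `< b` (as `b` is a limit there is an element strictly
between, the successor is at most that). `f n < c (n+1)`.
`ev_enu`: the set of all `t` with `TIn b M t` is countable: it is the union of the image of `{E | E ⊆ S b ∧ cS E ∈ M}`
(`F.cS_inj.mono`, all these `E` are small: `#E ≤ #(S b) < #O`; `Set.Countable.preimage_of_injOn` or `Set.MapsTo.countable_of_injOn`),
of the sets `{W : Nm Ω B k | n k W ∈ M}` (`F.n_inj k`) times the countable type `Fin k → ℕ`, and similarly for `l`; `k` ranges over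
`ℕ`. It is nonempty (`.g {⊤}`, `top_mem`, `ev_mem (F.cS {⊤})`). Enumerate it by `g : ℕ → Tsk`; `τ n = g (Nat.unpair n).1`.
-/

set_option autoImplicit false

namespace Pool.Agent.BPF

open Cardinal Pool.Agent.CSI

namespace Flt

variable {O Ω B : Type} [LinearOrder O] [WellFoundedLT O] [LinearOrder Ω] [WellFoundedLT Ω]
    [OrderBot O] [OrderBot Ω] [CompleteBooleanAlgebra B] {T : LTree Ω}
    (F : Flt (O := O) (B := B) T)

omit [WellFoundedLT Ω] [OrderBot Ω] [OrderBot O] in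
theorem exists_sc {O : Type} [LinearOrder O] [WellFoundedLT O] {x z : O} (h : x < z) :
    ∃ y, Sc x y ∧ y ≤ z := by
  have hne : (Set.Ioi x).Nonempty := ⟨z, h⟩
  have h1 : ∀ w, x < w → wellFounded_lt.min (Set.Ioi x) hne ≤ w := fun w hw =>
    not_lt.1 (wellFounded_lt.not_lt_min (Set.Ioi x) (x := w) hw)
  exact ⟨wellFounded_lt.min (Set.Ioi x) hne, ⟨wellFounded_lt.min_mem (Set.Ioi x) hne, h1⟩, h1 z h⟩

omit [WellFoundedLT Ω] [OrderBot Ω] [OrderBot O] in
theorem sc_nl {O : Type} [LinearOrder O] {x z : O} (h : Sc x z) : ¬ Lm z := by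
  intro hz
  obtain ⟨d, hd, hd'⟩ := hz.2 x h.1
  exact absurd (h.2 d hd) (not_le.2 hd')

theorem ev_cof {a b : O} (hb : Lm b) (ha : ¬ Lm a) (hab : a < b) : ∀ᶠ M in clubF O,
    ∀ d, (∀ ξ, F.o ξ ∈ M ↔ ξ < d) → ∃ c, F.Ctx a b M d c := by
  filter_upwards [ev_countable, ev_mem a, ev_mem b,
    ev_r1 (inj_id (O := O)) (fun y : O => y) (fun x y => Sc x y)] with M hcnt haM hbM hsc d hd
  have hDc : (M ∩ Set.Iio b).Countable := hcnt.mono Set.inter_subset_left
  obtain ⟨f, hf⟩ := hDc.exists_eq_range ⟨a, haM, hab⟩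
  have hfD : ∀ n, f n ∈ M ∩ Set.Iio b := fun n => by rw [hf]; exact ⟨n, rfl⟩
  have hs : ∀ x : {x // x ∈ M ∩ Set.Iio b}, ∃ y : {x // x ∈ M ∩ Set.Iio b}, Sc x.1 y.1 := by
    rintro ⟨x, hxM, hxb⟩
    obtain ⟨w, hxw, hwb⟩ := hb.2 x hxb
    obtain ⟨y, hy, hyw⟩ := exists_sc hxw
    obtain ⟨y', hy', hyM⟩ := hsc x hxM ⟨y, hy⟩
    exact ⟨⟨y', hyM, (hy'.2 y hy.1).trans_lt (hyw.trans_lt hwb)⟩, hy'⟩
  choose s hs using hs
  let g : ℕ → {x // x ∈ M ∩ Set.Iio b} := fun n =>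
    Nat.rec ⟨a, haM, hab⟩ (fun n x => s (max x ⟨f n, hfD n⟩)) n
  have hg : ∀ n, Sc (max (g n) ⟨f n, hfD n⟩).1 (g (n + 1)).1 := fun n => hs _
  have hle1 : ∀ n, (g n).1 ≤ (max (g n) ⟨f n, hfD n⟩).1 := fun n => le_max_left (g n) _
  have hle2 : ∀ n, f n ≤ (max (g n) ⟨f n, hfD n⟩).1 := fun n =>
    (le_max_right (g n) ⟨f n, hfD n⟩ : (⟨f n, hfD n⟩ : {x // x ∈ M ∩ Set.Iio b}) ≤ _)
  refine ⟨fun n => (g n).1, ⟨hb, hbM, hd, rfl, ?_, fun n => (g n).2.1, ?_, fun n => (g n).2.2, ?_⟩⟩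
  · exact strictMono_nat_of_lt_succ fun n => (hle1 n).trans_lt (hg n).1
  · intro n
    cases n with
    | zero => exact ha
    | succ n => exact sc_nl (hg n)
  · intro x hxM hxb
    have hx : x ∈ M ∩ Set.Iio b := ⟨hxM, hxb⟩
    rw [hf] at hx
    obtain ⟨n, rfl⟩ := hx
    exact ⟨n + 1, (hle2 n).trans_lt (hg n).1⟩

theorem ev_enu (b : O) : ∀ᶠ M in clubF O, ∃ τ : ℕ → Tsk O Ω B, F.TEn b M τ := by
  filter_upwards [ev_countable, ev_mem (F.cS {⊤})] with M hM htop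
  have hcE : {E : Set B | E ⊆ F.S b ∧ F.cS E ∈ M}.Countable := by
    refine Set.MapsTo.countable_of_injOn (f := F.cS) (t := M) (fun E hE => hE.2) ?_ hM
    refine F.cS_inj.mono fun E hE => ?_
    exact (Cardinal.mk_le_mk_of_subset hE.1).trans_lt (F.small b)
  have hcN : ∀ k, {W : Nm Ω B k | F.n k W ∈ M}.Countable := fun k => hM.preimage (F.n_inj k)
  have hcount : {t : Tsk O Ω B | F.TIn b M t}.Countable := by
    have hsub : {t : Tsk O Ω B | F.TIn b M t} ⊆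
        (Tsk.g '' {E : Set B | E ⊆ F.S b ∧ F.cS E ∈ M}) ∪
        ((⋃ k, (fun x : Nm Ω B k × (Fin k → ℕ) => Tsk.w k x.1 x.2) ''
          ({W : Nm Ω B k | F.n k W ∈ M} ×ˢ (Set.univ : Set (Fin k → ℕ)))) ∪
        (⋃ k, (fun x : O × Nm Ω B k × Finset ℕ => Tsk.l x.1 k x.2.1 x.2.2) ''
          (M ×ˢ ({W : Nm Ω B k | F.n k W ∈ M} ×ˢ (Set.univ : Set (Finset ℕ)))))) := by
      intro t ht
      cases t with
      | g E => exact Or.inl ⟨E, ht, rfl⟩
      | w k W t =>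
        exact Or.inr (Or.inl (Set.mem_iUnion.2 ⟨k, ⟨(W, t), ⟨ht.1, trivial⟩, rfl⟩⟩))
      | l c k V e =>
        exact Or.inr (Or.inr (Set.mem_iUnion.2 ⟨k, ⟨(c, V, e), ⟨ht.1, ht.2.2.2.1, trivial⟩, rfl⟩⟩))
    refine Set.Countable.mono hsub ?_
    refine (hcE.image _).union ((Set.countable_iUnion fun k => ?_).union
      (Set.countable_iUnion fun k => ?_))
    · exact ((hcN k).prod Set.countable_univ).image _
    · exact (hM.prod ((hcN k).prod Set.countable_univ)).image _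
  have hne : {t : Tsk O Ω B | F.TIn b M t}.Nonempty := by
    refine ⟨Tsk.g {⊤}, ?_, htop⟩
    rintro x rfl
    exact F.top_mem b
  obtain ⟨g, hg⟩ := hcount.exists_eq_range hne
  refine ⟨fun n => g (Nat.unpair n).1, fun n => ?_, fun t ht n => ?_⟩
  · have h1 : g (Nat.unpair n).1 ∈ {t : Tsk O Ω B | F.TIn b M t} := by
      rw [hg]
      exact ⟨_, rfl⟩
    exact h1
  · have h1 : t ∈ {t : Tsk O Ω B | F.TIn b M t} := ht
    rw [hg] at h1
    obtain ⟨i, rfl⟩ := h1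
    refine ⟨Nat.pair i n, Nat.right_le_pair i n, ?_⟩
    show g (Nat.unpair (Nat.pair i n)).1 = g i
    rw [Nat.unpair_pair]

end Flt

end Pool.Agent.BPF
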