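import Pool.Agent.Lib.MP_11349d_lc.I.Mn

/-!
# Cp0: the empty set is captured; omega-sequences cofinal in M

PROOF. `perp_top`: let `s = ⨆ C, ⨆ _ : ∀ ξ n, C ξ n ∈ S a, Perp a C`. If `a = ⊥`: take `C = fun _ _ => ⊤`: `Perp ⊥ C = ⊤` (no `c < ⊥`; the
other parts are `⊤`; `Ω` is not needed to be nonempty). If `⊥ < a`: `F.persist` with `⊥`, `a`, `k = 0`, `V = fun _ _ => ⊤` (`ih_all`
gives `IH ⊥ a`, the hypothesis `h0` is vacuous): `Lg ⊥ V ≤ ⨆ V', ⨆ _, Lg a V' ⊓ Sb V' V ≤ s`, because `Lg a V' ≤ ⨆ C, ⨆ _, Perp a C`. `Lg ⊥ V = ⊤`: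
`Prn T V = ⊤` and `C = fun _ _ => ⊤` has `Perp ⊥ C = ⊤`, `SbP V C = ⊤` (for `Prn`: `⨆ s, ⊤ = ⊤` as `Fin 0 → ℕ` is nonempty; the last part uses
that `T.res ξ η` is surjective: `T.r_surj`).
`ev_cap0`: fix `a`; `f C = Perp a C` if `∀ ξ n, C ξ n ∈ S a`, else `⊥` (classical); `f C ∈ S a` (`perp_mem`). `F.ev_iSup F.ct f`:
`q = q ⊓ ⨆ f ≤ ⨆ C, ⨆ _ : ct C ∈ M, f C ≤ Cap a M d ∅`.
`ev_cofT`: as `ev_cof` in I/Cof, with all of `M` instead of `M ∩ b`; every `x : O` has a successor because `O` has no largest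
element (`IsKap.bdd` for the singleton `{x}`).
-/

set_option autoImplicit false

namespace Pool.Agent.BPF

open Cardinal Pool.Agent.CSI

namespace Flt

variable {O Ω B : Type} [LinearOrder O] [WellFoundedLT O] [LinearOrder Ω] [WellFoundedLT Ω]
    [OrderBot O] [OrderBot Ω] [CompleteBooleanAlgebra B] {T : LTree Ω}
    (F : Flt (O := O) (B := B) T)

private theorem cp0_perp : Perp T F.toDat ⊥ (fun _ _ => ⊤ : Ω → ℕ → B) = ⊤ := by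
  unfold Perp
  have h1 : (⨅ c, ⨅ _ : Lm c ∧ c < (⊥ : O), ⨆ ξ, ⨅ n, ((⊤ : B) ⊓ F.U c ξ n)ᶜ) = ⊤ := by
    simp
  rw [h1]
  simp

omit [WellFoundedLT Ω] [OrderBot Ω] in
private theorem cp0_res (T : LTree Ω) {k : ℕ} {ξ η : Ω} (h : ξ ≤ η) (s : Fin k → ℕ) :
    ∃ s', T.res ξ η s' = s := by
  choose s' hs' using fun i => T.r_surj ξ η h (s i)
  exact ⟨s', funext hs'⟩

omit [WellFoundedLT Ω] [OrderBot Ω] in
private theorem cp0_prn {k : ℕ} : Prn T (fun _ _ => ⊤ : Nm Ω B k) = ⊤ := by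
  unfold Prn
  have h1 : (⨅ ξ : Ω, ⨆ _ : Fin k → ℕ, (⊤ : B)) = ⊤ := by
    simp
  have h2 : (⨅ ξ : Ω, ⨅ η : Ω, ⨅ _ : ξ ≤ η, ⨅ _ : Fin k → ℕ, ((⊤ : B) ⇨ ⊤)) = ⊤ := by
    simp
  have h3 : (⨅ ξ : Ω, ⨅ η : Ω, ⨅ _ : ξ ≤ η, ⨅ s : Fin k → ℕ,
      ((⊤ : B) ⇨ ⨆ s' : Fin k → ℕ, ⨆ _ : T.res ξ η s' = s, ⊤)) = ⊤ := by
    refine le_antisymm le_top (le_iInf fun ξ => le_iInf fun η => le_iInf fun h =>
      le_iInf fun s => ?_)
    obtain ⟨s', hs'⟩ := cp0_res T h s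
    rw [le_himp_iff, inf_idem]
    exact le_iSup₂_of_le s' hs' le_rfl
  rw [h1, h2, h3, inf_idem, inf_idem]

theorem perp_top (hΩ : IsOm1 Ω) (hO : IsKap O) {a : O} (ha : ¬ Lm a) :
    ⨆ C : Ω → ℕ → B, ⨆ _ : ∀ ξ n, C ξ n ∈ F.S a, Perp T F.toDat a C = ⊤ := by
  have key : ⨆ C : Ω → ℕ → B, ⨆ _ : ∀ ξ n, C ξ n ∈ F.S ⊥, Perp T F.toDat ⊥ C = ⊤ := by
    refine le_antisymm le_top ?_
    refine le_iSup₂_of_le (fun _ _ => ⊤) (fun _ _ => F.top_mem _) ?_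
    rw [F.cp0_perp]
  rcases eq_or_ne a ⊥ with rfl | hne
  · exact key
  have hlt : (⊥ : O) < a := bot_lt_iff_ne_bot.2 hne
  have hbot : ¬ Lm (⊥ : O) := by
    intro h
    obtain ⟨x, hx⟩ := h.1
    exact not_lt_bot hx
  have h1 := F.persist hΩ hO hbot ha hlt (fun h => absurd h (lt_irrefl _))
    (F.ih_all hΩ hO ⊥ a hbot hlt) 0 (fun _ _ => ⊤) (fun _ _ => F.top_mem _)
  refine le_antisymm le_top ?_
  calc (⊤ : B) ≤ Lg T F.toDat ⊥ (fun _ _ => ⊤ : Nm Ω B 0) := by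
        refine le_inf ?_ ?_
        · rw [cp0_prn]
        · refine le_iSup₂_of_le (fun _ _ => ⊤) (fun _ _ => F.top_mem _) ?_
          rw [F.cp0_perp]
          refine le_inf le_rfl ?_
          unfold SbP
          simp
    _ ≤ _ := h1
    _ ≤ _ := by
        refine iSup_le fun V' => iSup_le fun hV' => ?_
        refine inf_le_left.trans (inf_le_right.trans ?_)
        exact iSup_mono fun C => iSup_mono fun hC => inf_le_left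

theorem ev_cap0 (hΩ : IsOm1 Ω) (hO : IsKap O) {a : O} (ha : ¬ Lm a) : ∀ᶠ M in clubF O,
    ∀ d q, F.Gen a M q → q ≤ F.Cap a M d ∅ := by
  classical
  obtain ⟨f, hf⟩ : ∃ f : (Ω → ℕ → B) → B, f = fun C =>
    if ∀ ξ n, C ξ n ∈ F.S a then Perp T F.toDat a C else ⊥ := ⟨_, rfl⟩
  have hfS : ∀ C, f C ∈ F.S a := by
    intro C
    rw [hf]
    dsimp only
    split_ifs with h
    · exact F.perp_mem h
    · exact F.bot_mem a
  have htop : ⨆ C, f C = ⊤ := by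
    refine le_antisymm le_top ?_
    rw [← F.perp_top hΩ hO ha]
    refine iSup_le fun C => iSup_le fun hC => le_iSup_of_le C ?_
    rw [hf]
    dsimp only
    rw [if_pos hC]
  filter_upwards [F.ev_iSup F.ct f] with M hM d q hq
  have h1 := hM a hfS q hq
  rw [htop, inf_top_eq] at h1
  refine h1.trans ?_
  refine iSup_le fun C => iSup_le fun hC => ?_
  by_cases h : ∀ ξ n, C ξ n ∈ F.S a
  · refine le_iSup₂_of_le C ⟨hC, h⟩ ?_
    rw [hf]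
    dsimp only
    rw [if_pos h]
    refine le_inf le_rfl ?_
    simp
  · rw [hf]
    dsimp only
    rw [if_neg h]
    exact bot_le

theorem ev_cofT (hO : IsKap O) {a : O} (ha : ¬ Lm a) : ∀ᶠ M in clubF O, ∃ c : ℕ → O, c 0 = a ∧
    StrictMono c ∧ (∀ n, c n ∈ M ∧ ¬ Lm (c n)) ∧ ∀ x ∈ M, ∃ n, x < c n := by
  have hsc : ∀ x : O, ∃ y, Sc x y := by
    intro x
    obtain ⟨b, hb⟩ := hO.bdd {x} (by
      rw [mk_singleton]
      exact one_lt_aleph0.trans (aleph0_lt_aleph_one.trans hO.om1))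
    obtain ⟨y, hy, -⟩ := exists_sc (hb x rfl)
    exact ⟨y, hy⟩
  filter_upwards [ev_countable, ev_mem a,
    ev_r1 (inj_id (O := O)) (fun y : O => y) (fun x y => Sc x y)] with M hcnt haM hM
  obtain ⟨f, hf⟩ := hcnt.exists_eq_range ⟨a, haM⟩
  have hfD : ∀ n, f n ∈ M := fun n => by rw [hf]; exact ⟨n, rfl⟩
  have hs : ∀ x : {x // x ∈ M}, ∃ y : {x // x ∈ M}, Sc x.1 y.1 := by
    rintro ⟨x, hxM⟩
    obtain ⟨y', hy', hyM⟩ := hM x hxM (hsc x)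
    exact ⟨⟨y', hyM⟩, hy'⟩
  choose s hs using hs
  let g : ℕ → {x // x ∈ M} := fun n =>
    Nat.rec ⟨a, haM⟩ (fun n x => s (max x ⟨f n, hfD n⟩)) n
  have hg : ∀ n, Sc (max (g n) ⟨f n, hfD n⟩).1 (g (n + 1)).1 := fun n => hs _
  have hle1 : ∀ n, (g n).1 ≤ (max (g n) ⟨f n, hfD n⟩).1 := fun n => le_max_left (g n) _
  have hle2 : ∀ n, f n ≤ (max (g n) ⟨f n, hfD n⟩).1 := fun n =>
    (le_max_right (g n) ⟨f n, hfD n⟩ : (⟨f n, hfD n⟩ : {x // x ∈ M}) ≤ _)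
  refine ⟨fun n => (g n).1, rfl, ?_, fun n => ⟨(g n).2, ?_⟩, ?_⟩
  · exact strictMono_nat_of_lt_succ fun n => (hle1 n).trans_lt (hg n).1
  · cases n with
    | zero => exact ha
    | succ n => exact sc_nl (hg n)
  · intro x hxM
    rw [hf] at hxM
    obtain ⟨n, rfl⟩ := hxM
    exact ⟨n + 1, (hle2 n).trans_lt (hg n).1⟩

end Flt

end Pool.Agent.BPF
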