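import Pool.Agent.Lib.MP_11349d_lc.Gen

/-!
# Dsj: disjoint refinements in `S a`

PROOF. Let `r = WellOrderingRel` on `ι`, `g i = f i ⊓ (⨆ j, ⨆ _ : r j i, f j)ᶜ`. It is in `S a` (`F.inf_mem`,
`F.compl_iff`, `F.iSup_mem`), below `f i`; for `r i j`: `g i ⊓ g j ≤ f i ⊓ (f i)ᶜ = ⊥`. Sup: `≤` clear; for `≥` show
`f i ≤ ⨆ j, g j` by well-founded induction on `i`: with `s = ⨆ j, ⨆ _ : r j i, f j` one has `s ≤ ⨆ g` by induction and
`f i = (f i ⊓ sᶜ) ⊔ (f i ⊓ s) ≤ g i ⊔ s ≤ ⨆ g`.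
-/

set_option autoImplicit false

namespace Pool.Agent.BPF

open Cardinal Pool.Agent.CSI

namespace Flt

variable {O Ω B : Type} [LinearOrder O] [WellFoundedLT O] [LinearOrder Ω] [WellFoundedLT Ω]
    [OrderBot O] [OrderBot Ω] [CompleteBooleanAlgebra B] {T : LTree Ω}
    (F : Flt (O := O) (B := B) T)

theorem disjointify {ι : Type} {a : O} (f : ι → B) (hf : ∀ i, f i ∈ F.S a) :
    ∃ g : ι → B, (∀ i, g i ∈ F.S a) ∧ (∀ i, g i ≤ f i) ∧ (∀ i j, i ≠ j → g i ⊓ g j = ⊥) ∧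
      ⨆ i, g i = ⨆ i, f i := by
  classical
  let r : ι → ι → Prop := WellOrderingRel
  let s : ι → B := fun i => ⨆ j, ⨆ _ : r j i, f j
  have hs : ∀ i, s i ∈ F.S a := fun i => F.iSup_mem fun j => F.iSup_mem fun _ => hf j
  have h1 : ∀ i j, r i j → (f i ⊓ (s i)ᶜ) ⊓ (f j ⊓ (s j)ᶜ) = ⊥ := by
    intro i j hij
    rw [← le_bot_iff]
    calc (f i ⊓ (s i)ᶜ) ⊓ (f j ⊓ (s j)ᶜ) ≤ s j ⊓ (s j)ᶜ :=
          inf_le_inf (inf_le_left.trans (le_iSup₂_of_le i hij le_rfl)) inf_le_right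
      _ = ⊥ := inf_compl_eq_bot
  refine ⟨fun i => f i ⊓ (s i)ᶜ, fun i => F.inf_mem (hf i) (F.compl_iff.2 (hs i)),
    fun i => inf_le_left, fun i j hij => ?_, le_antisymm (iSup_mono fun i => inf_le_left) ?_⟩
  · rcases trichotomous_of r i j with h | h | h
    · exact h1 i j h
    · exact absurd h hij
    · rw [inf_comm]
      exact h1 j i h
  · refine iSup_le fun i => ?_
    induction i using (WellOrderingRel.isWellOrder (α := ι)).wf.induction with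
    | _ i ih =>
      have h2 : s i ≤ ⨆ j, f j ⊓ (s j)ᶜ := iSup_le fun j => iSup_le fun hj => ih j hj
      calc f i = (f i ⊓ (s i)ᶜ) ⊔ (f i ⊓ s i) := by rw [← inf_sup_left, compl_sup_eq_top, inf_top_eq]
        _ ≤ ⨆ j, f j ⊓ (s j)ᶜ :=
          sup_le (le_iSup (fun j => f j ⊓ (s j)ᶜ) i) (inf_le_right.trans h2)

end Flt

end Pool.Agent.BPF
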