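import Pool.Agent.Lib.MP_11349d_lc.Gen

/-!
# Mb: membership in S a

PROOF. `U_memI`: `F.U_def`, `F.iSup_mem`, `F.j_mem` at the successor `a'` of `a` (it exists: the set `Set.Ioi a` is nonempty
since `a < c`; take its minimum, `WellFounded.min`), `F.mono` (`a' ≤ c`). The others: unfold the definitions and use
`F.iSup_mem`, `F.iInf_mem`, `F.inf_mem`, `F.himp_mem`, `F.compl_mem`, `F.U_memI`; suprema over propositions are `iSup` over
a `Prop` index (`F.iSup_mem` is stated for `Sort*`).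
-/

set_option autoImplicit false

namespace Pool.Agent.BPF

open Cardinal Pool.Agent.CSI

namespace Flt

variable {O Ω B : Type} [LinearOrder O] [WellFoundedLT O] [LinearOrder Ω] [WellFoundedLT Ω]
    [OrderBot O] [OrderBot Ω] [CompleteBooleanAlgebra B] {T : LTree Ω}
    (F : Flt (O := O) (B := B) T)

theorem U_memI {a c : O} (ha : Lm a) (hac : a < c) (ξ : Ω) (n : ℕ) : F.U a ξ n ∈ F.S c := by
  have hne : (Set.Ioi a).Nonempty := ⟨c, hac⟩
  have hwf : WellFounded ((· < ·) : O → O → Prop) := wellFounded_lt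
  have h1 : a < hwf.min (Set.Ioi a) hne := hwf.min_mem _ hne
  have h2 : ∀ d, a < d → hwf.min (Set.Ioi a) hne ≤ d := fun d hd =>
    not_lt.1 (hwf.not_lt_min (Set.Ioi a) hd)
  have hsc : Sc a (hwf.min (Set.Ioi a) hne) := ⟨h1, h2⟩
  apply F.mono _ _ (h2 c hac)
  rw [F.U_def a ξ n ha]
  exact F.iSup_mem fun p => F.iSup_mem fun hp => F.j_mem a _ p ha hsc hp.1

theorem prn_mem {a : O} {k : ℕ} {W : Nm Ω B k} (h : InS F.toDat a W) : Prn T W ∈ F.S a := by
  unfold Prn
  refine F.inf_mem (F.inf_mem ?_ ?_) ?_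
  · exact F.iInf_mem fun ξ => F.iSup_mem fun s => h ξ s
  · exact F.iInf_mem fun ξ => F.iInf_mem fun η => F.iInf_mem fun _ => F.iInf_mem fun s =>
      F.himp_mem (h _ _) (h _ _)
  · exact F.iInf_mem fun ξ => F.iInf_mem fun η => F.iInf_mem fun _ => F.iInf_mem fun s =>
      F.himp_mem (h _ _) (F.iSup_mem fun s' => F.iSup_mem fun _ => h _ _)

theorem sb_mem {a : O} {k : ℕ} {V W : Nm Ω B k} (hV : InS F.toDat a V) (hW : InS F.toDat a W) :
    Sb V W ∈ F.S a :=
  F.iInf_mem fun ξ => F.iInf_mem fun s => F.himp_mem (hV ξ s) (hW ξ s)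

theorem perp_mem {a : O} {C : Ω → ℕ → B} (h : ∀ ξ n, C ξ n ∈ F.S a) : Perp T F.toDat a C ∈ F.S a := by
  unfold Perp
  refine F.inf_mem (F.inf_mem ?_ ?_) ?_
  · exact F.iInf_mem fun ξ => F.iSup_mem fun n => h ξ n
  · exact F.iInf_mem fun ξ => F.iInf_mem fun η => F.iInf_mem fun _ => F.iInf_mem fun n =>
      F.himp_mem (h _ _) (h _ _)
  · exact F.iInf_mem fun c => F.iInf_mem fun hc => F.iSup_mem fun ξ => F.iInf_mem fun n =>
      F.compl_mem _ _ (F.inf_mem (h _ _) (F.U_memI hc.1 hc.2 _ _))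

theorem lg_mem {a : O} {k : ℕ} {W : Nm Ω B k} (h : InS F.toDat a W) : Lg T F.toDat a W ∈ F.S a := by
  unfold Lg SbP
  refine F.inf_mem (F.prn_mem h) ?_
  exact F.iSup_mem fun C => F.iSup_mem fun hC => F.inf_mem (F.perp_mem hC)
    (F.iInf_mem fun ξ => F.iInf_mem fun s => F.himp_mem (h _ _) (F.iInf_mem fun i => hC _ _))

theorem cap_mem (a : O) (M : Set O) (d : Ω) (y : Finset ℕ) : F.Cap a M d y ∈ F.S a := by
  unfold Cap
  exact F.iSup_mem fun C => F.iSup_mem fun hC => F.inf_mem (F.perp_mem hC.2)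
    (F.iInf_mem fun n => F.iInf_mem fun _ => hC.2 _ _)

theorem gen_bot (a : O) (M : Set O) : F.Gen a M ⊥ := by
  intro E _ _
  rw [bot_inf_eq]
  exact bot_le

theorem inS_mono {a c : O} (h : a ≤ c) {k : ℕ} {W : Nm Ω B k} (hW : InS F.toDat a W) :
    InS F.toDat c W :=
  fun ξ s => F.mono a c h (hW ξ s)

end Flt

end Pool.Agent.BPF
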