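import Pool.Agent.Lib.MP_11349d_lc.I.Cl
import Pool.Agent.Lib.MP_11349d_lc.I.Tsk
import Pool.Agent.Lib.MP_11349d_lc.I.Mb

/-!
# SL: the step for the task l

PROOF. For all `g, c' : O` with `¬ Lm g`, `¬ Lm c'`, `g ≤ c'`, `c' < b` the hypothesis `hP` of `F.ev_T2` holds: if `g < c'` it is
`F.persist` (`hI` gives `F.IH ⊥ g` if `⊥ < g`, and `F.IH g c'`; `¬ Lm ⊥` is clear); if `g = c'` take `V' = V`, `Sb V V = ⊤`. By
`ev_nrm2 inj_id inj_id` for club many `M` the conclusion of `ev_T2` holds for all such pairs `g, c' ∈ M`. Now let the task be `l g k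
V e`. If `g ≤ c n` fails, `Done` is vacuous; if `q ⊓ Lg g V = ⊥`, `Done` holds; in both cases take `p' = p, y' = y, q' = q`.
Otherwise `ev_T2` at `(g, c n)` with `y0 = y`: `⊥ ≠ q ⊓ Lg g V ≤ ⨆ y1, ⨆ _ : ∀ i, y1 i ∉ e, V d y1 ⊓ Cap (c n) M d (y ∪ univ.image y1)` (as
`q ≤ Cap (c n) M d y`). `ne_of_iSup`: `y1` with `q' = q ⊓ Lg g V ⊓ (V d y1 ⊓ Cap ..) ≠ ⊥`. `p' = p`, `y' = y ∪ univ.image y1`. `mem`: `lg_mem`
and `V d y1 ∈ S g ⊆ S (c n)`, `cap_mem`.
-/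

set_option autoImplicit false

namespace Pool.Agent.BPF

open Cardinal Pool.Agent.CSI

namespace Flt

variable {O Ω B : Type} [LinearOrder O] [WellFoundedLT O] [LinearOrder Ω] [WellFoundedLT Ω]
    [OrderBot O] [OrderBot Ω] [CompleteBooleanAlgebra B] {T : LTree Ω}
    (F : Flt (O := O) (B := B) T)

theorem step_l (hΩ : IsOm1 Ω) (hO : IsKap O) {a b : O} (hb : Lm b)
    (hI : ∀ x z, ¬ Lm x → x < z → z < b → F.IH x z) : ∀ᶠ M in clubF O, ∀ d c,
    F.Ctx a b M d c → ∀ n p y q, F.Dt b M c p → F.OkS M d c n p y q → q ≠ ⊥ → ∀ g k V e,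
      F.TIn b M (.l g k V e) → F.Stp b M d c n p y q (.l g k V e) := by
  have hbot : ¬ Lm (⊥ : O) := fun h => by
    obtain ⟨x, hx⟩ := h.1
    exact not_lt_bot hx
  have key : ∀ g c' : O, ∀ᶠ M in clubF O, (¬ Lm g ∧ ¬ Lm c' ∧ g ≤ c' ∧ c' < b) →
      ∀ d, (∀ ξ, F.o ξ ∈ M ↔ ξ < d) →
      ∀ (k : ℕ) (V : Nm Ω B k), F.n k V ∈ M → InS F.toDat g V → ∀ q, F.Gen c' M q →
        ∀ y0 e : Finset ℕ, q ⊓ Lg T F.toDat g V ⊓ F.Cap c' M d y0 ≤
          ⨆ y : Fin k → ℕ, ⨆ _ : ∀ i, y i ∉ e,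
            V d y ⊓ F.Cap c' M d (y0 ∪ Finset.univ.image y) := by
    intro g c'
    by_cases h : ¬ Lm g ∧ ¬ Lm c' ∧ g ≤ c' ∧ c' < b
    · obtain ⟨h1, h2, h3, h4⟩ := h
      have hP : ∀ (k : ℕ) (V : Nm Ω B k), InS F.toDat g V →
          Lg T F.toDat g V ≤
            ⨆ V' : Nm Ω B k, ⨆ _ : InS F.toDat c' V', Lg T F.toDat c' V' ⊓ Sb V' V := by
        intro k V hV
        rcases h3.lt_or_eq with hlt | heq
        · exact F.persist hΩ hO h1 h2 hlt (fun h0 => hI ⊥ g hbot h0 (hlt.trans h4))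
            (hI g c' h1 hlt h4) k V hV
        · subst heq
          refine le_iSup₂_of_le V hV (le_inf le_rfl ?_)
          unfold Sb
          refine le_iInf fun ξ => le_iInf fun s => ?_
          rw [himp_self]
          exact le_top
      filter_upwards [F.ev_T2 hΩ hO h1 h2 h3 hP] with M hM _
      exact hM
    · filter_upwards with M h'
      exact absurd h' h
  filter_upwards [ev_nrm2 inj_id inj_id key] with M hM d c hC n p y q hD hQ hq g k V e hT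
  obtain ⟨t1, t2, t3, t4, t5⟩ := hT
  by_cases h1 : g ≤ c n
  · by_cases h2 : q ⊓ Lg T F.toDat g V = ⊥
    · exact ⟨p, y, q, hD, hq, le_rfl, le_rfl, Finset.Subset.refl _, hQ, fun _ => Or.inl h2⟩
    · have h3 := hM g t1 (c n) (hC.cM n) ⟨t2, hC.cn n, h1, hC.clt n⟩ d hC.hd k V t4 t5 q hQ.gen y e
      have h4 : q ⊓ Lg T F.toDat g V ≤ q ⊓ Lg T F.toDat g V ⊓ F.Cap (c n) M d y :=
        le_inf le_rfl (inf_le_left.trans hQ.cap)
      obtain ⟨y1, hy1, hne⟩ := ne_of_iSup h2 (h4.trans h3)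
      have h5 : q ⊓ Lg T F.toDat g V ⊓
          (V d y1 ⊓ F.Cap (c n) M d (y ∪ Finset.univ.image y1)) ≤ q :=
        inf_le_left.trans inf_le_left
      refine ⟨p, y ∪ Finset.univ.image y1, q ⊓ Lg T F.toDat g V ⊓
          (V d y1 ⊓ F.Cap (c n) M d (y ∪ Finset.univ.image y1)), hD, hne, h5, le_rfl,
        Finset.subset_union_left, ⟨?_, h5.trans hQ.pr, F.gen_mono h5 hQ.gen,
          inf_le_right.trans inf_le_right⟩, ?_⟩
      · exact F.inf_mem (F.inf_mem hQ.mem (F.mono g (c n) h1 (F.lg_mem t5)))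
          (F.inf_mem (F.mono g (c n) h1 (t5 d y1)) (F.cap_mem _ _ _ _))
      · intro _
        refine Or.inr ⟨y1, hy1, fun i => ?_, inf_le_right.trans inf_le_left⟩
        exact Finset.mem_union_right _ (Finset.mem_image_of_mem _ (Finset.mem_univ i))
  · exact ⟨p, y, q, hD, hq, le_rfl, le_rfl, Finset.Subset.refl _, hQ, fun h => absurd h h1⟩

end Flt

end Pool.Agent.BPF
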