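import Pool.Agent.Lib.MP_11349d_lc.I.Rfn
import Pool.Agent.Lib.MP_11349d_lc.I.Mb

/-!
# SW: the step for the task w

PROOF. For `g : O`, `p : B`, `W` put `W1 ξ s = (pr g (p ⊓ (W ξ s)ᶜ))ᶜ` (`g = c n`). Closure (`ev_all` for `k` and tuples, `ev_f3 inj_id
F.cb_inj (F.n_inj k) (F.n k)`): `F.n k W1 ∈ M` for `g, p, W ∈ M`; for a tuple `s` and `ξ` with `F.o ξ ∈ M`: `F.cb (p ⊓ (W ξ s)ᶜ) ∈ M`;
`F.cS {⊤} ∈ M`. Let `W` be the tree of the task, `t` the tuple. If not all `t i ∈ y`, `Done` is vacuous: use `step_g`-like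
trivial step `p' = p, y' = y, q' = q`. Assume `∀ i, t i ∈ y`.
CASE A: there is `ξ < d` with `q ⊓ (W1 ξ s)ᶜ ≠ ⊥`, `s = T.res ξ d t`. `(W1 ξ s)ᶜ = pr (c n) x`, `x = p ⊓ (W ξ s)ᶜ`, `cb x ∈ M`, `x ∈ S b`.
`ev_refine` (with `E = {⊤}`) gives `p' ≤ x` with `q' = q ⊓ pr (c n) p' ≠ ⊥`. `y' = y`. `Done`: left alternative with `ξ`.
CASE B: `q ≤ W1 ξ (T.res ξ d t)` for all `ξ < d`. `Tr T W1` (antitone in the right way: for `ξ ≤ η`, `W η s ≤ W ξ (res s)`, so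
`pr (p ⊓ (W ξ (res s))ᶜ) ≤ pr (p ⊓ (W η s)ᶜ)`), `InS (c n) W1`. `F.ev_T1` with `W1`, `a = c n`, `y`, `t`: `q ≤ ⨆ V, ⨆ _ : n k V ∈ M ∧ InS (c n)
V, Lg (c n) V ⊓ Sb V W1`; `ne_of_iSup`: `V` with `q' = q ⊓ (Lg (c n) V ⊓ Sb V W1) ≠ ⊥`. `p' = p`, `y' = y`. `mem`: `lg_mem`, `sb_mem`.
`Done`: right alternative; `q' ⊓ V ξ s ≤ W1 ξ s` (from `Sb`, `iInf_le`, `le_himp_iff`) and `W1 ξ s ⊓ p ≤ W ξ s` by `F.pr_compl_le`
(with `c = W1 ξ s`, `le_rfl`).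
-/

set_option autoImplicit false

namespace Pool.Agent.BPF

open Cardinal Pool.Agent.CSI

namespace Flt

variable {O Ω B : Type} [LinearOrder O] [WellFoundedLT O] [LinearOrder Ω] [WellFoundedLT Ω]
    [OrderBot O] [OrderBot Ω] [CompleteBooleanAlgebra B] {T : LTree Ω}
    (F : Flt (O := O) (B := B) T)

theorem step_w (hΩ : IsOm1 Ω) (hO : IsKap O) {a b : O} (hb : Lm b) : ∀ᶠ M in clubF O, ∀ d c,
    F.Ctx a b M d c → ∀ n p y q, F.Dt b M c p → F.OkS M d c n p y q → q ≠ ⊥ → ∀ k W t,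
      F.TIn b M (.w k W t) → F.Stp b M d c n p y q (.w k W t) := by
  filter_upwards [ev_all (O := O) fun k : ℕ => ev_f3 inj_id F.cb_inj (F.n_inj k) (F.n k)
      (fun (g : O) (p : B) (W : Nm Ω B k) => (fun ξ s => (F.pr g (p ⊓ (W ξ s)ᶜ))ᶜ : Nm Ω B k)),
    ev_all (O := O) fun k : ℕ => ev_all (O := O) fun s : Fin k → ℕ =>
      ev_f3 F.cb_inj (F.n_inj k) F.o_inj F.cb
      (fun (p : B) (W : Nm Ω B k) (ξ : Ω) => p ⊓ (W ξ s)ᶜ),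
    ev_mem (F.cS {⊤}), F.ev_T1 hΩ hO, F.ev_refine hb]
    with M m1 m2 m3 m4 m5 d c hC n p y q hD hQ hq k W t hT
  obtain ⟨t1, t2, t3⟩ := hT
  by_cases hty : ∀ i, t i ∈ y
  · by_cases hA : ∃ ξ, ξ < d ∧ q ⊓ F.pr (c n) (p ⊓ (W ξ (T.res ξ d t))ᶜ) ≠ ⊥
    · obtain ⟨ξ, hξ, hne⟩ := hA
      have hx : p ⊓ (W ξ (T.res ξ d t))ᶜ ∈ F.S b := F.inf_mem hD.1 (F.compl_iff.2 (t2 _ _))
      have hxM : F.cb (p ⊓ (W ξ (T.res ξ d t))ᶜ) ∈ M :=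
        m2 k (T.res ξ d t) p hD.2.1 W t1 ξ ((hC.hd ξ).2 hξ)
      obtain ⟨p', hp1, hp2, hp3, -, hp5, hp6⟩ := m5 (c n) (hC.cM n) (hC.clt n) _ hx hxM {⊤}
        (by rintro z rfl; exact F.top_mem b) m3 q hQ.gen hne
      refine ⟨p', y, q ⊓ F.pr (c n) p', F.dt_of hC hp1 hp2 hp6, hp5, inf_le_left,
        hp3.trans inf_le_left, Finset.Subset.refl _,
        ⟨F.inf_mem hQ.mem (F.pr_mem _ _), inf_le_right, F.gen_mono inf_le_left hQ.gen,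
          inf_le_left.trans hQ.cap⟩, fun _ => Or.inl ⟨ξ, hξ, hp3.trans inf_le_right⟩⟩
    · push Not at hA
      have hq1 : ∀ ξ, ξ < d → q ≤ (F.pr (c n) (p ⊓ (W ξ (T.res ξ d t))ᶜ))ᶜ := fun ξ hξ =>
        le_compl_iff_disjoint_right.2 (disjoint_iff.2 (hA ξ hξ))
      have hTr : Tr T (fun ξ s => (F.pr (c n) (p ⊓ (W ξ s)ᶜ))ᶜ : Nm Ω B k) := by
        intro ξ η s h
        exact compl_le_compl (F.pr_mono (inf_le_inf_left _ (compl_le_compl (t3 ξ η s h))))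
      have hIn : InS F.toDat (c n) (fun ξ s => (F.pr (c n) (p ⊓ (W ξ s)ᶜ))ᶜ : Nm Ω B k) :=
        fun ξ s => F.compl_iff.2 (F.pr_mem _ _)
      have h1 := m4 d hC.hd k _ (m1 k (c n) (hC.cM n) p hD.2.1 W t1) hTr (c n) hIn q hQ.gen y t hty
      have h2 : q ≤ q ⊓ (⨅ ξ, ⨅ _ : ξ < d, (F.pr (c n) (p ⊓ (W ξ (T.res ξ d t))ᶜ))ᶜ) ⊓
          F.Cap (c n) M d y :=
        le_inf (le_inf le_rfl (le_iInf fun ξ => le_iInf fun hξ => hq1 ξ hξ)) hQ.cap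
      obtain ⟨V, ⟨hV1, hV2⟩, hne⟩ := ne_of_iSup hq (h2.trans h1)
      refine ⟨p, y, q ⊓ (Lg T F.toDat (c n) V ⊓
          Sb V (fun ξ s => (F.pr (c n) (p ⊓ (W ξ s)ᶜ))ᶜ : Nm Ω B k)), hD, hne, inf_le_left,
        le_rfl, Finset.Subset.refl _,
        ⟨F.inf_mem hQ.mem (F.inf_mem (F.lg_mem hV2) (F.sb_mem hV2 hIn)), inf_le_left.trans hQ.pr,
          F.gen_mono inf_le_left hQ.gen, inf_le_left.trans hQ.cap⟩, fun _ => Or.inr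
          ⟨V, hV2, hV1, inf_le_right.trans inf_le_left, fun ξ s => ?_⟩⟩
      have h3 : q ⊓ (Lg T F.toDat (c n) V ⊓
          Sb V (fun ξ s => (F.pr (c n) (p ⊓ (W ξ s)ᶜ))ᶜ : Nm Ω B k)) ≤
          V ξ s ⇨ (F.pr (c n) (p ⊓ (W ξ s)ᶜ))ᶜ := by
        refine inf_le_right.trans (inf_le_right.trans ?_)
        unfold Sb
        exact (iInf_le _ ξ).trans (iInf_le _ s)
      have h4 := le_himp_iff.1 h3
      have h5 : (F.pr (c n) (p ⊓ (W ξ s)ᶜ))ᶜ ⊓ p ≤ W ξ s :=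
        (F.pr_compl_le (F.compl_iff.2 (F.pr_mem _ _))).1 le_rfl
      exact (inf_le_inf_right _ h4).trans h5
  · exact ⟨p, y, q, hD, hq, le_rfl, le_rfl, Finset.Subset.refl _, hQ, fun h => absurd h hty⟩

end Flt

end Pool.Agent.BPF
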