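import Pool.Agent.Lib.MP_11349d_lc.I.SG
import Pool.Agent.Lib.MP_11349d_lc.I.SW
import Pool.Agent.Lib.MP_11349d_lc.I.SL

/-!
# SA: all tasks, and the extension to the next stage

PROOF. `step_all`: cases on `τ`. `step_ext`: by normality (`ev_nrm2 inj_id inj_id` and `hI`) `F.IHM x z M` for all `x, z ∈ M` with
`¬ Lm x`, `x < z < b`; closure: `F.cb (F.pr z p) ∈ M` for `z ∈ M`, `cb p ∈ M` (`ev_f2 inj_id F.cb_inj`). Apply `IHM (c n) (c (n+1))` (`d`,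
`hd` from `Ctx`) to `pr (c (n+1)) p`, `y`, `q`: `q ≤ pr (c n) p = pr (c n) (pr (c (n+1)) p)` (`pr_pr`). `c (n+1)` is not a limit, so the
first part gives `r`.
-/

set_option autoImplicit false

namespace Pool.Agent.BPF

open Cardinal Pool.Agent.CSI

namespace Flt

variable {O Ω B : Type} [LinearOrder O] [WellFoundedLT O] [LinearOrder Ω] [WellFoundedLT Ω]
    [OrderBot O] [OrderBot Ω] [CompleteBooleanAlgebra B] {T : LTree Ω}
    (F : Flt (O := O) (B := B) T)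

theorem step_all (hΩ : IsOm1 Ω) (hO : IsKap O) {a b : O} (hb : Lm b)
    (hI : ∀ x z, ¬ Lm x → x < z → z < b → F.IH x z) : ∀ᶠ M in clubF O, ∀ d c,
    F.Ctx a b M d c → ∀ n p y q, F.Dt b M c p → F.OkS M d c n p y q → q ≠ ⊥ → ∀ τ,
      F.TIn b M τ → F.Stp b M d c n p y q τ := by
  filter_upwards [F.step_g (a := a) hb, F.step_w hΩ hO (a := a) hb,
    F.step_l hΩ hO (a := a) hb hI] with M h1 h2 h3 d c hc n p y q hp hok hq τ hτ
  cases τ with
  | g E => exact h1 d c hc n p y q hp hok hq E hτ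
  | w k W t => exact h2 d c hc n p y q hp hok hq k W t hτ
  | l g k V e => exact h3 d c hc n p y q hp hok hq g k V e hτ

theorem step_ext {a b : O} (hI : ∀ x z, ¬ Lm x → x < z → z < b → F.IH x z) :
    ∀ᶠ M in clubF O, ∀ d c, F.Ctx a b M d c → ∀ n p y q, F.Dt b M c p → F.OkS M d c n p y q →
      q ≠ ⊥ → ∃ r, F.OkS M d c (n + 1) p y r ∧ r ≠ ⊥ ∧ r ≤ q := by
  have h1 : ∀ᶠ M in clubF O, ∀ x, x ∈ M → ∀ z, z ∈ M →
      (¬ Lm x → x < z → z < b → F.IHM x z M) := by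
    refine ev_nrm2 inj_id inj_id fun x z => ?_
    by_cases h : ¬ Lm x ∧ x < z ∧ z < b
    · filter_upwards [hI x z h.1 h.2.1 h.2.2] with M hM _ _ _
      exact hM
    · filter_upwards with M h2 h3 h4
      exact absurd ⟨h2, h3, h4⟩ h
  have h2 : ∀ᶠ M in clubF O, ∀ z, z ∈ M → ∀ p, F.cb p ∈ M → F.cb (F.pr z p) ∈ M :=
    ev_f2 inj_id F.cb_inj F.cb fun z p => F.pr z p
  filter_upwards [h1, h2] with M h1 h2 d c hc n p y q hp hok hq
  have hlt : c n < c (n + 1) := hc.mono (Nat.lt_succ_self n)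
  have h3 := h1 (c n) (hc.cM n) (c (n + 1)) (hc.cM (n + 1)) (hc.cn n) hlt (hc.clt (n + 1)) d hc.hd
    (F.pr (c (n + 1)) p) (F.pr_mem _ _) (h2 _ (hc.cM (n + 1)) p hp.2.1) y q hok.mem hq
    (by rw [F.pr_pr hlt.le]; exact hok.pr) hok.gen hok.cap
  obtain ⟨r, hr1, hr2, hr3, hr4, hr5, hr6⟩ := h3.1 (hc.cn (n + 1))
  exact ⟨r, ⟨hr1, hr3, hr5, hr6⟩, hr2, hr4⟩

end Flt

end Pool.Agent.BPF
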