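import Pool.Agent.Lib.MP_11349d_lc.I.Fus
import Pool.Agent.Lib.MP_11349d_lc.I.SA

/-!
# FL: the fusion for the limit step

PROOF. For the club many `M` of `step_all` and `step_ext`. Let `St = {s : B × Finset ℕ // F.Dt b M c s.1}`,
`Ok n s q = F.OkS M d c n s.1.1 s.1.2 q`, `Tr n s s' q = s'.1.1 ≤ s.1.1 ∧ s.1.2 ⊆ s'.1.2 ∧ F.Done M d c n s'.1.1 s.1.2 s'.1.2 q (τ n)`.
Hypotheses of `F.fusion`: `ok_mem`, `ok_down` (`gen_mono`), `ok_sup` (`sSup_le`; `Gen` of a supremum: `gen_iSup` after `sSup_eq_iSup'`;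
for membership `F.sup_mem`), `tr_down`: `Done` is monotone downwards in `q` (cases on the task: `g` does not mention `q`; `w`, `l`:
`inf_le_inf_right`, `le_trans`). `step`: `step_all` for `τ n` (`TIn` by `TEn`) gives `p', y', q'`; for `q'' ≤ q'` nonzero in `S (c n)` use
`step_ext` with `OkS .. q''` (downwards). Start: `s0 = (p, y)`. The fusion gives `q*`, `σ*`; put `σ n p y = σ* n ⟨(p, y), h⟩` if
`h : F.Dt b M c p`, `⊥` otherwise. `FusR.ok` for `⊥`: `bot_mem`, `bot_le`, `gen_bot`. `le`: a supremum over the subtype is below the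
supremum over `p, y`. `mem`: `F.fusion` with `a = b` (`∀ n, c n < b`). `pr a q* = q0` since `c 0 = a`.
-/

set_option autoImplicit false

namespace Pool.Agent.BPF

open Cardinal Pool.Agent.CSI

namespace Flt

variable {O Ω B : Type} [LinearOrder O] [WellFoundedLT O] [LinearOrder Ω] [WellFoundedLT Ω]
    [OrderBot O] [OrderBot Ω] [CompleteBooleanAlgebra B] {T : LTree Ω}
    (F : Flt (O := O) (B := B) T)

private theorem okS_down {M : Set O} {d : Ω} {c : ℕ → O} {n : ℕ} {p : B} {y : Finset ℕ} {q q' : B}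
    (h : F.OkS M d c n p y q) (hq : q' ∈ F.S (c n)) (hle : q' ≤ q) : F.OkS M d c n p y q' :=
  ⟨hq, hle.trans h.pr, F.gen_mono hle h.gen, hle.trans h.cap⟩

private theorem okS_sup {M : Set O} {d : Ω} {c : ℕ → O} {n : ℕ} {p : B} {y : Finset ℕ} {E : Set B}
    (h : ∀ q ∈ E, F.OkS M d c n p y q) : F.OkS M d c n p y (sSup E) := by
  refine ⟨F.sup_mem (c n) E fun q hq => (h q hq).mem, sSup_le fun q hq => (h q hq).pr, ?_,
    sSup_le fun q hq => (h q hq).cap⟩
  rw [sSup_eq_iSup']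
  exact F.gen_iSup fun q => (h q.1 q.2).gen

private theorem okS_bot (M : Set O) (d : Ω) (c : ℕ → O) (n : ℕ) (p : B) (y : Finset ℕ) :
    F.OkS M d c n p y ⊥ := by
  have := F.okS_sup (M := M) (d := d) (c := c) (n := n) (p := p) (y := y) (E := ∅)
    (fun q hq => hq.elim)
  rwa [sSup_empty] at this

private theorem done_down {M : Set O} {d : Ω} {c : ℕ → O} {n : ℕ} {p' : B} {y y' : Finset ℕ}
    {q q' : B} (hle : q' ≤ q) {τ : Tsk O Ω B} (h : F.Done M d c n p' y y' q τ) :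
    F.Done M d c n p' y y' q' τ := by
  cases τ with
  | g E => exact h
  | w k W t =>
    intro ht
    rcases h ht with h1 | ⟨V, a1, a2, a3, a4⟩
    · exact Or.inl h1
    · exact Or.inr ⟨V, a1, a2, hle.trans a3, fun ξ s =>
        (inf_le_inf_right _ (inf_le_inf_right _ hle)).trans (a4 ξ s)⟩
  | l g k V e =>
    intro hg
    rcases h hg with h1 | ⟨y0, a1, a2, a3⟩
    · exact Or.inl (le_bot_iff.1 ((inf_le_inf_right _ hle).trans h1.le))
    · exact Or.inr ⟨y0, a1, a2, hle.trans a3⟩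

theorem exists_fusR (hΩ : IsOm1 Ω) (hO : IsKap O) {a b : O} (hb : Lm b)
    (hI : ∀ x z, ¬ Lm x → x < z → z < b → F.IH x z) : ∀ᶠ M in clubF O, ∀ d c,
    F.Ctx a b M d c → ∀ τ : ℕ → Tsk O Ω B, F.TEn b M τ → ∀ p y q0, F.Dt b M c p →
      F.OkS M d c 0 p y q0 → ∃ q σ, F.FusR b M d c τ q σ ∧ F.pr a q = q0 ∧ q ≤ q0 ∧
        ∀ p' y', σ 0 p' y' ≠ ⊥ → p' = p ∧ y' = y := by
  classical
  filter_upwards [F.step_all hΩ hO (a := a) hb hI, F.step_ext (a := a) hI]
    with M h1 h2 d c hc τ hτ p y q0 hp h0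
  obtain ⟨q, σ, e1, e2, e3, e4, e5, e6, e7, e8⟩ := F.fusion
    (St := {s : B × Finset ℕ // F.Dt b M c s.1}) c hc.mono
    (fun n s q => F.OkS M d c n s.1.1 s.1.2 q)
    (fun n s s' q => s'.1.1 ≤ s.1.1 ∧ s.1.2 ⊆ s'.1.2 ∧ F.Done M d c n s'.1.1 s.1.2 s'.1.2 q (τ n))
    (fun n s q h => h.mem)
    (fun n s q h q' hq' hle => F.okS_down h hq' hle)
    (fun n s E h => F.okS_sup h)
    (fun n s s' q q' hle h => ⟨h.1, h.2.1, F.done_down hle h.2.2⟩)
    (fun n s q hok hq => by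
      obtain ⟨p', y', q', a1, a2, a3, a4, a5, a6, a7⟩ :=
        h1 d c hc n s.1.1 s.1.2 q s.2 hok hq (τ n) (hτ.1 n)
      exact ⟨⟨(p', y'), a1⟩, q', a6.mem, a2, a3, ⟨a4, a5, a7⟩, fun q'' hq'' hne hle =>
        h2 d c hc n p' y' q'' a1 (F.okS_down a6 hq'' hle) hne⟩)
    ⟨(p, y), hp⟩ q0 h0
  have hpos : ∀ n p y (h : F.Dt b M c p), (if h : F.Dt b M c p then σ n ⟨(p, y), h⟩ else ⊥) =
      σ n ⟨(p, y), h⟩ := fun n p y h => dif_pos h
  have hdt : ∀ n p y, (if h : F.Dt b M c p then σ n ⟨(p, y), h⟩ else ⊥) ≠ ⊥ → F.Dt b M c p := by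
    intro n p y hne
    by_contra h
    exact hne (dif_neg h)
  refine ⟨q, fun n p y => if h : F.Dt b M c p then σ n ⟨(p, y), h⟩ else ⊥,
    ⟨?_, hdt, ?_, ?_, e7 b hc.clt, ?_⟩, ?_, e2, ?_⟩
  · intro n p y
    by_cases h : F.Dt b M c p
    · simp only [dif_pos h]
      exact e3 n ⟨(p, y), h⟩
    · simp only [dif_neg h]
      exact F.okS_bot M d c n p y
  · intro n p y p' y' hne
    by_cases h : F.Dt b M c p
    · by_cases h' : F.Dt b M c p'
      · simp only [dif_pos h, dif_pos h']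
        refine e4 n ⟨(p, y), h⟩ ⟨(p', y'), h'⟩ fun heq => ?_
        have e : (p, y) = (p', y') := congrArg Subtype.val heq
        rcases hne with h' | h'
        · exact h' (congrArg Prod.fst e)
        · exact h' (congrArg Prod.snd e)
      · simp only [dif_neg h', inf_bot_eq]
    · simp only [dif_neg h, bot_inf_eq]
  · intro n
    refine (e5 n).trans (iSup_le fun s => le_iSup_of_le s.1.1 (le_iSup_of_le s.1.2 ?_))
    simp only [dif_pos s.2]
    exact le_rfl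
  · intro n p y p' y' e he hle hle'
    have hp1 : F.Dt b M c p := hdt n p y fun h => he (le_bot_iff.1 (hle.trans h.le))
    have hp2 : F.Dt b M c p' := hdt (n + 1) p' y' fun h => he (le_bot_iff.1 (hle'.trans h.le))
    simp only [dif_pos hp1] at hle
    simp only [dif_pos hp2] at hle'
    obtain ⟨e', a1, a2, a3⟩ := e8 n ⟨(p, y), hp1⟩ ⟨(p', y'), hp2⟩ e he hle hle'
    exact ⟨e', a1, a2, a3⟩
  · rw [← hc.c0]
    exact e1
  · intro p' y' hne
    have hp' : F.Dt b M c p' := hdt 0 p' y' hne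
    simp only [dif_pos hp'] at hne
    have e : (⟨(p', y'), hp'⟩ : {s : B × Finset ℕ // F.Dt b M c s.1}) = ⟨(p, y), hp⟩ := e6 _ hne
    have e' : (p', y') = (p, y) := congrArg Subtype.val e
    exact ⟨congrArg Prod.fst e', congrArg Prod.snd e'⟩

end Flt

end Pool.Agent.BPF
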