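import Pool.Agent.Lib.MP_11349d_lc.Ifc

/-!
# Om: a well order of type ω₁ exists

PROOF. `Ω = (Cardinal.aleph 1).ord.ToType` (or `(Ordinal.omega 1).ToType`); `Set.Iio ξ` has cardinality `< ℵ₁`
(`Cardinal.mk_Iio_ord_toType` or similar), so it is countable; `#Ω = ℵ₁`, so `Ω` is not countable. `OrderBot`: from well-foundedness
and nonemptiness (`WellFoundedLT.toOrderBot`, or take the minimum).
-/

set_option autoImplicit false

namespace Pool.Agent.BPF

open Cardinal

theorem exists_om1 : ∃ (Ω : Type) (_ : LinearOrder Ω) (_ : WellFoundedLT Ω) (_ : OrderBot Ω),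
    IsOm1 Ω := by
  have hcard : Cardinal.mk (ℵ_ 1 : Cardinal.{0}).ord.ToType = ℵ_ 1 := mk_ord_toType _
  have hne : Nonempty (ℵ_ 1 : Cardinal.{0}).ord.ToType := by
    rw [← Cardinal.mk_ne_zero_iff, hcard]
    exact (aleph_pos 1).ne'
  refine ⟨(ℵ_ 1 : Cardinal.{0}).ord.ToType, inferInstance, inferInstance,
    WellFoundedLT.toOrderBot _, ?_, ?_⟩
  · intro h
    have h1 : Cardinal.mk (ℵ_ 1 : Cardinal.{0}).ord.ToType ≤ ℵ₀ := Cardinal.mk_le_aleph0_iff.2 h
    rw [hcard] at h1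
    exact absurd h1 (not_le.2 aleph0_lt_aleph_one)
  · intro ξ
    have h1 := mk_Iio_toType_ord_lt ξ
    rw [← Cardinal.le_aleph0_iff_set_countable]
    exact lt_aleph_one_iff.1 h1

end Pool.Agent.BPF
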