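import Pool.Agent.Lib.MP_11349d_lc.I.Ifa
import Pool.Agent.Lib.MP_11349d_lc.I.Om
import Pool.Agent.Lib.MP_11349d_lc.LT
import Pool.Agent.Lib.MP_11349d_lc.P1.Fin

/-!
# Fin: PART I-III, the iteration
-/

set_option autoImplicit false

namespace Pool.Agent.BPF

open Cardinal

theorem isKap_of_rprop {κ : Cardinal.{0}} (h : RProp κ) : IsKap κ.ord.ToType := by
  have hc : #κ.ord.ToType = κ := mk_ord_toType κ
  have hr := h.reg
  have h0 : ℵ₀ ≤ κ := hr.aleph0_le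
  refine ⟨fun s hs => ?_, fun b => ?_, fun c hc' => ?_, ?_⟩
  · rw [hc] at hs
    by_contra hn
    push Not at hn
    have hcof : IsCofinal s := fun b => by
      obtain ⟨x, hx, hb⟩ := hn b
      exact ⟨x, hx, hb⟩
    have h1 : Order.cof κ.ord.ToType ≤ #s := Order.cof_le hcof
    rw [Ordinal.cof_toType] at h1
    rw [hr.cof_ord] at h1
    exact absurd hs (not_lt.2 h1)
  · rw [hc]
    exact mk_Iio_toType_ord_lt b
  · rw [hc] at hc' ⊢
    exact h.pow c hc'
  · rw [hc]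
    exact h.om1

theorem partI {κ : Cardinal.{0}} (h : RProp κ) :
    ∃ (Ω K B : Type) (_ : LinearOrder Ω) (_ : WellFoundedLT Ω) (_ : CompleteBooleanAlgebra B)
      (T : LTree Ω) (U : K → Ω → ℕ → B), IsOm1 Ω ∧ Iface T U := by
  obtain ⟨Ω, _, _, _, hΩ⟩ := exists_om1
  obtain ⟨T⟩ := exists_ltree hΩ
  have hc : #κ.ord.ToType = κ := mk_ord_toType κ
  have hO := isKap_of_rprop h
  have hne : Nonempty κ.ord.ToType := by
    rw [← Cardinal.mk_ne_zero_iff, hc]
    exact (aleph0_pos.trans_le h.reg.aleph0_le).ne'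
  letI : OrderBot κ.ord.ToType := WellFoundedLT.toOrderBot _
  have h1 : #Ω < #κ.ord.ToType := lt_of_le_of_lt (Flt.card_om1 hΩ) hO.om1
  obtain ⟨B, _, ⟨F⟩⟩ := exists_flt (O := κ.ord.ToType) hO (by rw [hc]; exact h) h1 T
  exact ⟨Ω, _, B, _, _, _, T, _, hΩ, F.iface hΩ hO⟩

end Pool.Agent.BPF
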