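import Pool.Agent.Lib.MP_11349d_lc.I.FusA

/-!
# Fus: the fusion lemma

PROOF. Recursion with `F.fusion_step` (for `c n < c (n+1)`) on the subtype of `σ : St → B` with `∀ s, Ok n s (σ s)` and
disjoint values; start with `σ 0 s = if s = s0 then q0 else ⊥` (`Ok 0 s ⊥` is `ok_sup 0 s ∅`; classical decidability).
Put `q n = ⨆ s, σ n s ∈ S (c n)` and `q = ⨅ n, q n`. `pr (c n) (q (n+1)) = q n`, so `F.thr` gives `pr (c 0) q = q 0 = q0`;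
`q ≤ q 0 = q0`. If all `c n < a`, all `q n ∈ S a` (`F.mono`) and `q ∈ S a` (`F.iInf_mem`).
-/

set_option autoImplicit false

namespace Pool.Agent.BPF

open Cardinal Pool.Agent.CSI

namespace Flt

variable {O Ω B : Type} [LinearOrder O] [WellFoundedLT O] [LinearOrder Ω] [WellFoundedLT Ω]
    [OrderBot O] [OrderBot Ω] [CompleteBooleanAlgebra B] {T : LTree Ω}
    (F : Flt (O := O) (B := B) T)

theorem fusion {St : Type} (c : ℕ → O) (hc : StrictMono c) (Ok : ℕ → St → B → Prop)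
    (Tr : ℕ → St → St → B → Prop)
    (ok_mem : ∀ n s q, Ok n s q → q ∈ F.S (c n))
    (ok_down : ∀ n s q, Ok n s q → ∀ q' ∈ F.S (c n), q' ≤ q → Ok n s q')
    (ok_sup : ∀ n s (E : Set B), (∀ q ∈ E, Ok n s q) → Ok n s (sSup E))
    (tr_down : ∀ n s s' q q', q' ≤ q → Tr n s s' q → Tr n s s' q')
    (step : ∀ n s q, Ok n s q → q ≠ ⊥ → ∃ s', ∃ q' ∈ F.S (c n), q' ≠ ⊥ ∧ q' ≤ q ∧ Tr n s s' q' ∧
      ∀ q'' ∈ F.S (c n), q'' ≠ ⊥ → q'' ≤ q' → ∃ r, Ok (n + 1) s' r ∧ r ≠ ⊥ ∧ r ≤ q'')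
    (s0 : St) (q0 : B) (h0 : Ok 0 s0 q0) :
    ∃ (q : B) (σ : ℕ → St → B), F.pr (c 0) q = q0 ∧ q ≤ q0 ∧ (∀ n s, Ok n s (σ n s)) ∧
      (∀ n s s', s ≠ s' → σ n s ⊓ σ n s' = ⊥) ∧ (∀ n, q ≤ ⨆ s, σ n s) ∧
      (∀ s, σ 0 s ≠ ⊥ → s = s0) ∧ (∀ a, (∀ n, c n < a) → q ∈ F.S a) ∧
      ∀ n s s' e, e ≠ ⊥ → e ≤ σ n s → e ≤ σ (n + 1) s' → ∃ e' ≤ e, e' ≠ ⊥ ∧ Tr n s s' e' := by
  classical
  let P : ℕ → Type := fun n =>
    {σ : St → B // (∀ s, Ok n s (σ s)) ∧ ∀ s s', s ≠ s' → σ s ⊓ σ s' = ⊥}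
  have hstep : ∀ (n : ℕ) (σ : P n), ∃ σ' : P (n + 1),
      F.pr (c n) (⨆ s, σ'.1 s) = ⨆ s, σ.1 s ∧
      ∀ s s' e, e ≠ ⊥ → e ≤ σ.1 s → e ≤ σ'.1 s' → ∃ e' ≤ e, e' ≠ ⊥ ∧ Tr n s s' e' := by
    intro n σ
    obtain ⟨σ', h1, h2, h3, h4⟩ := F.fusion_step (hc (Nat.lt_succ_self n)) (Ok n) (Ok (n + 1))
      (Tr n) (ok_mem n) (ok_mem (n + 1)) (ok_down n) (ok_sup (n + 1)) (tr_down n) (step n)
      σ.1 σ.2.1 σ.2.2
    exact ⟨⟨σ', h1, h2⟩, h3, h4⟩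
  choose nx hnx1 hnx2 using hstep
  have hbot : ∀ s, Ok 0 s ⊥ := by
    intro s
    have := ok_sup 0 s ∅ (fun q hq => hq.elim)
    rwa [sSup_empty] at this
  let σ0 : P 0 := ⟨fun s => if s = s0 then q0 else ⊥, by
    intro s
    by_cases hs : s = s0
    · simp only [if_pos hs]; rw [hs]; exact h0
    · simp only [if_neg hs]; exact hbot s, by
    intro s s' hss
    by_cases hs : s = s0
    · have hs' : s' ≠ s0 := fun h => hss (hs.trans h.symm)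
      simp only [if_neg hs', inf_bot_eq]
    · simp only [if_neg hs, bot_inf_eq]⟩
  let τ : (n : ℕ) → P n := fun n => Nat.rec (motive := P) σ0 (fun n x => nx n x) n
  have hτ0 : ∀ s, (τ 0).1 s = if s = s0 then q0 else ⊥ := fun s => rfl
  have hτ1 : ∀ n, τ (n + 1) = nx n (τ n) := fun n => rfl
  let Q : ℕ → B := fun n => ⨆ s, (τ n).1 s
  have hQ0 : Q 0 = q0 := by
    refine le_antisymm (iSup_le fun s => ?_) (le_iSup_of_le s0 ?_)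
    · rw [hτ0]
      split_ifs
      · exact le_rfl
      · exact bot_le
    · rw [hτ0, if_pos rfl]
  have hQm : ∀ n, Q n ∈ F.S (c n) := fun n => F.iSup_mem fun s => ok_mem n s _ ((τ n).2.1 s)
  have hQp : ∀ n, F.pr (c n) (Q (n + 1)) = Q n := fun n => hnx1 n (τ n)
  refine ⟨⨅ n, Q n, fun n => (τ n).1, ?_, ?_, fun n s => (τ n).2.1 s, fun n s s' => (τ n).2.2 s s',
    fun n => iInf_le Q n, ?_, ?_, fun n => hnx2 n (τ n)⟩
  · rw [← hQ0]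
    exact F.thr c Q hc hQm hQp
  · rw [← hQ0]
    exact iInf_le Q 0
  · intro s hs
    by_contra hne
    exact hs ((hτ0 s).trans (if_neg hne))
  · intro a ha
    exact F.iInf_mem fun n => F.mono (c n) a (ha n).le (hQm n)

end Flt

end Pool.Agent.BPF
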