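import Pool.Agent.Lib.MP_11349d_lc.I.Dsj

/-!
# FusA: one step of the fusion

`a < c`; `Ok s q`, `q ∈ S a`: the state `s` is allowed on the part `q`; `Ok' s r`, `r ∈ S c`. `σ` is the old partition,
`σ'` the new one.

PROOF. Fix `s`. Let `I` be the type of all pairs `(s', q')` with `q' ∈ S a`, `q' ≠ ⊥`, `q' ≤ σ s`, `Tr s s' q'` and
`∀ q'' ∈ S a, q'' ≠ ⊥ → q'' ≤ q' → ∃ r, Ok' s' r ∧ r ≠ ⊥ ∧ r ≤ q''`. Then `⨆ q' = σ s`: otherwise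
`e = σ s ⊓ (⨆ q')ᶜ ∈ S a` is not `⊥`, `Ok s e` by `ok_down`, and `step` gives a member `(s', q')` with `⊥ ≠ q' ≤ e`,
contradiction. `F.disjointify` gives `g_s : I → B`, `g_s i ≤ q'`, disjoint, in `S a`, with supremum `σ s`. For
`i = (s', q') ∈ I_s` let `r_s i = sSup {r | Ok' s' r ∧ r ≤ g_s i}`: `Ok' s' (r_s i)` by `ok_sup'`, `r_s i ≤ g_s i` and
`pr a (r_s i) = g_s i`: `≤` by `F.pr_le`; if `e = g_s i ⊓ (pr a (r_s i))ᶜ ≠ ⊥`, then `e ∈ S a`, `e ≤ q'`, and the last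
property of `q'` gives `r ≠ ⊥`, `Ok' s' r`, `r ≤ e`, so `r ≤ r_s i ≤ pr a (r_s i)`, contradiction.
`σ' s' := sSup {x | ∃ s, ∃ i : I_s, i.1 = s' ∧ x = r_s i}`; `Ok'` by `ok_sup'`. Disjoint: for `s'₁ ≠ s'₂` any
`r_{s₁} i₁ ⊓ r_{s₂} i₂ ≤ g_{s₁} i₁ ⊓ g_{s₂} i₂ = ⊥` (if `s₁ = s₂` then `i₁ ≠ i₂`; if `s₁ ≠ s₂` it is `≤ σ s₁ ⊓ σ s₂`).
Projection: `pr a (⨆ s', σ' s') = ⨆ r-projections = ⨆ s, ⨆ i, g_s i = ⨆ s, σ s` (`F.pr_iSup`, `F.pr_sSup`).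
Last part: let `⊥ ≠ e ≤ σ s`, `e ≤ σ' s'`. `e ≤ sSup {..}` so `e ⊓ r_{s₁} i ≠ ⊥` for some `s₁`, `i = (s', q')`
(`Flt.ne_of_iSup` or `inf_sSup_eq`); as `r_{s₁} i ≤ σ s₁`, disjointness gives `s₁ = s`. `e' = e ⊓ r_s i ≤ g_s i ≤ q'`, and
`Tr s s' e'` by `tr_down`.
-/

set_option autoImplicit false

namespace Pool.Agent.BPF

open Cardinal Pool.Agent.CSI

namespace Flt

variable {O Ω B : Type} [LinearOrder O] [WellFoundedLT O] [LinearOrder Ω] [WellFoundedLT Ω]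
    [OrderBot O] [OrderBot Ω] [CompleteBooleanAlgebra B] {T : LTree Ω}
    (F : Flt (O := O) (B := B) T)

theorem fusion_step {St : Type} {a c : O} (hac : a < c) (Ok Ok' : St → B → Prop)
    (Tr : St → St → B → Prop)
    (ok_mem : ∀ s q, Ok s q → q ∈ F.S a) (ok_mem' : ∀ s q, Ok' s q → q ∈ F.S c)
    (ok_down : ∀ s q, Ok s q → ∀ q' ∈ F.S a, q' ≤ q → Ok s q')
    (ok_sup' : ∀ s (E : Set B), (∀ q ∈ E, Ok' s q) → Ok' s (sSup E))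
    (tr_down : ∀ s s' q q', q' ≤ q → Tr s s' q → Tr s s' q')
    (step : ∀ s q, Ok s q → q ≠ ⊥ → ∃ s', ∃ q' ∈ F.S a, q' ≠ ⊥ ∧ q' ≤ q ∧ Tr s s' q' ∧
      ∀ q'' ∈ F.S a, q'' ≠ ⊥ → q'' ≤ q' → ∃ r, Ok' s' r ∧ r ≠ ⊥ ∧ r ≤ q'')
    (σ : St → B) (hσ : ∀ s, Ok s (σ s)) (hd : ∀ s s', s ≠ s' → σ s ⊓ σ s' = ⊥) :
    ∃ σ' : St → B, (∀ s, Ok' s (σ' s)) ∧ (∀ s s', s ≠ s' → σ' s ⊓ σ' s' = ⊥) ∧
      F.pr a (⨆ s, σ' s) = ⨆ s, σ s ∧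
      ∀ s s' e, e ≠ ⊥ → e ≤ σ s → e ≤ σ' s' → ∃ e' ≤ e, e' ≠ ⊥ ∧ Tr s s' e' := by
  classical
  let I : St → Type := fun s => {p : St × B // p.2 ∈ F.S a ∧ p.2 ≠ ⊥ ∧ p.2 ≤ σ s ∧
    Tr s p.1 p.2 ∧ ∀ q'' ∈ F.S a, q'' ≠ ⊥ → q'' ≤ p.2 → ∃ r, Ok' p.1 r ∧ r ≠ ⊥ ∧ r ≤ q''}
  have hsup : ∀ s, ⨆ i : I s, i.1.2 = σ s := by
    intro s
    refine le_antisymm (iSup_le fun i => i.2.2.2.1) ?_
    by_contra hn
    have hne : σ s ⊓ (⨆ i : I s, i.1.2)ᶜ ≠ ⊥ := by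
      intro h0
      exact hn (disjoint_compl_right_iff.1 (disjoint_iff_inf_le.2 h0.le))
    have hS : σ s ⊓ (⨆ i : I s, i.1.2)ᶜ ∈ F.S a :=
      F.inf_mem (ok_mem _ _ (hσ s)) (F.compl_iff.2 (F.iSup_mem fun i => i.2.1))
    obtain ⟨s', q', hq', hq'0, hle, htr, hr⟩ :=
      step s _ (ok_down s _ (hσ s) _ hS inf_le_left) hne
    have h1 : q' ≤ ⨆ i : I s, i.1.2 :=
      le_iSup (fun i : I s => i.1.2) ⟨(s', q'), hq', hq'0, hle.trans inf_le_left, htr, hr⟩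
    apply hq'0
    rw [← le_bot_iff, ← inf_compl_self (⨆ i : I s, i.1.2)]
    exact le_inf h1 (hle.trans inf_le_right)
  have hex : ∀ s, ∃ g : I s → B, (∀ i, g i ∈ F.S a) ∧ (∀ i, g i ≤ i.1.2) ∧
      (∀ i j, i ≠ j → g i ⊓ g j = ⊥) ∧ ⨆ i, g i = ⨆ i : I s, i.1.2 :=
    fun s => F.disjointify (fun i : I s => i.1.2) fun i => i.2.1
  choose g hg1 hg2 hg3 hg4 using hex
  let R : (s : St) → I s → B := fun s i => sSup {r | Ok' i.1.1 r ∧ r ≤ g s i}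
  have hR1 : ∀ s i, Ok' i.1.1 (R s i) := fun s i => ok_sup' _ _ fun q hq => hq.1
  have hR2 : ∀ s i, R s i ≤ g s i := fun s i => sSup_le fun q hq => hq.2
  have hR3 : ∀ s i, F.pr a (R s i) = g s i := by
    intro s i
    refine le_antisymm (F.pr_le (hg1 s i) (hR2 s i)) ?_
    by_contra hn
    have hne : g s i ⊓ (F.pr a (R s i))ᶜ ≠ ⊥ := by
      intro h0
      exact hn (disjoint_compl_right_iff.1 (disjoint_iff_inf_le.2 h0.le))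
    have hS : g s i ⊓ (F.pr a (R s i))ᶜ ∈ F.S a :=
      F.inf_mem (hg1 s i) (F.compl_iff.2 (F.pr_mem a _))
    obtain ⟨r, hr1, hr0, hr2⟩ := i.2.2.2.2.2 _ hS hne (inf_le_left.trans (hg2 s i))
    apply hr0
    rw [← le_bot_iff, ← inf_compl_self (F.pr a (R s i))]
    refine le_inf ?_ (hr2.trans inf_le_right)
    exact (le_sSup (show r ∈ {r | Ok' i.1.1 r ∧ r ≤ g s i} from
      ⟨hr1, hr2.trans inf_le_left⟩)).trans (F.le_pr a _)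
  have hRσ : ∀ s i, R s i ≤ σ s := fun s i => (hR2 s i).trans ((hg2 s i).trans i.2.2.2.1)
  have hdis : ∀ s₁ (i₁ : I s₁) s₂ (i₂ : I s₂), i₁.1.1 ≠ i₂.1.1 → R s₁ i₁ ⊓ R s₂ i₂ = ⊥ := by
    intro s₁ i₁ s₂ i₂ hne
    rw [← le_bot_iff]
    rcases eq_or_ne s₁ s₂ with rfl | hs
    · have h1 : i₁ ≠ i₂ := by
        rintro rfl
        exact hne rfl
      rw [← hg3 s₁ i₁ i₂ h1]
      exact inf_le_inf (hR2 _ _) (hR2 _ _)
    · rw [← hd s₁ s₂ hs]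
      exact inf_le_inf (hRσ _ _) (hRσ _ _)
  refine ⟨fun s' => sSup {x | ∃ s, ∃ i : I s, i.1.1 = s' ∧ x = R s i}, ?_, ?_, ?_, ?_⟩
  · intro s'
    refine ok_sup' _ _ ?_
    rintro _ ⟨s, i, rfl, rfl⟩
    exact hR1 s i
  · intro s₁' s₂' hne
    rw [← le_bot_iff]
    show sSup {x | ∃ s, ∃ i : I s, i.1.1 = s₁' ∧ x = R s i} ⊓
      sSup {x | ∃ s, ∃ i : I s, i.1.1 = s₂' ∧ x = R s i} ≤ ⊥
    rw [sSup_inf_eq]
    refine iSup₂_le ?_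
    rintro _ ⟨s₁, i₁, rfl, rfl⟩
    rw [inf_sSup_eq]
    refine iSup₂_le ?_
    rintro _ ⟨s₂, i₂, rfl, rfl⟩
    exact (hdis _ _ _ _ hne).le
  · have h1 : (⨆ s', sSup {x | ∃ s, ∃ i : I s, i.1.1 = s' ∧ x = R s i}) =
        ⨆ s, ⨆ i : I s, R s i := by
      apply le_antisymm
      · refine iSup_le fun s' => sSup_le ?_
        rintro _ ⟨s, i, rfl, rfl⟩
        exact le_iSup₂_of_le s i le_rfl
      · refine iSup₂_le fun s i => ?_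
        exact le_iSup_of_le i.1.1 (le_sSup ⟨s, i, rfl, rfl⟩)
    show F.pr a (⨆ s', sSup {x | ∃ s, ∃ i : I s, i.1.1 = s' ∧ x = R s i}) = _
    rw [h1, F.pr_iSup]
    refine iSup_congr fun s => ?_
    rw [F.pr_iSup, ← hsup s, ← hg4 s]
    exact iSup_congr fun i => hR3 s i
  · intro s s' e he hes hes'
    have h1 : ∃ x ∈ {x | ∃ s, ∃ i : I s, i.1.1 = s' ∧ x = R s i}, e ⊓ x ≠ ⊥ := by
      by_contra hn
      push Not at hn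
      apply he
      rw [← le_bot_iff]
      calc e ≤ e ⊓ sSup {x | ∃ s, ∃ i : I s, i.1.1 = s' ∧ x = R s i} := le_inf le_rfl hes'
        _ ≤ ⊥ := by
          rw [inf_sSup_eq]
          exact iSup₂_le fun x hx => (hn x hx).le
    obtain ⟨_, ⟨s₁, i, hi, rfl⟩, hne⟩ := h1
    have hs : s₁ = s := by
      by_contra hs
      apply hne
      rw [← le_bot_iff, ← hd s₁ s hs]
      exact le_inf (inf_le_right.trans (hRσ _ _)) (inf_le_left.trans hes)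
    subst hs
    refine ⟨e ⊓ R s₁ i, inf_le_left, hne, ?_⟩
    rw [← hi]
    exact tr_down _ _ _ _ (inf_le_right.trans ((hR2 s₁ i).trans (hg2 s₁ i))) i.2.2.2.2.1

end Flt

end Pool.Agent.BPF
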