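import Pool.Agent.Lib.MP_11349d_lc.I.Bp
import Pool.Agent.Lib.MP_11349d_lc.I.Big

/-!
# Ifa: the interface

PROOF. `K = {x : O // Lm x}`, `U x = F.U x.1`. `reg`: `reg_om`; `bp`; `tree`: `U_tree`; `unb`: `U_unb` (`IH ⊥ x` by `ih_all`; `⊥ < x` for a limit);
`ad`: `U_ad` for the larger of the two (`lt_trichotomy`; commute `⊓`); `big`: `big_K`; `nontriv`: `F.ntriv`.
-/

set_option autoImplicit false

namespace Pool.Agent.BPF

open Cardinal Pool.Agent.CSI

namespace Flt

variable {O Ω B : Type} [LinearOrder O] [WellFoundedLT O] [LinearOrder Ω] [WellFoundedLT Ω]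
    [OrderBot O] [OrderBot Ω] [CompleteBooleanAlgebra B] {T : LTree Ω}
    (F : Flt (O := O) (B := B) T)

theorem iface (hΩ : IsOm1 Ω) (hO : IsKap O) :
    Iface T (fun (x : {x : O // Lm x}) => F.U x.1) := by
  have hbot : ¬ Lm (⊥ : O) := fun h => by
    obtain ⟨⟨c, hc⟩, -⟩ := h
    exact not_lt_bot hc
  have hpos : ∀ x : O, Lm x → ⊥ < x := fun x hx => by
    obtain ⟨⟨c, hc⟩, -⟩ := hx
    exact bot_le.trans_lt hc
  have hih : ∀ x : O, Lm x → F.IH ⊥ x := fun x hx => F.ih_all hΩ hO ⊥ x hbot (hpos x hx)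
  exact
    { nontriv := F.ntriv
      reg := fun c hc => F.reg_om hΩ hO c hc
      bp := fun c b h => F.bp hΩ hO c b h
      tree := fun x ξ η n h => F.U_tree x.2 ξ η n h
      unb := fun x ξ => F.U_unb hΩ hO x.2 (hih x.1 x.2) ξ
      ad := fun x y hxy => by
        have hne : x.1 ≠ y.1 := fun h => hxy (Subtype.ext h)
        rcases lt_or_gt_of_ne hne with h | h
        · have h1 := F.U_ad hΩ hO y.2 x.2 h (hih y.1 y.2)
          rw [← h1]
          refine iSup_congr fun ξ => iInf_congr fun n => ?_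
          rw [inf_comm]
        · exact F.U_ad hΩ hO x.2 y.2 h (hih x.1 x.2)
      big := fun h hd => F.big_K hΩ hO h hd }

end Flt

end Pool.Agent.BPF
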