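import Pool.Agent.Lib.MP_11349d_lc.I.Tsk
import Pool.Agent.Lib.MP_11349d_lc.I.Mb

/-!
# Inv: consequences of FusR

PROOF. `next`: induction on `m ≥ n`. `m = n`: trivial. Step: `e₁ ≤ e`, `e₁ ≤ σ m p₁ y₁`; `e₁ ≤ q ≤ ⨆ σ (m+1)`, so `e₂ = e₁ ⊓ σ (m+1) p₂ y₂ ≠ ⊥` for
some `p₂, y₂` (`ne_of_iSup'` twice); `FusR.tr` for `e₂` gives `e₃ ≤ e₂` nonzero, `p₂ ≤ p₁`, `y₁ ⊆ y₂`.
`le_p`: suppose `e = q ⊓ σ n p y ⊓ pᶜ ≠ ⊥`. Then `σ n p y ≠ ⊥`, so `Dt b M c p` : `pᶜ ≤ (⨅ m, pr (c m) p)ᶜ = ⨆ m, (pr (c m) p)ᶜ`, so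
`e₁ = e ⊓ (pr (c m) p)ᶜ ≠ ⊥` for some `m`. Let `m' = max m n`: `pr (c m') p ≤ pr (c m) p` (`pr_anti`, `Ctx.mono`). By `next` there are
`e₂ ≤ e₁` nonzero and `p' ≤ p`, `y'` with `e₂ ≤ σ m' p' y' ≤ pr (c m') p' ≤ pr (c m') p ≤ pr (c m) p`. Contradiction to `e₂ ≤ (pr (c m) p)ᶜ`.
`mem_y`: by induction on the finite set of the `i : Fin k` (e.g. `Finset.induction_on Finset.univ`) there are `e' ≤ e` nonzero
and `m i, p i, y i` with `e' ≤ σ (m i) (p i) (y i)`, `t i ∈ y i` (from `e' ≤ ⨆ m, ⨆ p, ⨆ y, ⨆ _ : t i ∈ y, σ m p y`, `ne_of_iSup'`). `N` = maximum of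
the `m i`. For `m ≥ N` and `e'' ≤ e'` nonzero take `p, y` with `e₁ = e'' ⊓ σ m p y ≠ ⊥` (`FusR.le`). For each `i`, `next` (from `m i` to
`m`, applied to `e₁`) gives `e₂ ≤ e₁` nonzero below `σ m p' y'`, `y i ⊆ y'`; by `FusR.dj` `p' = p`, `y' = y`. So `t i ∈ y`.
-/

set_option autoImplicit false

namespace Pool.Agent.BPF

open Cardinal Pool.Agent.CSI

namespace Flt

variable {O Ω B : Type} [LinearOrder O] [WellFoundedLT O] [LinearOrder Ω] [WellFoundedLT Ω]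
    [OrderBot O] [OrderBot Ω] [CompleteBooleanAlgebra B] {T : LTree Ω}
    (F : Flt (O := O) (B := B) T)

private theorem inv_cover {b : O} {M : Set O} {d : Ω} {c : ℕ → O} {τ : ℕ → Tsk O Ω B} {q : B}
    {σ : ℕ → B → Finset ℕ → B} (h : F.FusR b M d c τ q σ) (m : ℕ) {e : B} (he : e ≠ ⊥)
    (heq : e ≤ q) : ∃ p y, e ⊓ σ m p y ≠ ⊥ := by
  obtain ⟨p, hp⟩ := ne_of_iSup' he (heq.trans (h.le m))
  obtain ⟨y, hy⟩ := ne_of_iSup' hp (inf_le_right : e ⊓ (⨆ y, σ m p y) ≤ ⨆ y, σ m p y)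
  refine ⟨p, y, fun h0 => hy ?_⟩
  rw [← le_bot_iff, ← h0]
  exact inf_le_inf_right _ inf_le_left

theorem fus_next {b : O} {M : Set O} {d : Ω} {c : ℕ → O} {τ : ℕ → Tsk O Ω B} {q : B}
    {σ : ℕ → B → Finset ℕ → B} (h : F.FusR b M d c τ q σ) {n m : ℕ} (hnm : n ≤ m) {p : B}
    {y : Finset ℕ} {e : B} (he : e ≠ ⊥) (heq : e ≤ q) (hes : e ≤ σ n p y) :
    ∃ e' ≤ e, e' ≠ ⊥ ∧ ∃ p' y', e' ≤ σ m p' y' ∧ p' ≤ p ∧ y ⊆ y' := by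
  induction m, hnm using Nat.le_induction with
  | base => exact ⟨e, le_rfl, he, p, y, hes, le_rfl, subset_rfl⟩
  | succ m hm ih =>
    obtain ⟨e1, he1, hne1, p1, y1, hσ1, hp1, hy1⟩ := ih
    obtain ⟨p2, y2, h2⟩ := F.inv_cover h (m + 1) hne1 (he1.trans heq)
    obtain ⟨e3, he3, hne3, hp3, hy3, -⟩ := h.tr m p1 y1 p2 y2 (e1 ⊓ σ (m + 1) p2 y2) h2
      (inf_le_left.trans hσ1) inf_le_right
    exact ⟨e3, he3.trans (inf_le_left.trans he1), hne3, p2, y2, he3.trans inf_le_right,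
      hp3.trans hp1, hy1.trans hy3⟩

theorem fus_le {a b : O} {M : Set O} {d : Ω} {c : ℕ → O} {τ : ℕ → Tsk O Ω B} {q : B}
    {σ : ℕ → B → Finset ℕ → B} (hc : F.Ctx a b M d c) (h : F.FusR b M d c τ q σ) (n : ℕ) (p : B)
    (y : Finset ℕ) : q ⊓ σ n p y ≤ p := by
  by_contra hcon
  have he : q ⊓ σ n p y ⊓ pᶜ ≠ ⊥ := by
    intro h0
    exact hcon (disjoint_compl_right_iff.1 (disjoint_iff.2 h0))
  have hσ : σ n p y ≠ ⊥ := by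
    intro h0
    apply he
    rw [h0, inf_bot_eq, bot_inf_eq]
  obtain ⟨-, -, hinf⟩ := h.dt n p y hσ
  have h1 : q ⊓ σ n p y ⊓ pᶜ ≤ ⨆ m, (F.pr (c m) p)ᶜ := by
    rw [← compl_iInf]
    exact inf_le_right.trans (compl_le_compl hinf)
  obtain ⟨m, hm⟩ := ne_of_iSup' he h1
  obtain ⟨e2, he2, hne2, p', y', hσ2, hp2, -⟩ := F.fus_next h (le_max_right m n) hm
    (inf_le_left.trans (inf_le_left.trans inf_le_left))
    (inf_le_left.trans (inf_le_left.trans inf_le_right))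
  apply hne2
  rw [← le_bot_iff, ← inf_compl_eq_bot (a := F.pr (c m) p)]
  refine le_inf ?_ (he2.trans inf_le_right)
  calc e2 ≤ σ (max m n) p' y' := hσ2
    _ ≤ F.pr (c (max m n)) p' := (h.ok _ p' y').pr
    _ ≤ F.pr (c (max m n)) p := F.pr_mono hp2
    _ ≤ F.pr (c m) p := F.pr_anti (hc.mono.monotone (le_max_left m n)) p

theorem fus_y {b : O} {M : Set O} {d : Ω} {c : ℕ → O} {τ : ℕ → Tsk O Ω B} {q : B}
    {σ : ℕ → B → Finset ℕ → B} (h : F.FusR b M d c τ q σ) {k : ℕ} (t : Fin k → ℕ) {e : B}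
    (he : e ≠ ⊥) (heq : e ≤ q) (hes : ∀ i, e ≤ ⨆ m, ⨆ p, ⨆ y, ⨆ _ : t i ∈ y, σ m p y) :
    ∃ (N : ℕ), ∃ e' ≤ e, e' ≠ ⊥ ∧ ∀ m, N ≤ m → ∀ e'' ≤ e', e'' ≠ ⊥ →
      ∃ p y, e'' ⊓ σ m p y ≠ ⊥ ∧ ∀ i, t i ∈ y := by
  classical
  have key : ∀ s : Finset (Fin k), ∃ e' ≤ e, e' ≠ ⊥ ∧ ∀ i ∈ s, ∃ m p y, e' ≤ σ m p y ∧ t i ∈ y := by
    intro s
    induction s using Finset.induction_on with
    | empty => exact ⟨e, le_rfl, he, fun i hi => absurd hi (Finset.notMem_empty i)⟩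
    | insert i s hi ih =>
      obtain ⟨e1, he1, hne1, h1⟩ := ih
      obtain ⟨m, hm⟩ := ne_of_iSup' hne1 (he1.trans (hes i))
      obtain ⟨p, hp⟩ := ne_of_iSup' hm
        (inf_le_right : e1 ⊓ (⨆ p, ⨆ y, ⨆ _ : t i ∈ y, σ m p y) ≤ _)
      obtain ⟨y, hyt, hy⟩ := ne_of_iSup hp
        (inf_le_right : e1 ⊓ (⨆ p, ⨆ y, ⨆ _ : t i ∈ y, σ m p y) ⊓
          (⨆ y, ⨆ _ : t i ∈ y, σ m p y) ≤ _)
      have hle : e1 ⊓ (⨆ p, ⨆ y, ⨆ _ : t i ∈ y, σ m p y) ⊓ (⨆ y, ⨆ _ : t i ∈ y, σ m p y) ⊓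
          σ m p y ≤ e1 := inf_le_left.trans (inf_le_left.trans inf_le_left)
      refine ⟨_, hle.trans he1, hy, fun j hj => ?_⟩
      rcases Finset.mem_insert.1 hj with rfl | hj
      · exact ⟨m, p, y, inf_le_right, hyt⟩
      · obtain ⟨m', p', y', h2, h3⟩ := h1 j hj
        exact ⟨m', p', y', hle.trans h2, h3⟩
  obtain ⟨e', he', hne', h1⟩ := key Finset.univ
  choose m p y hσ ht using fun i => h1 i (Finset.mem_univ i)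
  refine ⟨Finset.univ.sup m, e', he', hne', fun m' hm' e'' he'' hne'' => ?_⟩
  obtain ⟨p0, y0, h0⟩ := F.inv_cover h m' hne'' (he''.trans (he'.trans heq))
  refine ⟨p0, y0, h0, fun i => ?_⟩
  obtain ⟨e2, he2, hne2, p', y', hσ2, -, hy2⟩ := F.fus_next h
    ((Finset.le_sup (Finset.mem_univ i)).trans hm' : m i ≤ m') h0
    (inf_le_left.trans (he''.trans (he'.trans heq)))
    (inf_le_left.trans (he''.trans (hσ i)))
  by_cases hcase : p' ≠ p0 ∨ y' ≠ y0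
  · exfalso
    apply hne2
    rw [← le_bot_iff, ← h.dj m' p' y' p0 y0 hcase]
    exact le_inf hσ2 (he2.trans inf_le_right)
  · push Not at hcase
    rw [← hcase.2]
    exact hy2 (ht i)

end Flt

end Pool.Agent.BPF
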