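import Pool.Agent.Lib.MP_11349d_lc.I.FL
import Pool.Agent.Lib.MP_11349d_lc.I.AsG
import Pool.Agent.Lib.MP_11349d_lc.I.AsY
import Pool.Agent.Lib.MP_11349d_lc.I.Cof

/-!
# Lim: the induction step, limit case

PROOF. For club many `M` (`ev_cof`, `ev_enu`, `ev_refine hb`, `exists_fusR`, `fus_nice`, `ev_mem (F.cS {⊤})`, `ev_mem a`, `ev_mem b`,
`ev_countable`). Let `d`, `p ∈ S b`, `cb p ∈ M`, `y`, `q` be as in `IHM`. The first part is vacuous (`Lm b`). Second part: take `c` from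
`ev_cof`, `τ` from `ev_enu`. `ev_refine` with `g = a`, `x = p`, `E = {⊤}`, `q` (`q ⊓ pr a p = q ≠ ⊥`): `p' ≤ p`, `Dt b M c p'` by `dt_of`,
`q0 = q ⊓ pr a p' ≠ ⊥`. `OkS M d c 0 p' y q0` (`c 0 = a`). `exists_fusR`: `r`, `σ`, `pr a r = q0`, so `r ≠ ⊥` (`pr_eq_bot`), `r ∈ S b`,
`r ≤ q0 ≤ q`. `r ≤ ⨆ p, ⨆ y, σ 0 p y ≤ σ 0 p' y`, so `r = r ⊓ σ 0 p' y ≤ p' ≤ p` (`fus_le`). `Gen b M r`: `fus_gen`. Side condition: `N : ℕ → O` with
range `{z ∈ M | z < h b}` (countable, nonempty: `a < b < h b`), `x = ⟨d, N, fun j => r ⊓ ⨆ ..⟩`. `IsSide`: `Y` in `S b` by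
`inf_mem`, `iSup_mem`, `F.mono` (`σ m p y ∈ S (c m) ⊆ S b`). `fus_nice`. For `n ∈ y`: `r ≤ r ⊓ σ 0 p' y ≤ x.Y n`.
-/

set_option autoImplicit false

namespace Pool.Agent.BPF

open Cardinal Pool.Agent.CSI

namespace Flt

variable {O Ω B : Type} [LinearOrder O] [WellFoundedLT O] [LinearOrder Ω] [WellFoundedLT Ω]
    [OrderBot O] [OrderBot Ω] [CompleteBooleanAlgebra B] {T : LTree Ω}
    (F : Flt (O := O) (B := B) T)

theorem ih_lim (hΩ : IsOm1 Ω) (hO : IsKap O) {a b : O} (ha : ¬ Lm a) (hb : Lm b) (hab : a < b)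
    (hI : ∀ x z, ¬ Lm x → x < z → z < b → F.IH x z) : F.IH a b := by
  unfold IH
  filter_upwards [F.ev_cof hb ha hab, F.ev_enu b, F.ev_refine hb,
    F.exists_fusR hΩ hO (a := a) hb hI, F.fus_nice hΩ hO (a := a) hb, ev_mem (F.cS {⊤}),
    ev_mem a, ev_countable] with M h1 h2 h3 h4 h5 h6 h7 h9 d hd p hp hpM y q hq hq0 hqp
    hqg hqc
  refine ⟨fun h => absurd hb h, fun _ => ?_⟩
  obtain ⟨c, hc⟩ := h1 d hd
  obtain ⟨τ, hτ⟩ := h2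
  have hE : ({⊤} : Set B) ⊆ F.S b := by
    rintro _ rfl
    exact F.top_mem b
  obtain ⟨p', hp', hp'M, hp'p, -, hne, c', hc'⟩ := h3 a h7 hab p hp hpM {⊤} hE h6 q hqg
    (by rw [inf_eq_left.2 hqp]; exact hq0)
  have hdt : F.Dt b M c p' := F.dt_of hc hp' hp'M ⟨c', hc'⟩
  have hok : F.OkS M d c 0 p' y (q ⊓ F.pr a p') := by
    refine ⟨?_, ?_, ?_, ?_⟩
    · rw [hc.c0]
      exact F.inf_mem hq (F.pr_mem _ _)
    · rw [hc.c0]
      exact inf_le_right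
    · rw [hc.c0]
      exact F.gen_mono inf_le_left hqg
    · rw [hc.c0]
      exact inf_le_left.trans hqc
  obtain ⟨r, σ, hf, hr1, hr2, hr3⟩ := h4 d c hc τ hτ p' y _ hdt hok
  have hr0 : r ≠ ⊥ := fun h => hne (by rw [← hr1, h]; exact F.pr_eq_bot.2 rfl)
  have hr4 : r ≤ σ 0 p' y := by
    refine (hf.le 0).trans (iSup_le fun p'' => iSup_le fun y'' => ?_)
    by_cases h : σ 0 p'' y'' = ⊥
    · rw [h]
      exact bot_le
    · obtain ⟨e1, e2⟩ := hr3 p'' y'' h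
      rw [e1, e2]
  have hrp : r ≤ p' := by
    have := F.fus_le hc hf 0 p' y
    rwa [inf_eq_left.2 hr4] at this
  have hlt : b < F.h b := (F.bd b hb).lt
  obtain ⟨N, hN⟩ := (h9.mono (fun z hz => hz.1 : {z | z ∈ M ∧ z < F.h b} ⊆ M)).exists_eq_range
    ⟨a, h7, hab.trans hlt⟩
  refine ⟨r, hf.mem, hr0, hrp.trans hp'p, hr2.trans inf_le_left, F.fus_gen hc hτ hf,
    ⟨d, N, fun j => r ⊓ ⨆ m, ⨆ p, ⨆ y, ⨆ _ : j ∈ y, σ m p y⟩, ⟨hN.symm, hd, ?_⟩,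
    h5 d c hc τ hτ r σ hf N hN.symm, ?_⟩
  · intro n
    exact F.inf_mem hf.mem (F.iSup_mem fun m => F.iSup_mem fun p => F.iSup_mem fun y =>
      F.iSup_mem fun _ => F.mono (c m) b (hc.clt m).le (hf.ok m p y).mem)
  · intro n hn
    exact le_inf le_rfl (hr4.trans (le_iSup_of_le 0 (le_iSup_of_le p' (le_iSup_of_le y
      (le_iSup_of_le hn le_rfl)))))

end Flt

end Pool.Agent.BPF
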