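import Pool.Agent.Lib.MP_11349d_lc.I.Cof
import Pool.Agent.Lib.MP_11349d_lc.I.Mb

/-!
# Nxt: the induction step at the successor of a non-limit stage

PROOF. For club many `M`: `F.prp c c' hc hcc` at `M`, `F.IHM a c M` if `a < c`, `F.cb (pr c p) ∈ M` for `cb p ∈ M` (`ev_f1`). Let `d, p, y, q` be
as in `IHM a c'`. `c'` is not a limit (`sc_nl`), so only the first part is to be shown. If `a < c`: `IHM a c` for `pr c p`
(`q ≤ pr a p = pr a (pr c p)`, `pr_pr`) gives `r0 ∈ S c`, nonzero, `≤ pr c p`, `≤ q`, `Gen c M r0`, `r0 ≤ Cap c M d y`. If `a = c`: `r0 = q`.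
`F.prp` for `p`, `r0` gives `r ∈ S c'` nonzero, `r ≤ p`, `r ≤ r0`, `Gen c' M r`. `Cap c M d y ≤ Cap c' M d y`: for `C` in `S c`,
`C` is in `S c'` (`F.mono`) and `Perp c C = Perp c' C`, because for a limit `e`: `e < c'` iff `e < c` (`e ≤ c` by `Sc`, `e ≠ c`).
-/

set_option autoImplicit false

namespace Pool.Agent.BPF

open Cardinal Pool.Agent.CSI

namespace Flt

variable {O Ω B : Type} [LinearOrder O] [WellFoundedLT O] [LinearOrder Ω] [WellFoundedLT Ω]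
    [OrderBot O] [OrderBot Ω] [CompleteBooleanAlgebra B] {T : LTree Ω}
    (F : Flt (O := O) (B := B) T)

omit [WellFoundedLT O] [OrderBot Ω] [OrderBot O] [WellFoundedLT Ω] in
private theorem lm_lt_iff {c c' : O} (hc : ¬ Lm c) (hcc : Sc c c') {e : O} (he : Lm e) :
    e < c' ↔ e < c := by
  refine ⟨fun h => ?_, fun h => h.trans hcc.1⟩
  rcases lt_trichotomy e c with h1 | h1 | h1
  · exact h1
  · exact absurd (h1 ▸ he) hc
  · exact absurd h (not_lt.2 (hcc.2 e h1))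

private theorem perp_eq {c c' : O} (hc : ¬ Lm c) (hcc : Sc c c') (C : Ω → ℕ → B) :
    Perp T F.toDat c' C = Perp T F.toDat c C := by
  unfold Perp
  congr 1
  refine iInf_congr fun e => ?_
  refine iInf_congr_Prop ⟨fun h => ⟨h.1, (lm_lt_iff hc hcc h.1).1 h.2⟩,
    fun h => ⟨h.1, (lm_lt_iff hc hcc h.1).2 h.2⟩⟩ fun _ => rfl

private theorem cap_le {c c' : O} (hc : ¬ Lm c) (hcc : Sc c c') (M : Set O) (d : Ω)
    (y : Finset ℕ) : F.Cap c M d y ≤ F.Cap c' M d y := by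
  unfold Cap
  refine iSup_mono fun C => iSup_le fun hC => ?_
  refine le_iSup_of_le ⟨hC.1, fun ξ n => F.mono c c' hcc.1.le (hC.2 ξ n)⟩ ?_
  rw [F.perp_eq hc hcc C]

theorem ih_nxt {a c c' : O} (hc : ¬ Lm c) (hcc : Sc c c') (hac : a ≤ c) (hI : a < c → F.IH a c) :
    F.IH a c' := by
  have key : ∀ M : Set O, (∀ d : Ω, (∀ ξ, F.o ξ ∈ M ↔ ξ < d) → ∀ p ∈ F.S c', F.cb p ∈ M →
      ∀ y : Finset ℕ, ∀ q ∈ F.S a, q ≠ ⊥ → q ≤ F.pr a p → F.Gen a M q → q ≤ F.Cap a M d y →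
      ∃ r0 ∈ F.S c, r0 ≠ ⊥ ∧ r0 ≤ F.pr c p ∧ r0 ≤ q ∧ F.Gen c M r0 ∧ r0 ≤ F.Cap c M d y) →
      (∀ p ∈ F.S c', F.cb p ∈ M → ∀ q ∈ F.S c, q ≠ ⊥ → q ≤ BPF.pr F.toDat c p →
        (∀ E ⊆ F.S c, F.cS E ∈ M → q ⊓ sSup E ≤ sSup {e | e ∈ E ∧ F.cb e ∈ M}) →
        ∃ r ∈ F.S c', r ≠ ⊥ ∧ r ≤ p ∧ r ≤ q ∧
          ∀ E ⊆ F.S c', F.cS E ∈ M → r ⊓ sSup E ≤ sSup {e | e ∈ E ∧ F.cb e ∈ M}) →
      F.IHM a c' M := by
    intro M h0 h1 d hd p hp hpM y q hq hq0 hqp hg hcap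
    refine ⟨fun _ => ?_, fun hl => absurd hl (sc_nl hcc)⟩
    obtain ⟨r0, g1, g2, g3, g4, g5, g6⟩ := h0 d hd p hp hpM y q hq hq0 hqp hg hcap
    obtain ⟨r, k1, k2, k3, k4, k5⟩ := h1 p hp hpM r0 g1 g2 g3 g5
    exact ⟨r, k1, k2, k3, k4.trans g4, k5, (k4.trans g6).trans (F.cap_le hc hcc M d y)⟩
  rcases hac.lt_or_eq with h | h
  · filter_upwards [F.prp c c' hc hcc, hI h, ev_f1 F.cb_inj F.cb (F.pr c)] with M h1 h2 h3
    refine key M (fun d hd p hp hpM y q hq hq0 hqp hg hcap => ?_) h1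
    exact (h2 d hd (F.pr c p) (F.pr_mem c p) (h3 p hpM) y q hq hq0
      (by rw [F.pr_pr hac]; exact hqp) hg hcap).1 hc
  · subst h
    filter_upwards [F.prp a c' hc hcc] with M h1
    exact key M (fun d hd p hp hpM y q hq hq0 hqp hg hcap =>
      ⟨q, hq, hq0, hqp, le_rfl, hg, hcap⟩) h1

end Flt

end Pool.Agent.BPF
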