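import Pool.Agent.Lib.MP_11349d_lc.I.Lim
import Pool.Agent.Lib.MP_11349d_lc.I.Nxt

/-!
# Mn: the main statement

PROOF. Strong induction on `c` (`WellFounded.induction wellFounded_lt`), for all `a`. If `Lm c`: `ih_lim`. Otherwise, as `a < c`, `c`
is the successor of some `l` (`¬ Lm c` gives `l < c` without elements strictly between: `Sc l c`); `a ≤ l`. If `¬ Lm l`:
`ih_nxt`. If `Lm l`: `a ≠ l`, so `a < l`, `ih_succ_lim` with `IH ⊥ l` (`⊥ ≤ a < l`, `¬ Lm ⊥`) and `IH a l`.
-/

set_option autoImplicit false

namespace Pool.Agent.BPF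

open Cardinal Pool.Agent.CSI

namespace Flt

variable {O Ω B : Type} [LinearOrder O] [WellFoundedLT O] [LinearOrder Ω] [WellFoundedLT Ω]
    [OrderBot O] [OrderBot Ω] [CompleteBooleanAlgebra B] {T : LTree Ω}
    (F : Flt (O := O) (B := B) T)

theorem ih_all (hΩ : IsOm1 Ω) (hO : IsKap O) : ∀ a c, ¬ Lm a → a < c → F.IH a c := by
  intro a c
  revert a
  induction c using WellFoundedLT.induction with
  | ind c ih =>
    intro a ha hac
    by_cases hc : Lm c
    · exact F.ih_lim hΩ hO ha hc hac fun x z hx hxz hzc => ih z hzc x hx hxz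
    · have hex : ∃ l, Sc l c := by
        by_contra hn
        push Not at hn
        apply hc
        refine ⟨⟨a, hac⟩, fun e he => ?_⟩
        by_contra hd
        push Not at hd
        exact hn e ⟨he, hd⟩
      obtain ⟨l, hl⟩ := hex
      have hal : a ≤ l := by
        by_contra h
        push Not at h
        exact absurd (hl.2 a h) (not_le.2 hac)
      by_cases hll : Lm l
      · have hne : a ≠ l := by
          rintro rfl
          exact ha hll
        have hal' : a < l := lt_of_le_of_ne hal hne
        have hbot : ¬ Lm (⊥ : O) := by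
          intro h
          obtain ⟨x, hx⟩ := h.1
          exact not_lt_bot hx
        exact F.ih_succ_lim hΩ hO ha hal' hll hl (ih l hl.1 ⊥ hbot (bot_le.trans_lt hal'))
          (ih l hl.1 a ha hal')
      · exact F.ih_nxt hll hl hal fun h => ih l hl.1 a ha h

end Flt

end Pool.Agent.BPF
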