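import Pool.Agent.Lib.MP_11349d_lc.Ifc
import Pool.Agent.Lib.CSI.Club

/-!
# Prj: projection of the club filter; clubs

PROOF of `clubF_proj`. Let `F : List W → Set W` witness `h` (`ev_iff`). For `N ⊆ U` let `cl N` be the closure of `j '' N` under `F`
(smallest set `⊇ j '' N` with `F l ⊆ cl N` for lists `l` from it; as `⋃ n` of `hullSeq F (j '' N) n`, Club.lean). For a list `l : List U` let
`G l = j ⁻¹' (cl {x | x ∈ l})`, countable (`cl` of a finite set is countable: `hullSeq`, `exists_of_ev` contain this argument; `j` is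
injective). If `N` is `Cls G`, then `N' = cl N` is countable and closed under `F`, so `Ψ N'`; `j ⁻¹' N' = N`: `⊇` clear; every element of
`cl N` is in `cl {x | x ∈ l}` for a finite list `l` from `N` (induction on `n` in `hullSeq`: a list of elements of stage `n` uses
finitely many lists, append them; `cl` is monotone), so `j x ∈ cl N` implies `x ∈ G l ⊆ N`.

PROOF of `ev_of_isClub`. For `l : List U` choose `c l ∈ C` with `{x | x ∈ l} ⊆ c l` and `c t ⊆ c (x :: t)` (recursion on the list: `c (x :: t)` is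
a member of `C` above the countable set `{x} ∪ c t ∪ {y | y ∈ t}`, `IsClub.unb`). Let `F l = c l` (countable). If `N` is `Cls F`: if `N = ∅`,
`c [] ⊆ ∅`, so `∅ ∈ C`. Otherwise `N = Set.range f`, `f : ℕ → U`; with `l n = [f (n-1), ..., f 0]` (`l 0 = []`, `l (n+1) = f n :: l n`) the sets
`c (l n)` increase, are contained in `N` and cover it, so `N = ⋃ n, c (l n) ∈ C`.
`isClub_of_ev`: `C = {N | Cls F N}`; `unb`: `exists_of_ev`; `cls`: a list from an increasing union lies in one of the sets.
-/

set_option autoImplicit false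

namespace Pool.Agent.BPF

open Cardinal Pool.Agent.CSI

private theorem prj_mono_n {W : Type} (F : List W → Set W) (A : Set W) {n m : ℕ} (h : n ≤ m) :
    hullSeq F A n ⊆ hullSeq F A m := by
  induction h with
  | refl => exact subset_rfl
  | step _ ih => exact ih.trans Set.subset_union_left

private theorem prj_mono {W : Type} (F : List W → Set W) {A A' : Set W} (h : A ⊆ A') (n : ℕ) :
    hullSeq F A n ⊆ hullSeq F A' n := by
  induction n with
  | zero => exact h
  | succ n ih =>
    refine Set.union_subset_union ih ?_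
    refine Set.biUnion_subset_biUnion_left ?_
    intro l hl x hx
    exact ih (hl x hx)

private theorem prj_cnt {W : Type} (F : List W → Set W) (hF : ∀ l, (F l).Countable) {A : Set W}
    (hA : A.Countable) (n : ℕ) : (hullSeq F A n).Countable := by
  induction n with
  | zero => exact hA
  | succ n ih =>
    refine ih.union (Set.Countable.biUnion ?_ fun l _ => hF l)
    have hcn : Countable {x // x ∈ hullSeq F A n} := ih.to_subtype
    have hcl : Countable (List {x // x ∈ hullSeq F A n}) := List.countable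
    have hr : {l : List W | ∀ x ∈ l, x ∈ hullSeq F A n} =
        Set.range (List.map (Subtype.val : {x // x ∈ hullSeq F A n} → W)) := by
      ext l
      constructor
      · intro hl
        refine ⟨l.pmap (fun x hx => ⟨x, hx⟩) hl, ?_⟩
        rw [List.map_pmap]
        simp
      · rintro ⟨l', rfl⟩ x hx
        obtain ⟨y, _, rfl⟩ := List.mem_map.1 hx
        exact y.2
    rw [hr]
    exact Set.countable_range _

private theorem prj_list {W : Type} {c : ℕ → Set W} (hc : ∀ n m, n ≤ m → c n ⊆ c m) (l : List W)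
    (hl : ∀ x ∈ l, x ∈ ⋃ n, c n) : ∃ n, ∀ x ∈ l, x ∈ c n := by
  induction l with
  | nil => exact ⟨0, by simp⟩
  | cons a l ih =>
    obtain ⟨n, hn⟩ := ih fun x hx => hl x (List.mem_cons_of_mem _ hx)
    obtain ⟨m, hm⟩ := Set.mem_iUnion.1 (hl a List.mem_cons_self)
    refine ⟨max n m, fun x hx => ?_⟩
    rcases List.mem_cons.1 hx with rfl | hx
    · exact hc _ _ (le_max_right _ _) hm
    · exact hc _ _ (le_max_left _ _) (hn x hx)

private theorem prj_closed {W : Type} (F : List W → Set W) (A : Set W) (l : List W)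
    (hl : ∀ x ∈ l, x ∈ ⋃ n, hullSeq F A n) : F l ⊆ ⋃ n, hullSeq F A n := by
  obtain ⟨n, hn⟩ := prj_list (fun n m => prj_mono_n F A) l hl
  refine Set.Subset.trans ?_ (Set.subset_iUnion _ (n + 1))
  exact (Set.subset_biUnion_of_mem (u := fun l => F l)
    (show l ∈ {l : List W | ∀ x ∈ l, x ∈ hullSeq F A n} from hn)).trans Set.subset_union_right

private theorem prj_fin {U W : Type} (j : U → W) (F : List W → Set W) (N : Set U) (n : ℕ) (x : W)
    (hx : x ∈ hullSeq F (j '' N) n) :
    ∃ l : List U, (∀ u ∈ l, u ∈ N) ∧ x ∈ hullSeq F (j '' {u | u ∈ l}) n := by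
  induction n generalizing x with
  | zero =>
    obtain ⟨u, hu, rfl⟩ := hx
    exact ⟨[u], by simpa using hu, u, by simp, rfl⟩
  | succ n ih =>
    rcases hx with hx | hx
    · obtain ⟨l, hl, hxl⟩ := ih x hx
      exact ⟨l, hl, Or.inl hxl⟩
    · obtain ⟨l', hl', hxl⟩ := Set.mem_iUnion₂.1 hx
      have key : ∀ l' : List W, (∀ y ∈ l', y ∈ hullSeq F (j '' N) n) →
          ∃ l : List U, (∀ u ∈ l, u ∈ N) ∧ ∀ y ∈ l', y ∈ hullSeq F (j '' {u | u ∈ l}) n := by
        intro l'
        induction l' with
        | nil => intro _; exact ⟨[], by simp, by simp⟩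
        | cons a l' ih' =>
          intro h
          obtain ⟨l₁, h1, h2⟩ := ih' fun y hy => h y (List.mem_cons_of_mem _ hy)
          obtain ⟨l₂, h3, h4⟩ := ih a (h a List.mem_cons_self)
          refine ⟨l₁ ++ l₂, ?_, ?_⟩
          · intro u hu
            rcases List.mem_append.1 hu with hu | hu
            · exact h1 u hu
            · exact h3 u hu
          · intro y hy
            rcases List.mem_cons.1 hy with rfl | hy
            · refine prj_mono F (Set.image_mono ?_) n h4
              intro u hu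
              exact List.mem_append.2 (Or.inr hu)
            · refine prj_mono F (Set.image_mono ?_) n (h2 y hy)
              intro u hu
              exact List.mem_append.2 (Or.inl hu)
      obtain ⟨l, h1, h2⟩ := key l' hl'
      exact ⟨l, h1, Or.inr (Set.mem_iUnion₂.2 ⟨l', h2, hxl⟩)⟩

theorem clubF_proj {U W : Type} {j : U → W} (hj : Function.Injective j) {Ψ : Set W → Prop}
    (h : ∀ᶠ N in clubF W, Ψ N) : ∀ᶠ N in clubF U, ∃ N', Ψ N' ∧ j ⁻¹' N' = N := by
  obtain ⟨F, hF, hM⟩ := ev_iff.1 h
  refine ev_iff.2 ⟨fun l => j ⁻¹' (⋃ n, hullSeq F (j '' {u | u ∈ l}) n), fun l => ?_,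
    fun N hN => ⟨⋃ n, hullSeq F (j '' N) n, hM _ ⟨?_, prj_closed F _⟩, ?_⟩⟩
  · refine Set.Countable.preimage (Set.countable_iUnion fun n => prj_cnt F hF ?_ n) hj
    exact (List.finite_toSet l).countable.image j
  · exact Set.countable_iUnion fun n => prj_cnt F hF (hN.1.image j) n
  · ext u
    constructor
    · intro hu
      obtain ⟨n, hn⟩ := Set.mem_iUnion.1 hu
      obtain ⟨l, hl, hl'⟩ := prj_fin j F N n _ hn
      exact hN.2 l hl (Set.mem_iUnion.2 ⟨n, hl'⟩)
    · intro hu
      exact Set.mem_iUnion.2 ⟨0, u, hu, rfl⟩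

theorem ev_of_isClub {U : Type} {C : Set (Set U)} (hC : IsClub C) : ∀ᶠ N in clubF U, N ∈ C := by
  choose g hgC hgs using hC.unb
  let c : List U → {c : Set U // c ∈ C} := fun l =>
    List.rec (motive := fun _ => {c : Set U // c ∈ C}) ⟨g ∅ Set.countable_empty, hgC _ _⟩
      (fun x _ ih => ⟨g ({x} ∪ ih.1) ((Set.countable_singleton x).union (hC.cnt _ ih.2)),
        hgC _ _⟩) l
  have hc1 : ∀ x t, x ∈ (c (x :: t)).1 := fun x t =>
    hgs _ ((Set.countable_singleton x).union (hC.cnt _ (c t).2)) (Or.inl rfl)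
  have hc2 : ∀ x t, (c t).1 ⊆ (c (x :: t)).1 := fun x t y hy =>
    hgs _ ((Set.countable_singleton x).union (hC.cnt _ (c t).2)) (Or.inr hy)
  refine ev_iff.2 ⟨fun l => (c l).1, fun l => hC.cnt _ (c l).2, fun N hN => ?_⟩
  rcases N.eq_empty_or_nonempty with h0 | h0
  · have h1 : (c []).1 ⊆ N := hN.2 [] (by simp)
    rw [h0, Set.subset_empty_iff] at h1
    rw [h0, ← h1]
    exact (c []).2
  · obtain ⟨f, rfl⟩ := hN.1.exists_eq_range h0
    let l : ℕ → List U := fun n => Nat.rec [] (fun n l => f n :: l) n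
    have hl : ∀ n, ∀ x ∈ l n, x ∈ Set.range f := by
      intro n
      induction n with
      | zero =>
        intro x hx
        exact absurd hx List.not_mem_nil
      | succ n ih =>
        intro x hx
        rcases List.mem_cons.1 (show x ∈ f n :: l n from hx) with rfl | hx
        · exact ⟨n, rfl⟩
        · exact ih x hx
    have h2 : Set.range f = ⋃ n, (c (l n)).1 := by
      apply Set.Subset.antisymm
      · rintro _ ⟨n, rfl⟩
        exact Set.mem_iUnion.2 ⟨n + 1, hc1 (f n) (l n)⟩
      · exact Set.iUnion_subset fun n => hN.2 (l n) (hl n)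
    rw [h2]
    exact hC.cls _ (fun n => (c (l n)).2) (fun n => hc2 (f n) (l n))

theorem isClub_of_ev {U : Type} {Φ : Set U → Prop} (h : ∀ᶠ N in clubF U, Φ N) :
    ∃ C : Set (Set U), IsClub C ∧ ∀ N ∈ C, Φ N := by
  obtain ⟨F, hF, hM⟩ := ev_iff.1 h
  refine ⟨{N | Cls F N}, ⟨fun c hc => hc.1, fun x hx => ?_, fun c hc hcc => ⟨?_, ?_⟩⟩,
    fun N hN => hM N hN⟩
  · obtain ⟨M, h1, -, h3⟩ := exists_of_ev (Φ := Cls F) (ev_iff.2 ⟨F, hF, fun M hM => hM⟩) hx
    exact ⟨M, h3, h1⟩
  · exact Set.countable_iUnion fun n => (hc n).1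
  · intro l hl
    obtain ⟨n, hn⟩ := prj_list (fun n m hnm => monotone_nat_of_le_succ (f := c) hcc hnm) l hl
    exact ((hc n).2 l hn).trans (Set.subset_iUnion _ n)

end Pool.Agent.BPF
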