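import Pool.Agent.Lib.MP_11349d_lc.I.Top

/-!
# Reg: omega_1 is regular

PROOF. Suppose `e = (⨅ n, ⨆ ξ, c n ξ) ⊓ (⨆ ξ, ⨅ n, c n ξ)ᶜ ≠ ⊥`. `ev_top` with `a = ⊥` (`¬ Lm ⊥`), and for club many `M` : `cb e ∈ M`, some `g ∈ M`
with all values `c n ξ ∈ S g` (`gen_bd` below, `ev_mem g`), and for each `n` (`ev_all`) the conclusion of `F.ev_iSup F.o (c n)`, and `d`
with `F.o ξ ∈ M ↔ ξ < d` (`ev_delta`). `q = ⊤`: `⊤ ∈ S ⊥`, `⊤ ≤ pr ⊥ e` (`pr ⊥ e ∈ S ⊥` is `⊥` or `⊤`, `F.bot`, `pr_eq_bot`), `Gen ⊥ M ⊤`: for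
`E ⊆ S ⊥ ⊆ {⊥, ⊤}` with `cS E ∈ M`: if `⊤ ∈ E` one needs `cb ⊤ ∈ M` (`ev_mem`), otherwise `sSup E = ⊥`. So there is `r ≠ ⊥`, `r ≤ e`, `Gen g M r`.
`r ≤ ⨆ ξ, c n ξ` gives `r ≤ ⨆ ξ, ⨆ _ : F.o ξ ∈ M, c n ξ ≤ c n d` (monotone). So `r ≤ ⨅ n, c n d`, contradiction.
`gen_bd`: the values of `c` are contained in some `S g`: for each `(n, ξ)` choose a stage; the set of these stages has
cardinality `≤ #(ℕ × Ω) < #O` (`#Ω ≤ ℵ₁`: `IsOm1`; `hO.om1`), so it is bounded (`hO.bdd`), `F.mono`.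
`card_om1`: all proper initial segments of `Ω` are countable, so `#Ω ≤ ℵ₁` (if `ℵ₁ < #Ω`, e.g. use `Ordinal.type` : the order type
of `Ω` is `≤ ω₁` because every `Ordinal.typein` is countable; `Cardinal.mk_le_aleph...`; or search Mathlib for
`Cardinal.ord_aleph`, `Ordinal.card_le_of_le_ord`).
-/

set_option autoImplicit false

namespace Pool.Agent.BPF

open Cardinal Pool.Agent.CSI

namespace Flt

variable {O Ω B : Type} [LinearOrder O] [WellFoundedLT O] [LinearOrder Ω] [WellFoundedLT Ω]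
    [OrderBot O] [OrderBot Ω] [CompleteBooleanAlgebra B] {T : LTree Ω}
    (F : Flt (O := O) (B := B) T)

omit [WellFoundedLT O] [OrderBot O] [OrderBot Ω] in
theorem card_om1 {Ω : Type} [LinearOrder Ω] [WellFoundedLT Ω] (hΩ : IsOm1 Ω) : #Ω ≤ ℵ₁ := by
  by_contra h
  rw [not_le] at h
  have h1 : (ℵ₁ : Cardinal.{0}).ord < Ordinal.type (fun a b : Ω => a < b) :=
    (Cardinal.ord_lt_ord.2 h).trans_le (Cardinal.ord_le_type _)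
  obtain ⟨ξ, hξ⟩ := Ordinal.typein_surj (fun a b : Ω => a < b) h1
  have h2 := congrArg Ordinal.card hξ
  rw [Ordinal.card_typein, Cardinal.card_ord] at h2
  have h3 : #{y : Ω // y < ξ} ≤ ℵ₀ := (Cardinal.mk_le_aleph0_iff).2 (hΩ.cnt ξ).to_subtype
  rw [h2] at h3
  exact absurd h3 (not_le.2 Cardinal.aleph0_lt_aleph_one)

theorem gen_bd (hO : IsKap O) {X : Type} (hX : #X < #O) (f : X → B) : ∃ g, ∀ x, f x ∈ F.S g := by
  choose a ha using fun x => F.total (f x)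
  obtain ⟨b, hb⟩ := hO.bdd (Set.range a) (Cardinal.mk_range_le.trans_lt hX)
  exact ⟨b, fun x => F.mono _ _ (hb _ ⟨x, rfl⟩).le (ha x)⟩

theorem gen_bot_top (hO : IsKap O) : ∀ᶠ M in clubF O, F.Gen ⊥ M ⊤ := by
  filter_upwards [ev_mem (F.cb ⊤)] with M hM E hE _
  rw [top_inf_eq]
  by_cases h : (⊤ : B) ∈ E
  · exact le_top.trans (le_sSup ⟨h, hM⟩)
  · refine sSup_le fun e he => ?_
    rcases F.bot e (hE he) with rfl | rfl
    · exact bot_le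
    · exact absurd he h

include F in
theorem reg_om (hΩ : IsOm1 Ω) (hO : IsKap O) (c : ℕ → Ω → B) (hc : ∀ n, Monotone (c n)) :
    ⨅ n, ⨆ ξ, c n ξ ≤ ⨆ ξ, ⨅ n, c n ξ := by
  by_contra hne
  set e : B := (⨅ n, ⨆ ξ, c n ξ) ⊓ (⨆ ξ, ⨅ n, c n ξ)ᶜ with he
  have hebot : e ≠ ⊥ := by
    intro h
    apply hne
    exact disjoint_compl_right_iff.1 (disjoint_iff_inf_le.2 h.le)
  have hX : #(ℕ × Ω) < #O := by
    rw [Cardinal.mk_prod, Cardinal.lift_id, Cardinal.lift_id, Cardinal.mk_nat]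
    refine lt_of_le_of_lt ?_ hO.om1
    calc ℵ₀ * #Ω ≤ ℵ₁ * ℵ₁ := mul_le_mul' (Cardinal.aleph0_le_aleph 1) (card_om1 hΩ)
      _ = ℵ₁ := Cardinal.mul_eq_self (Cardinal.aleph0_le_aleph 1)
  obtain ⟨g, hg⟩ := F.gen_bd hO hX fun x : ℕ × Ω => c x.1 x.2
  have hbotLm : ¬ Lm (⊥ : O) := fun h => by
    obtain ⟨x, hx⟩ := h.1
    exact not_lt_bot hx
  have hall : ∀ᶠ M in clubF O, ∀ n, ∀ a, (∀ x, c n x ∈ F.S a) → ∀ q, F.Gen a M q →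
      q ⊓ ⨆ x, c n x ≤ ⨆ x, ⨆ _ : F.o x ∈ M, c n x :=
    eventually_countable_forall.2 fun n => F.ev_iSup F.o (c n)
  have hU : ¬ (Set.univ : Set Ω).Countable := fun h => hΩ.unc (Set.countable_univ_iff.1 h)
  obtain ⟨M, hM1, hM2, hM3, hM4, hM5, δ, hδ, -⟩ := ((F.ev_top hΩ hO hbotLm).and
    ((ev_mem (F.cb e)).and ((ev_mem g).and (hall.and ((F.gen_bot_top hO).and
      (ev_delta hΩ.cnt hU F.o_inj)))))).exists
  have hpr : F.pr ⊥ e = ⊤ := by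
    rcases F.bot _ (F.pr_mem ⊥ e) with h | h
    · exact absurd (F.pr_eq_bot.1 h) hebot
    · exact h
  obtain ⟨r, hr0, hre, -, hrg⟩ := hM1 e hM2 ⊤ (F.top_mem ⊥) (Ne.symm F.ntriv) (by rw [hpr]) hM5
  apply hr0
  rw [← le_bot_iff]
  have h1 : ∀ n, r ≤ c n δ := by
    intro n
    have h2 : r ≤ ⨆ ξ, c n ξ := (hre.trans inf_le_left).trans (iInf_le _ n)
    calc r ≤ r ⊓ ⨆ ξ, c n ξ := le_inf le_rfl h2
      _ ≤ ⨆ ξ, ⨆ _ : F.o ξ ∈ M, c n ξ := hM4 n g (fun x => hg (n, x)) r (hrg g hM3)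
      _ ≤ c n δ := iSup₂_le fun ξ hξ => hc n ((hδ ξ).1 hξ).le
  have h3 : r ≤ ⨆ ξ, ⨅ n, c n ξ := (le_iInf h1).trans (le_iSup (fun ξ => ⨅ n, c n ξ) δ)
  have h4 : r ≤ (⨆ ξ, ⨅ n, c n ξ)ᶜ := hre.trans inf_le_right
  exact (le_inf h3 h4).trans inf_compl_eq_bot.le

end Flt

end Pool.Agent.BPF
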