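import Pool.Agent.Lib.MP_11349d_lc.I.Cl
import Pool.Agent.Lib.MP_11349d_lc.I.Tsk

/-!
# Rfn: determined elements of M deciding a set

PROOF. By normality (`ev_nrm inj_id` for `g`, `ev_nrm F.cb_inj` for `x`, `ev_normalOn F.cS_inj` for `E`, every `E ⊆ S b` has
`#E ≤ #(S b) < #O`) fix `g < b`, `x ∈ S b`, `E ⊆ S b`. Call `p` good if `p ∈ S b`, `p ≠ ⊥`, `p ≤ x`, `(∃ e ∈ E, p ≤ e) ∨ p ≤ (sSup E)ᶜ`
and `∃ c : ℕ → O, (∀ n, c n < b) ∧ ⨅ n, pr (c n) p ≤ p`. Let `f p = pr g p` for good `p`, `⊥` otherwise (classical `if`);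
`f p ∈ S g`. CLAIM `pr g x ≤ ⨆ p, f p`: by `pr_le` (the supremum is in `S g`) it is enough that `x ≤ ⨆ f`; if
`z = x ⊓ (⨆ f)ᶜ ≠ ⊥` (`z ∈ S b`, as `S g ⊆ S b`), then `z ⊓ e ≠ ⊥` for some `e ∈ E` or `z ⊓ (sSup E)ᶜ ≠ ⊥`; `F.det b` below this
element of `S b` gives a good `p ≤ z`, and `p ≤ pr g p = f p ≤ ⨆ f`, contradiction. `F.ev_iSup F.cb f`: for club many `M`, all
`q` with `Gen g M q`: `q ⊓ ⨆ f ≤ ⨆ p, ⨆ _ : cb p ∈ M, f p`. As `⊥ ≠ q ⊓ pr g x`, some `p` with `cb p ∈ M` has `q ⊓ f p ≠ ⊥`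
(`ne_of_iSup`), so `p` is good. Witnesses in `M`: `e` by `ev_r1 F.cb_inj F.cb (fun p e => e ∈ E ∧ p ≤ e)` (`E` is fixed); the
sequence: for each `p` fixed choose `c` (if there is one), `ev_sub (countable_range c)`.
-/

set_option autoImplicit false

namespace Pool.Agent.BPF

open Cardinal Pool.Agent.CSI

namespace Flt

variable {O Ω B : Type} [LinearOrder O] [WellFoundedLT O] [LinearOrder Ω] [WellFoundedLT Ω]
    [OrderBot O] [OrderBot Ω] [CompleteBooleanAlgebra B] {T : LTree Ω}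
    (F : Flt (O := O) (B := B) T)

/-- the elements used in `ev_refine` -/
private def RGood (b : O) (x : B) (E : Set B) (p : B) : Prop :=
  p ∈ F.S b ∧ p ≤ x ∧ ((∃ e ∈ E, p ≤ e) ∨ p ≤ (sSup E)ᶜ) ∧
    ∃ c : ℕ → O, (∀ n, c n < b) ∧ ⨅ n, F.pr (c n) p ≤ p

open Classical in
private noncomputable def rgf (b g : O) (x : B) (E : Set B) (p : B) : B :=
  if F.RGood b x E p then F.pr g p else ⊥

private theorem rgf_mem (b g : O) (x : B) (E : Set B) (p : B) : F.rgf b g x E p ∈ F.S g := by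
  unfold rgf
  split_ifs
  · exact F.pr_mem g p
  · exact F.bot_mem g

private theorem rgf_le {b g : O} (hb : Lm b) (hg : g < b) {x : B} (hx : x ∈ F.S b) {E : Set B}
    (hE : E ⊆ F.S b) : F.pr g x ≤ ⨆ p, F.rgf b g x E p := by
  have hsup : ⨆ p, F.rgf b g x E p ∈ F.S g := F.iSup_mem fun p => F.rgf_mem b g x E p
  refine F.pr_le hsup ?_
  by_contra hn
  obtain ⟨z, hz⟩ : ∃ z, z = x ⊓ (⨆ p, F.rgf b g x E p)ᶜ := ⟨_, rfl⟩
  have hz0 : z ≠ ⊥ := by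
    intro h0
    apply hn
    rw [hz, ← disjoint_iff] at h0
    exact disjoint_compl_right_iff.1 h0
  have hzS : z ∈ F.S b := by
    rw [hz]
    exact F.inf_mem hx (F.compl_iff.2 (F.mono g b hg.le hsup))
  obtain ⟨z', hz'S, hz'0, hz'z, hz'E⟩ : ∃ z' ∈ F.S b, z' ≠ ⊥ ∧ z' ≤ z ∧
      ((∃ e ∈ E, z' ≤ e) ∨ z' ≤ (sSup E)ᶜ) := by
    by_cases h : ∃ e ∈ E, z ⊓ e ≠ ⊥
    · obtain ⟨e, he, h1⟩ := h
      exact ⟨z ⊓ e, F.inf_mem hzS (hE he), h1, inf_le_left, Or.inl ⟨e, he, inf_le_right⟩⟩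
    · push Not at h
      refine ⟨z, hzS, hz0, le_rfl, Or.inr ?_⟩
      rw [le_compl_iff_disjoint_right, disjoint_iff, inf_sSup_eq]
      refine le_bot_iff.1 (iSup₂_le fun e he => (h e he).le)
  obtain ⟨y, hyS, hy0, hyz, c, hc, hcy⟩ := F.det b hb z' hz'S hz'0
  have hy : F.RGood b x E y := by
    refine ⟨hyS, ?_, ?_, c, hc, hcy⟩
    · refine (hyz.trans hz'z).trans ?_
      rw [hz]
      exact inf_le_left
    · rcases hz'E with ⟨e, he, h1⟩ | h1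
      · exact Or.inl ⟨e, he, hyz.trans h1⟩
      · exact Or.inr (hyz.trans h1)
  have h1 : y ≤ ⨆ p, F.rgf b g x E p := by
    refine le_trans ?_ (le_iSup _ y)
    unfold rgf
    rw [if_pos hy]
    exact F.le_pr g y
  have h2 : y ≤ (⨆ p, F.rgf b g x E p)ᶜ := by
    refine (hyz.trans hz'z).trans ?_
    rw [hz]
    exact inf_le_right
  apply hy0
  rw [← le_bot_iff, ← inf_compl_eq_bot (a := ⨆ p, F.rgf b g x E p)]
  exact le_inf h1 h2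

theorem ev_refine {b : O} (hb : Lm b) : ∀ᶠ M in clubF O, ∀ g ∈ M, g < b → ∀ x ∈ F.S b, F.cb x ∈ M →
    ∀ E ⊆ F.S b, F.cS E ∈ M → ∀ q, F.Gen g M q → q ⊓ F.pr g x ≠ ⊥ →
      ∃ p ∈ F.S b, F.cb p ∈ M ∧ p ≤ x ∧ ((∃ e ∈ E, F.cb e ∈ M ∧ p ≤ e) ∨ p ≤ (sSup E)ᶜ) ∧
        q ⊓ F.pr g p ≠ ⊥ ∧ ∃ c : ℕ → O, (∀ n, c n ∈ M ∧ c n < b) ∧ ⨅ n, F.pr (c n) p ≤ p := by
  have hsm : ∀ E ⊆ F.S b, #E < #O := fun E hE =>
    lt_of_le_of_lt (Cardinal.mk_le_mk_of_subset hE) (F.small b)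
  have hkey : ∀ (g : O) (x : B) (E : Set B), E ⊆ F.S b → ∀ᶠ M in clubF O,
      g < b → x ∈ F.S b → ∀ q, F.Gen g M q → q ⊓ F.pr g x ≠ ⊥ →
      ∃ p ∈ F.S b, F.cb p ∈ M ∧ p ≤ x ∧ ((∃ e ∈ E, F.cb e ∈ M ∧ p ≤ e) ∨ p ≤ (sSup E)ᶜ) ∧
        q ⊓ F.pr g p ≠ ⊥ ∧ ∃ c : ℕ → O, (∀ n, c n ∈ M ∧ c n < b) ∧ ⨅ n, F.pr (c n) p ≤ p := by
    intro g x E hE
    have hseq : ∀ᶠ M in clubF O, ∀ p, F.cb p ∈ M →
        ((∃ c : ℕ → O, (∀ n, c n < b) ∧ ⨅ n, F.pr (c n) p ≤ p) →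
          ∃ c : ℕ → O, (∀ n, c n ∈ M ∧ c n < b) ∧ ⨅ n, F.pr (c n) p ≤ p) := by
      refine ev_nrm F.cb_inj fun p => ?_
      by_cases h : ∃ c : ℕ → O, (∀ n, c n < b) ∧ ⨅ n, F.pr (c n) p ≤ p
      · obtain ⟨c, hc, hcp⟩ := h
        filter_upwards [ev_sub (Set.countable_range c)] with M hM _
        exact ⟨c, fun n => ⟨hM ⟨n, rfl⟩, hc n⟩, hcp⟩
      · filter_upwards with M hM
        exact absurd hM h
    filter_upwards [F.ev_iSup F.cb (F.rgf b g x E),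
      ev_r1 F.cb_inj F.cb (fun p e => e ∈ E ∧ p ≤ e), hseq] with M h1 h2 h3 hg hx q hq hqx
    have h4 := h1 g (F.rgf_mem b g x E) q hq
    have h5 : q ⊓ F.pr g x ≤ ⨆ p, ⨆ _ : F.cb p ∈ M, F.rgf b g x E p :=
      (inf_le_inf_left q (F.rgf_le hb hg hx hE)).trans h4
    obtain ⟨p, hpM, hp⟩ := ne_of_iSup hqx h5
    by_cases hG : F.RGood b x E p
    · have h6 : F.rgf b g x E p = F.pr g p := by
        unfold rgf
        rw [if_pos hG]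
      rw [h6] at hp
      obtain ⟨hpS, hpx, hpE, hpc⟩ := hG
      refine ⟨p, hpS, hpM, hpx, ?_, ?_, h3 p hpM hpc⟩
      · rcases hpE with ⟨e, he, hpe⟩ | h7
        · obtain ⟨e', ⟨he', hpe'⟩, heM⟩ := h2 p hpM ⟨e, he, hpe⟩
          exact Or.inl ⟨e', he', heM, hpe'⟩
        · exact Or.inr h7
      · intro h7
        apply hp
        rw [← le_bot_iff, ← h7]
        exact inf_le_inf_right _ inf_le_left
    · exfalso
      apply hp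
      have h6 : F.rgf b g x E p = ⊥ := by
        unfold rgf
        rw [if_neg hG]
      rw [h6, inf_bot_eq]
  have h1 : ∀ᶠ M in clubF O, ∀ g, g ∈ M → ∀ x, F.cb x ∈ M → ∀ E ∈ {E : Set B | #E < #O},
      F.cS E ∈ M → (E ⊆ F.S b → g < b → x ∈ F.S b → ∀ q, F.Gen g M q → q ⊓ F.pr g x ≠ ⊥ →
      ∃ p ∈ F.S b, F.cb p ∈ M ∧ p ≤ x ∧ ((∃ e ∈ E, F.cb e ∈ M ∧ p ≤ e) ∨ p ≤ (sSup E)ᶜ) ∧
        q ⊓ F.pr g p ≠ ⊥ ∧ ∃ c : ℕ → O, (∀ n, c n ∈ M ∧ c n < b) ∧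
          ⨅ n, F.pr (c n) p ≤ p) := by
    refine ev_nrm inj_id fun g => ev_nrm F.cb_inj fun x => ev_normalOn F.cS_inj fun E _ => ?_
    by_cases hE : E ⊆ F.S b
    · filter_upwards [hkey g x E hE] with M hM _
      exact hM
    · filter_upwards with M hM
      exact absurd hM hE
  filter_upwards [h1] with M hM g hgM hg x hx hxM E hE hEM
  exact hM g hgM x hxM E (hsm E hE) hEM hE hg hx

/-- the sequence in `ev_refine` may be replaced by any cofinal sequence -/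
theorem dt_of {a b : O} {M : Set O} {d : Ω} {c : ℕ → O} (h : F.Ctx a b M d c) {p : B}
    (hp : p ∈ F.S b) (hM : F.cb p ∈ M)
    (hc : ∃ c' : ℕ → O, (∀ n, c' n ∈ M ∧ c' n < b) ∧ ⨅ n, F.pr (c' n) p ≤ p) : F.Dt b M c p := by
  obtain ⟨c', hc', hcp⟩ := hc
  refine ⟨hp, hM, le_trans (le_iInf fun n => ?_) hcp⟩
  obtain ⟨k, hk⟩ := h.cof (c' n) (hc' n).1 (hc' n).2
  exact (iInf_le _ k).trans (F.pr_anti hk.le p)

end Flt

end Pool.Agent.BPF
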