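import Pool.Agent.Lib.MP_11349d_lc.I.Rfn
import Pool.Agent.Lib.MP_11349d_lc.I.Mb

/-!
# SG: the step for the task g

PROOF. `F.ev_refine hb` with `g = c n`, `x = p`, `q`: `q ⊓ pr (c n) p = q ≠ ⊥`. It gives `p'`; put `q' = q ⊓ pr (c n) p'`, `y' = y`.
`OkS`: `mem` by `inf_mem`, `pr_mem`; `pr` is `inf_le_right`; `gen` by `gen_mono`; `cap` is clear. `Dt`: `dt_of`. `Done` is the
disjunction of `ev_refine`.
-/

set_option autoImplicit false

namespace Pool.Agent.BPF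

open Cardinal Pool.Agent.CSI

namespace Flt

variable {O Ω B : Type} [LinearOrder O] [WellFoundedLT O] [LinearOrder Ω] [WellFoundedLT Ω]
    [OrderBot O] [OrderBot Ω] [CompleteBooleanAlgebra B] {T : LTree Ω}
    (F : Flt (O := O) (B := B) T)

theorem step_g {a b : O} (hb : Lm b) : ∀ᶠ M in clubF O, ∀ d c, F.Ctx a b M d c → ∀ n p y q,
    F.Dt b M c p → F.OkS M d c n p y q → q ≠ ⊥ → ∀ E, F.TIn b M (.g E) →
      F.Stp b M d c n p y q (.g E) := by
  filter_upwards [F.ev_refine hb] with M h d c hx n p y q hp hok hq E hE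
  have h0 : q ⊓ F.pr (c n) p = q := inf_eq_left.2 hok.pr
  obtain ⟨p', hp', hM', hle, hdec, hne, hc⟩ := h (c n) (hx.cM n) (hx.clt n) p hp.1 hp.2.1 E hE.1
    hE.2 q hok.gen (by rw [h0]; exact hq)
  exact ⟨p', y, q ⊓ F.pr (c n) p', F.dt_of hx hp' hM' hc, hne, inf_le_left, hle, subset_rfl,
    ⟨F.inf_mem hok.mem (F.pr_mem _ _), inf_le_right, F.gen_mono inf_le_left hok.gen,
      inf_le_left.trans hok.cap⟩, hdec⟩

end Flt

end Pool.Agent.BPF
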