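import Pool.Agent.Lib.MP_11349d_lc.I.Cp0

/-!
# Top: generic conditions of the whole algebra

PROOF. For club many `M` (`ev_cofT`, `ev_cap0` for all non-limits in `M` by `ev_nrm inj_id`, `IHM x z M` for all `x < z` in `M`, `¬ Lm x`
(`ih_all`, `ev_nrm2`), `cb (pr z p) ∈ M`, and for `cb p ∈ M` some `z ∈ M` with `p ∈ S z` (`ev_r1 F.cb_inj`, `F.total`), and `ev_delta`
of Club.lean for `d` with `F.o ξ ∈ M ↔ ξ < d`; `hΩ.unc`, `hΩ.cnt`). Let `p, q` be given, `c` the sequence. Apply `F.fusion` with `St = Unit`,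
`Tr = True`, `Ok n () x := x ∈ S (c n) ∧ x ≤ pr (c n) p ∧ Gen (c n) M x ∧ x ≤ Cap (c n) M d ∅`, `q0 = q`. `step`: `q' = q`; for `q''` use
`IHM (c n) (c (n+1))` with `pr (c (n+1)) p`, `y = ∅` (`c (n+1)` is not a limit). Result `r`, `σ`; `pr a r = q ≠ ⊥`, so `r ≠ ⊥`. For all `n`
`r ≤ ⨆ s, σ n s = σ n ()`. `r ≤ p`: `p ∈ S z`, `z ∈ M`, `z < c n`, so `pr (c n) p = p`. `Gen g M r` for `g ∈ M`: `g < c n`, `Gen (c n) M (σ n ())`,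
`gen_mono`, `gen_le`.
-/

set_option autoImplicit false

namespace Pool.Agent.BPF

open Cardinal Pool.Agent.CSI

namespace Flt

variable {O Ω B : Type} [LinearOrder O] [WellFoundedLT O] [LinearOrder Ω] [WellFoundedLT Ω]
    [OrderBot O] [OrderBot Ω] [CompleteBooleanAlgebra B] {T : LTree Ω}
    (F : Flt (O := O) (B := B) T)

theorem ev_top (hΩ : IsOm1 Ω) (hO : IsKap O) {a : O} (ha : ¬ Lm a) : ∀ᶠ M in clubF O,
    ∀ p, F.cb p ∈ M → ∀ q ∈ F.S a, q ≠ ⊥ → q ≤ F.pr a p → F.Gen a M q →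
      ∃ r, r ≠ ⊥ ∧ r ≤ p ∧ r ≤ q ∧ ∀ g ∈ M, F.Gen g M r := by
  have e1 := ev_cofT hO ha
  have e2 : ∀ᶠ M in clubF O, ∀ x, x ∈ M → ¬ Lm x → ∀ d q, F.Gen x M q → q ≤ F.Cap x M d ∅ := by
    refine ev_nrm (c := fun x => x) inj_id
      (Φ := fun x M => ¬ Lm x → ∀ d q, F.Gen x M q → q ≤ F.Cap x M d ∅) fun x => ?_
    by_cases hx : Lm x
    · exact Filter.Eventually.of_forall fun M h => absurd hx h
    · exact (F.ev_cap0 hΩ hO hx).mono fun M hM _ => hM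
  have e3 : ∀ᶠ M in clubF O, ∀ x, x ∈ M → ∀ z, z ∈ M → ¬ Lm x → x < z → F.IHM x z M := by
    refine ev_nrm2 (c := fun x => x) inj_id (c' := fun x => x) inj_id
      (Φ := fun x z M => ¬ Lm x → x < z → F.IHM x z M) fun x z => ?_
    by_cases hx : ¬ Lm x ∧ x < z
    · exact (F.ih_all hΩ hO x z hx.1 hx.2).mono fun M hM _ _ => hM
    · exact Filter.Eventually.of_forall fun M h1 h2 => absurd ⟨h1, h2⟩ hx
  have e4 : ∀ᶠ M in clubF O, ∀ z, z ∈ M → ∀ p, F.cb p ∈ M → F.cb (F.pr z p) ∈ M :=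
    ev_f2 (c := fun x => x) inj_id F.cb_inj F.cb (fun z p => F.pr z p)
  have e5 : ∀ᶠ M in clubF O, ∀ p, F.cb p ∈ M → (∃ z, p ∈ F.S z) → ∃ z, p ∈ F.S z ∧ z ∈ M :=
    ev_r1 F.cb_inj (fun z => z) (fun p z => p ∈ F.S z)
  have e6 := ev_delta hΩ.cnt (fun h => hΩ.unc (Set.countable_univ_iff.1 h)) F.o_inj
  filter_upwards [e1, e2, e3, e4, e5, e6] with M h1 h2 h3 h4 h5 h6 p hp q hq hq0 hqp hqg
  obtain ⟨c, hc0, hc, hcM, hcof⟩ := h1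
  obtain ⟨d, hd, -, -⟩ := h6
  have hstep : ∀ (n : ℕ) (_ : Unit) (x : B), (x ∈ F.S (c n) ∧ x ≤ F.pr (c n) p ∧ F.Gen (c n) M x ∧
      x ≤ F.Cap (c n) M d ∅) → x ≠ ⊥ → ∃ _ : Unit, ∃ q' ∈ F.S (c n), q' ≠ ⊥ ∧ q' ≤ x ∧ True ∧
      ∀ q'' ∈ F.S (c n), q'' ≠ ⊥ → q'' ≤ q' → ∃ r, (r ∈ F.S (c (n + 1)) ∧ r ≤ F.pr (c (n + 1)) p ∧
        F.Gen (c (n + 1)) M r ∧ r ≤ F.Cap (c (n + 1)) M d ∅) ∧ r ≠ ⊥ ∧ r ≤ q'' := by
    intro n _ x hx hx0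
    refine ⟨(), x, hx.1, hx0, le_rfl, trivial, fun q'' hq'' hq0'' hle => ?_⟩
    have hlt : c n < c (n + 1) := hc (Nat.lt_succ_self n)
    have hpp : F.pr (c n) (F.pr (c (n + 1)) p) = F.pr (c n) p := F.pr_pr hlt.le p
    obtain ⟨r, hrS, hr0, hrp, hrq, hrg, hrc⟩ :=
      (h3 (c n) (hcM n).1 (c (n + 1)) (hcM (n + 1)).1 (hcM n).2 hlt d hd (F.pr (c (n + 1)) p)
        (F.pr_mem _ _) (h4 _ (hcM (n + 1)).1 p hp) ∅ q'' hq'' hq0''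
        (by rw [hpp]; exact hle.trans hx.2.1) (F.gen_mono hle hx.2.2.1)
        (hle.trans hx.2.2.2)).1 (hcM (n + 1)).2
    exact ⟨r, ⟨hrS, hrp, hrg, hrc⟩, hr0, hrq⟩
  obtain ⟨r, σ, hr1, hr2, hr3, -, hr5, -, -, -⟩ := F.fusion (St := Unit) c hc
    (fun n _ x => x ∈ F.S (c n) ∧ x ≤ F.pr (c n) p ∧ F.Gen (c n) M x ∧ x ≤ F.Cap (c n) M d ∅)
    (fun _ _ _ _ => True)
    (fun n _ q h => h.1)
    (fun n _ q h q' hq' hle => ⟨hq', hle.trans h.2.1, F.gen_mono hle h.2.2.1, hle.trans h.2.2.2⟩)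
    (fun n _ E hE => ⟨F.sup_mem _ E fun x hx => (hE x hx).1, sSup_le fun x hx => (hE x hx).2.1,
      by rw [sSup_eq_iSup']; exact F.gen_iSup fun x => (hE x.1 x.2).2.2.1,
      sSup_le fun x hx => (hE x hx).2.2.2⟩)
    (fun _ _ _ _ _ _ _ => trivial)
    hstep () q ⟨by rw [hc0]; exact hq, by rw [hc0]; exact hqp, by rw [hc0]; exact hqg,
      by rw [hc0]; exact h2 a (hc0 ▸ (hcM 0).1) ha d q hqg⟩
  have hrσ : ∀ n, r ≤ σ n () := fun n => (hr5 n).trans (iSup_le fun _ => le_rfl)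
  refine ⟨r, fun h => hq0 ?_, ?_, hr2, fun g hg => ?_⟩
  · rw [← hr1, F.pr_eq_bot]
    exact h
  · obtain ⟨z, hz, hzM⟩ := h5 p hp (F.total p)
    obtain ⟨n, hn⟩ := hcof z hzM
    have h7 : F.pr (c n) p = p := F.pr_of_mem (F.mono _ _ hn.le hz)
    rw [← h7]
    exact (hrσ n).trans (hr3 n ()).2.1
  · obtain ⟨n, hn⟩ := hcof g hg
    exact F.gen_le hn.le (F.gen_mono (hrσ n) (hr3 n ()).2.2.1)

end Flt

end Pool.Agent.BPF
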