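import Pool.Agent.Lib.MP_11349d_lc.I.Top
import Pool.Agent.Lib.MP_11349d_lc.I.Cmp
import Pool.Agent.Lib.MP_11349d_lc.I.Reg

/-!
# XS: the extension S a -> B is relatively proper

`F.XS a` is the extension of `{x // x ∈ S a ∧ x ≠ ⊥}` by `{x // x ≠ ⊥}`.
PROOF of `relProper_XS`. Let `A = {x : B // x ≠ ⊥}`, `P = {x : B // x ∈ S a ∧ x ≠ ⊥}`, `W = O ⊕ (A ⊕ Set A)`. For club many `N' ⊆ W`
(everything by `ev_preimage` along `Sum.inl` for statements about `M = inl ⁻¹' N'`, and by `ev_fun`/`ev_rel`/`ev_mem` with the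
injective codes `fun x : B => inl (F.cb x)`, `fun x : A => inr (inl x)`, `fun D : Set A => inr (inr D)`, and `fun E => inl (F.cS E)` on small sets):
(1) the conclusion of `ev_top` for `M`; (2) `F.cb x ∈ M ↔ inr (inl x) ∈ N'` for `x : A`; (3) for `D : Set A` dense with `inr (inr D) ∈ N'` there are
`E : Set B` and `g ∈ M` with `F.cS E ∈ M`, `E ⊆ val '' D`, `E ⊆ S g`, `#E < #O`, `sSup E = ⊤` [exists: `D` dense gives `sSup (val '' D) = ⊤`, `F.cc'`, and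
`gen_bd` for the inclusion of `E`]; (4) for `E ⊆ S a` with `F.cS E ∈ M` the set `D_E = {x : P | (∃ e ∈ E, x ≤ e) ∨ x ≤ (sSup E)ᶜ}` has
`inr (inr (e '' D_E)) ∈ N'`, and for `x ∈ D_E` with `cb x ∈ M`, `x ≤ e` for some `e ∈ E`, there is such an `e` with `cb e ∈ M`.
`clubF_proj` along `Sum.inr` and `isClub_of_ev` give the club on `A ⊕ Set A`; let `N = inr ⁻¹' N'`. Let `p ∈ N`, `q ≤ pr a p`, `GenB N q`.
`Gen a M q`: let `E ⊆ S a`, `cS E ∈ M`, suppose `z = q ⊓ sSup E ⊓ (sSup {e ∈ E | cb e ∈ M})ᶜ ≠ ⊥`; `z ∈ S a`, `z ≤ q`. `D_E` is dense in `P`, so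
`GenB` gives `x ∈ D_E` with `inl (e x) ∈ N` compatible with `z`: `w ≤ x`, `w ≤ z`. `x ≤ (sSup E)ᶜ` is impossible (`w ≤ sSup E`), so `x ≤ e`, `e ∈ E`,
`cb e ∈ M`, `w ≤ e ≤ sSup {..}`, contradiction. Now (1) gives `r`. `pr a r ≤ q` since `r ≤ q ∈ S a`. `GenA N r`: let `D` be dense, `inr D ∈ N`, `r' ≤ r`;
take `E, g` from (3): `r' ≤ r ⊓ sSup E ≤ sSup {e ∈ E | cb e ∈ M}`, so `r' ⊓ e ≠ ⊥` for some `e ∈ E`, `cb e ∈ M`: `e ∈ D`, `inl e ∈ N`, compatible.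
-/

set_option autoImplicit false

namespace Pool.Agent.BPF

open Cardinal Pool.Agent.CSI

namespace Flt

variable {O Ω B : Type} [LinearOrder O] [WellFoundedLT O] [LinearOrder Ω] [WellFoundedLT Ω]
    [OrderBot O] [OrderBot Ω] [CompleteBooleanAlgebra B] {T : LTree Ω}
    (F : Flt (O := O) (B := B) T)

/-- the extension `S a → B` -/
noncomputable def XS (a : O) : PExt {x : B // x ∈ F.S a ∧ x ≠ ⊥} {x : B // x ≠ ⊥} where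
  e := fun x => ⟨x.1, x.2.2⟩
  π := fun x => ⟨F.pr a x.1, F.pr_mem a _, fun h => x.2 (F.pr_eq_bot.1 h)⟩
  e_mono := fun h => h
  π_mono := fun h => F.pr_mono h
  π_e := fun x => Subtype.ext (F.pr_of_mem x.2.1)
  le_e := fun x => F.le_pr a x.1
  proj := by
    intro x p hp
    refine ⟨⟨x.1 ⊓ p.1, fun h => p.2.2 ?_⟩, inf_le_left, ?_⟩
    · have h1 : F.pr a (x.1 ⊓ p.1) = ⊥ := F.pr_eq_bot.2 h
      rw [F.pr_inf p.2.1] at h1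
      have h2 : p.1 ≤ F.pr a x.1 := hp
      rwa [inf_eq_right.2 h2] at h1
    · exact F.pr_le p.2.1 inf_le_right

private theorem xs_bot {w x : B} (h : w ≤ x) (h' : w ≤ xᶜ) : w = ⊥ := by
  rw [← le_bot_iff, ← inf_compl_eq_bot (a := x)]
  exact le_inf h h'

private theorem xs_ne {x s : B} (h : ¬ x ≤ s) : x ⊓ sᶜ ≠ ⊥ := by
  intro h0
  apply h
  have h1 : Disjoint x sᶜ := disjoint_iff_inf_le.2 h0.le
  exact disjoint_compl_right_iff.1 h1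

private theorem xs_sSup {x : B} {E : Set B} (h : x ⊓ sSup E ≠ ⊥) : ∃ e ∈ E, x ⊓ e ≠ ⊥ := by
  by_contra hn
  push Not at hn
  apply h
  rw [← le_bot_iff, inf_sSup_eq]
  exact iSup₂_le fun e he => (hn e he).le

/-- the dense set given by `E` -/
private def xsD (a : O) (E : Set B) : Set {x : B // x ∈ F.S a ∧ x ≠ ⊥} :=
  {x | (∃ e ∈ E, x.1 ≤ e) ∨ x.1 ≤ (sSup E)ᶜ}

private theorem xsD_dns (a : O) {E : Set B} (hE : E ⊆ F.S a) : Dns (xsD F a E) := by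
  intro x
  by_cases h : x.1 ⊓ sSup E = ⊥
  · refine ⟨x, Or.inr ?_, le_rfl⟩
    exact le_compl_iff_disjoint_right.2 (disjoint_iff.2 h)
  · obtain ⟨e, he, hne⟩ := xs_sSup h
    exact ⟨⟨x.1 ⊓ e, F.inf_mem x.2.1 (hE he), hne⟩, Or.inl ⟨e, he, inf_le_right⟩, inf_le_left⟩

private theorem xs_key (hO : IsKap O) (D : Set {x : B // x ≠ ⊥}) : ∃ (E : Set B) (g : O), Dns D →
    E ⊆ Subtype.val '' D ∧ E ⊆ F.S g ∧ sSup E = ⊤ := by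
  by_cases hD : Dns D
  · obtain ⟨E, hE, hEc, hEs⟩ := F.cc' (Subtype.val '' D)
    obtain ⟨g, hg⟩ := F.gen_bd hO (X := E) hEc Subtype.val
    refine ⟨E, g, fun _ => ⟨hE, fun e he => hg ⟨e, he⟩, ?_⟩⟩
    rw [hEs]
    by_contra hne
    have h1 : (sSup (Subtype.val '' D))ᶜ ≠ ⊥ := fun h0 => hne (by
      rw [← compl_compl (sSup (Subtype.val '' D)), h0, compl_bot])
    obtain ⟨d, hd, hdx⟩ := hD ⟨_, h1⟩
    have h2 : d.1 ≤ sSup (Subtype.val '' D) := le_sSup ⟨d, hd, rfl⟩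
    have h3 : d.1 ≤ (sSup (Subtype.val '' D))ᶜ := hdx
    exact d.2 (xs_bot h2 h3)
  · exact ⟨∅, ⊥, fun h => absurd h hD⟩

theorem relProper_XS (hΩ : IsOm1 Ω) (hO : IsKap O) {a : O} (ha : ¬ Lm a) : (F.XS a).RelProper := by
  classical
  choose fE fg hfg using xs_key F hO
  have i1 : Function.Injective
      (fun x : {x : B // x ≠ ⊥} => (Sum.inl (F.cb x.1) : O ⊕ ({x : B // x ≠ ⊥} ⊕ Set {x : B // x ≠ ⊥}))) :=
    fun x y h => Subtype.ext (F.cb_inj (Sum.inl_injective h))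
  have i2 : Function.Injective
      (fun x : {x : B // x ≠ ⊥} => (Sum.inr (Sum.inl x) : O ⊕ ({x : B // x ≠ ⊥} ⊕ Set {x : B // x ≠ ⊥}))) :=
    fun x y h => Sum.inl_injective (Sum.inr_injective h)
  have i3 : Function.Injective
      (fun D : Set {x : B // x ≠ ⊥} => (Sum.inr (Sum.inr D) : O ⊕ ({x : B // x ≠ ⊥} ⊕ Set {x : B // x ≠ ⊥}))) :=
    fun x y h => Sum.inr_injective (Sum.inr_injective h)
  have hsm : ∀ E ∈ {E : Set B | E ⊆ F.S a}, E ∈ {E : Set B | #E < #O} := fun E hE =>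
    lt_of_le_of_lt (mk_le_mk_of_subset hE) (F.small a)
  have i4 : Set.InjOn F.cS {E : Set B | E ⊆ F.S a} := fun E hE E' hE' h =>
    F.cS_inj (hsm E hE) (hsm E' hE') h
  have i5 : Set.InjOn
      (fun E : Set B => (Sum.inl (F.cS E) : O ⊕ ({x : B // x ≠ ⊥} ⊕ Set {x : B // x ≠ ⊥})))
      {E : Set B | E ⊆ F.S a} := fun E hE E' hE' h => i4 hE hE' (Sum.inl_injective h)
  have h1 : ∀ᶠ N' in clubF (O ⊕ ({x : B // x ≠ ⊥} ⊕ Set {x : B // x ≠ ⊥})),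
      ∀ p, F.cb p ∈ Sum.inl ⁻¹' N' → ∀ q ∈ F.S a, q ≠ ⊥ → q ≤ F.pr a p →
        F.Gen a (Sum.inl ⁻¹' N') q →
        ∃ r, r ≠ ⊥ ∧ r ≤ p ∧ r ≤ q ∧ ∀ g ∈ Sum.inl ⁻¹' N', F.Gen g (Sum.inl ⁻¹' N') r :=
    ev_preimage (K := O ⊕ ({x : B // x ≠ ⊥} ⊕ Set {x : B // x ≠ ⊥})) (e := Sum.inl)
      Sum.inl_injective (F.ev_top hΩ hO ha)
  have h4 : ∀ᶠ N' in clubF (O ⊕ ({x : B // x ≠ ⊥} ⊕ Set {x : B // x ≠ ⊥})),
      ∀ E ∈ {E : Set B | E ⊆ F.S a}, F.cS E ∈ Sum.inl ⁻¹' N' → ∀ x : B, F.cb x ∈ Sum.inl ⁻¹' N' →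
        (∃ e, e ∈ E ∧ x ≤ e) → ∃ e, (e ∈ E ∧ x ≤ e) ∧ F.cb e ∈ Sum.inl ⁻¹' N' :=
    ev_preimage (K := O ⊕ ({x : B // x ≠ ⊥} ⊕ Set {x : B // x ≠ ⊥})) (e := Sum.inl)
      (Φ := fun M => ∀ E ∈ {E : Set B | E ⊆ F.S a}, F.cS E ∈ M → ∀ x : B, F.cb x ∈ M →
        (∃ e, e ∈ E ∧ x ≤ e) → ∃ e, (e ∈ E ∧ x ≤ e) ∧ F.cb e ∈ M)
      Sum.inl_injective (ev_normalOn i4 fun E _ =>
        ev_r1 F.cb_inj F.cb (fun x e => e ∈ E ∧ x ≤ e))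
  have hall : ∀ᶠ N' in clubF (O ⊕ ({x : B // x ≠ ⊥} ⊕ Set {x : B // x ≠ ⊥})),
      ∀ p : {x : B // x ≠ ⊥}, (Sum.inr (Sum.inl p) : O ⊕ ({x : B // x ≠ ⊥} ⊕ Set {x : B // x ≠ ⊥})) ∈ N' →
        ∀ q ≤ (F.XS a).π p, (F.XS a).GenB (Sum.inr ⁻¹' N') q →
        ∃ r ≤ p, (F.XS a).π r ≤ q ∧ GenA (Sum.inr ⁻¹' N') r := by
    filter_upwards [h1, h4, ev_f1 i2 (fun x : {x : B // x ≠ ⊥} => Sum.inl (F.cb x.1)) (fun x => x),
      ev_f1 i1 (fun x : {x : B // x ≠ ⊥} => Sum.inr (Sum.inl x)) (fun x => x),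
      ev_f1 i3 (fun E : Set B => Sum.inl (F.cS E)) fE, ev_f1 i3 (fun g : O => Sum.inl g) fg,
      ev_fun i5 (fun D : Set {x : B // x ≠ ⊥} => Sum.inr (Sum.inr D))
        (fun E => (F.XS a).e '' xsD F a E)] with N' k1 k4 k2a k2b k3a k3b k5
    intro p hp q hq hB
    have hG : F.Gen a (Sum.inl ⁻¹' N') q.1 := by
      intro E hE hEM
      by_contra hcon
      have hz := xs_ne hcon
      have hs : sSup {e | e ∈ E ∧ F.cb e ∈ Sum.inl ⁻¹' N'} ∈ F.S a :=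
        F.sup_mem a _ fun e he => hE he.1
      have hzS : (q.1 ⊓ sSup E) ⊓ (sSup {e | e ∈ E ∧ F.cb e ∈ Sum.inl ⁻¹' N'})ᶜ ∈ F.S a :=
        F.inf_mem (F.inf_mem q.2.1 (F.sup_mem a E hE)) (F.compl_iff.2 hs)
      obtain ⟨d, hd, hdN, w, hwd, hwz⟩ := hB (xsD F a E) (k5 E hE hEM) (xsD_dns F a hE)
        ⟨_, hzS, hz⟩ (show _ ≤ q.1 from inf_le_left.trans inf_le_left)
      have hwd' : w.1 ≤ d.1 := hwd
      have hwz' : w.1 ≤ (q.1 ⊓ sSup E) ⊓ (sSup {e | e ∈ E ∧ F.cb e ∈ Sum.inl ⁻¹' N'})ᶜ := hwz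
      apply w.2.2
      rcases hd with hd | hd
      · have hdM : F.cb d.1 ∈ Sum.inl ⁻¹' N' := k2a _ hdN
        obtain ⟨e, ⟨heE, hde⟩, heM⟩ := k4 E hE hEM d.1 hdM hd
        have h5 : w.1 ≤ sSup {e | e ∈ E ∧ F.cb e ∈ Sum.inl ⁻¹' N'} :=
          (hwd'.trans hde).trans (le_sSup ⟨heE, heM⟩)
        exact xs_bot h5 (hwz'.trans inf_le_right)
      · exact xs_bot (hwz'.trans (inf_le_left.trans inf_le_right)) (hwd'.trans hd)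
    have hpM : F.cb p.1 ∈ Sum.inl ⁻¹' N' := k2a p hp
    obtain ⟨r, hr0, hrp, hrq, hrG⟩ := k1 p.1 hpM q.1 q.2.1 q.2.2 hq hG
    refine ⟨⟨r, hr0⟩, hrp, F.pr_le q.2.1 hrq, ?_⟩
    intro D hDN hDd r' hr'
    obtain ⟨hE1, hE2, hE3⟩ := hfg D hDd
    have hgM : fg D ∈ Sum.inl ⁻¹' N' := k3b D hDN
    have hEM : F.cS (fE D) ∈ Sum.inl ⁻¹' N' := k3a D hDN
    have h6 := hrG _ hgM (fE D) hE2 hEM
    rw [hE3, inf_top_eq] at h6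
    have h7 : r'.1 ≤ sSup {e | e ∈ fE D ∧ F.cb e ∈ Sum.inl ⁻¹' N'} := (show r'.1 ≤ r from hr').trans h6
    have h8 : r'.1 ⊓ sSup {e | e ∈ fE D ∧ F.cb e ∈ Sum.inl ⁻¹' N'} ≠ ⊥ := by
      rw [inf_eq_left.2 h7]
      exact r'.2
    obtain ⟨e, ⟨heE, heM⟩, hne⟩ := xs_sSup h8
    obtain ⟨d, hd, rfl⟩ := hE1 heE
    exact ⟨d, hd, k2b d heM, ⟨_, hne⟩, inf_le_right, inf_le_left⟩
  obtain ⟨C, hC, hN⟩ := isClub_of_ev (clubF_proj (j := (Sum.inr : {x : B // x ≠ ⊥} ⊕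
    Set {x : B // x ≠ ⊥} → O ⊕ ({x : B // x ≠ ⊥} ⊕ Set {x : B // x ≠ ⊥}))) Sum.inr_injective hall)
  refine ⟨C, hC, fun N hNC p hp q hq hB => ?_⟩
  obtain ⟨N', hN', rfl⟩ := hN N hNC
  exact hN' p hp q hq hB

end Flt

end Pool.Agent.BPF
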